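import Pool.Agent.KRat.Defs

/-!
Basic properties of the operators on words.
-/

set_option autoImplicit false

namespace Pool.Agent.KRat

open Finsupp

section

variable {f : Type} [Field f] {I : Type*} {M N L : Type*} [AddCommGroup M] [Module f M]
  [AddCommGroup N] [Module f N] [AddCommGroup L] [Module f L]

@[simp] theorem dif_nil (g : I → M →ₗ[f] N) (m : M) : dif g (single [] m) = 0 := by
  simp [dif]

@[simp] theorem dif_cons (g : I → M →ₗ[f] N) (i : I) (w : List I) (m : M) :
    dif g (single (i :: w) m) = single w (g i m) := by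
  simp [dif]

@[simp] theorem quad_nil (b : I → I → M →ₗ[f] N) (m : M) : quad b (single [] m) = 0 := by
  simp [quad]

@[simp] theorem quad_one (b : I → I → M →ₗ[f] N) (i : I) (m : M) :
    quad b (single [i] m) = 0 := by
  simp [quad]

@[simp] theorem quad_cons (b : I → I → M →ₗ[f] N) (i j : I) (w : List I) (m : M) :
    quad b (single (i :: j :: w) m) = single w (b i j m) := by
  simp [quad]

@[simp] theorem tl_apply (i : I) (z : List I →₀ M) (w : List I) :
    tl f i z w = z (i :: w) := rfl

@[simp] theorem tls_apply (u : List I) (z : List I →₀ M) (w : List I) :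
    tls f u z w = z (u ++ w) := by
  induction u generalizing z with
  | nil => rfl
  | cons i u ih => simp [tls, ih]

@[simp] theorem mp_apply (φ : M →ₗ[f] N) (z : List I →₀ M) (w : List I) :
    mp φ z w = φ (z w) := by
  simp [mp]

@[simp] theorem mp_single (φ : M →ₗ[f] N) (w : List I) (m : M) :
    mp φ (single w m) = single w (φ m) := by
  simp [mp]

theorem mp_comp (φ : M →ₗ[f] N) (ψ : N →ₗ[f] L) (z : List I →₀ M) :
    mp ψ (mp φ z) = mp (ψ ∘ₗ φ) z := by
  ext w
  simp

/-- linear maps on words agree if they agree on single words -/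
theorem lin_ext {φ ψ : (List I →₀ M) →ₗ[f] N} (h : ∀ w m, φ (single w m) = ψ (single w m)) :
    φ = ψ := by
  apply Finsupp.lhom_ext
  exact h

theorem dif_mp (g : I → N →ₗ[f] L) (φ : M →ₗ[f] N) (z : List I →₀ M) :
    dif g (mp φ z) = dif (fun i => g i ∘ₗ φ) z := by
  have : (dif g) ∘ₗ (mp φ) = dif (fun i => g i ∘ₗ φ) := by
    apply lin_ext
    intro w m
    cases w <;> simp
  exact LinearMap.congr_fun this z

theorem mp_dif (g : I → M →ₗ[f] N) (φ : N →ₗ[f] L) (z : List I →₀ M) :
    mp φ (dif g z) = dif (fun i => φ ∘ₗ g i) z := by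
  have : (mp φ) ∘ₗ (dif g) = dif (fun i => φ ∘ₗ g i) := by
    apply lin_ext
    intro w m
    cases w <;> simp
  exact LinearMap.congr_fun this z

theorem quad_mp (b : I → I → N →ₗ[f] L) (φ : M →ₗ[f] N) (z : List I →₀ M) :
    quad b (mp φ z) = quad (fun i j => b i j ∘ₗ φ) z := by
  have : (quad b) ∘ₗ (mp φ) = quad (fun i j => b i j ∘ₗ φ) := by
    apply lin_ext
    intro w m
    rcases w with _ | ⟨i, _ | ⟨j, w⟩⟩ <;> simp
  exact LinearMap.congr_fun this z

theorem mp_quad (b : I → I → M →ₗ[f] N) (φ : N →ₗ[f] L) (z : List I →₀ M) :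
    mp φ (quad b z) = quad (fun i j => φ ∘ₗ b i j) z := by
  have : (mp φ) ∘ₗ (quad b) = quad (fun i j => φ ∘ₗ b i j) := by
    apply lin_ext
    intro w m
    rcases w with _ | ⟨i, _ | ⟨j, w⟩⟩ <;> simp
  exact LinearMap.congr_fun this z

/-- two differentials are a quadratic operator -/
theorem dif_dif (g : I → M →ₗ[f] N) (g' : I → N →ₗ[f] L) (z : List I →₀ M) :
    dif g' (dif g z) = quad (fun i j => g' j ∘ₗ g i) z := by
  have : (dif g') ∘ₗ (dif g) = quad (fun i j => g' j ∘ₗ g i) := by
    apply lin_ext
    intro w m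
    rcases w with _ | ⟨i, _ | ⟨j, w⟩⟩ <;> simp
  exact LinearMap.congr_fun this z

theorem tl_mp (i : I) (φ : M →ₗ[f] N) (z : List I →₀ M) :
    tl f i (mp φ z) = mp φ (tl f i z) := by
  ext w
  simp

theorem tls_mp (u : List I) (φ : M →ₗ[f] N) (z : List I →₀ M) :
    tls f u (mp φ z) = mp φ (tls f u z) := by
  ext w
  simp

theorem dif_single_apply (g : I → M →ₗ[f] N) (w' w : List I) (m : M) (s : Finset I)
    (hs : ∀ i u, w' = i :: u → i ∈ s) :
    dif g (single w' m) w = ∑ i ∈ s, g i ((single w' m : List I →₀ M) (i :: w)) := by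
  classical
  cases w' with
  | nil => simp
  | cons i u =>
    rw [dif_cons, Finset.sum_eq_single i]
    · by_cases h : u = w
      · subst h
        simp
      · rw [single_eq_of_ne (by exact fun h' => h h'.symm), single_eq_of_ne, map_zero]
        intro h'
        exact h (List.cons.inj h').2.symm
    · intro j _ hj
      rw [single_eq_of_ne, map_zero]
      intro h'
      exact hj (List.cons.inj h').1
    · intro h
      exact absurd (hs i u rfl) h

/-- the value of a differential -/
theorem dif_apply (g : I → M →ₗ[f] N) (z : List I →₀ M) (w : List I) (s : Finset I)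
    (hs : ∀ i, z (i :: w) ≠ 0 → i ∈ s) : dif g z w = ∑ i ∈ s, g i (z (i :: w)) := by
  classical
  let S : Finset I := s ∪ z.support.biUnion (fun w' => w'.toFinset)
  have h1 : dif g z w = ∑ i ∈ S, g i (z (i :: w)) := by
    have h2 : ∀ T : Finset (List I), T ⊆ z.support →
        dif g (∑ w' ∈ T, single w' (z w')) w =
          ∑ i ∈ S, g i ((∑ w' ∈ T, single w' (z w') : List I →₀ M) (i :: w)) := by
      intro T
      induction T using Finset.induction_on with
      | empty => intro _; simp
      | insert w' T hw' ih =>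
        intro hT
        rw [Finset.sum_insert hw', map_add, Finsupp.add_apply,
          ih ((Finset.subset_insert _ _).trans hT), dif_single_apply g w' w (z w') S ?_,
          ← Finset.sum_add_distrib]
        · refine Finset.sum_congr rfl fun i _ => ?_
          rw [Finsupp.add_apply, map_add]
        · rintro i u rfl
          refine Finset.mem_union_right _ (Finset.mem_biUnion.2 ⟨_, hT (Finset.mem_insert_self _ _), ?_⟩)
          simp
    have h3 : z = ∑ w' ∈ z.support, single w' (z w') := by
      conv_lhs => rw [← Finsupp.sum_single z]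
      rfl
    have h4 := h2 z.support subset_rfl
    rw [← h3] at h4
    exact h4
  rw [h1]
  symm
  apply Finset.sum_subset Finset.subset_union_left
  intro i _ hi
  by_contra h
  apply hi
  apply hs
  intro h'
  rw [h', map_zero] at h
  exact h rfl

theorem con_cons (y : I → f) (i : I) (w : List I) (m : M) :
    con y (single (i :: w) m) = single w (y i • m) := by
  simp [con]

theorem con_nil (y : I → f) (m : M) : con y (single ([] : List I) m) = 0 := by
  simp [con]

theorem con_mp (y : I → f) (φ : M →ₗ[f] N) (z : List I →₀ M) :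
    con y (mp φ z) = mp φ (con y z) := by
  rw [con, con, dif_mp, mp_dif]
  congr 1
  congr 1
  funext i
  ext m
  simp

section C

variable {Q : Type*} [AddCommGroup Q] [Module f Q] (P : I → I → Q)

theorem mem_C {z : List I →₀ M} : z ∈ C f P M ↔ ∀ (μ : Q →ₗ[f] f) (u : List I),
    quad (fun i j => μ (P i j) • (LinearMap.id : M →ₗ[f] M)) (tls f u z) = 0 := by
  simp [C]

theorem C_mp (φ : M →ₗ[f] N) {z : List I →₀ M} (hz : z ∈ C f P M) : mp φ z ∈ C f P N := by
  rw [mem_C] at hz ⊢
  intro μ u
  have h := congrArg (mp φ) (hz μ u)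
  rw [mp_quad, map_zero] at h
  rw [tls_mp, quad_mp, ← h]
  congr 2
  funext i j
  ext m
  simp

theorem C_tl (i : I) {z : List I →₀ M} (hz : z ∈ C f P M) : tl f i z ∈ C f P M := by
  rw [mem_C] at hz ⊢
  intro μ u
  exact hz μ (i :: u)

theorem C_iff {z : List I →₀ M} : z ∈ C f P M ↔
    (∀ μ : Q →ₗ[f] f, quad (fun i j => μ (P i j) • (LinearMap.id : M →ₗ[f] M)) z = 0) ∧
      ∀ i, tl f i z ∈ C f P M := by
  refine ⟨fun h => ⟨fun μ => (mem_C P).1 h μ [], fun i => C_tl P i h⟩, fun h => ?_⟩
  rw [mem_C]
  intro μ u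
  cases u with
  | nil => exact h.1 μ
  | cons i u => exact (mem_C P).1 (h.2 i) μ u

theorem C_nil (m : M) : single [] m ∈ C f P M := by
  rw [mem_C]
  intro μ u
  cases u with
  | nil => simp [tls]
  | cons i u =>
    have : tl f i (single ([] : List I) m) = 0 := by
      ext w
      simp [single_apply]
    simp [tls, this]

end C

end

end Pool.Agent.KRat
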