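import Pool.Agent.KRat.Defs2

/-!
Row LINSEC: linear choices.
-/

set_option autoImplicit false

namespace Pool.Agent.KRat

open Finsupp Pool.Agent.KMil

universe u

/-- the same for a sequence of degrees: one linear map that works in all degrees of an independent
family of subspaces -/
theorem exists_lin_graded {f : Type} [Field f] {X Y : Type*} [AddCommGroup X] [Module f X]
    [AddCommGroup Y] [Module f Y] (φ : X →ₗ[f] Y) (T : Submodule f X) (S : Submodule f Y)
    (h : ∀ y ∈ S, ∃ x ∈ T, φ x = y) :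
    ∃ τ : Y →ₗ[f] X, (∀ y, τ y ∈ T) ∧ ∀ y ∈ S, φ (τ y) = y := by
  have hsurj : LinearMap.range (φ.submoduleMap T) = ⊤ :=
    LinearMap.range_eq_top.2 (φ.submoduleMap_surjective T)
  obtain ⟨σ, hσ⟩ := LinearMap.exists_rightInverse_of_surjective (φ.submoduleMap T) hsurj
  obtain ⟨g, hg⟩ := LinearMap.exists_extend σ
  refine ⟨T.subtype ∘ₗ g, fun y => (g y).2, fun y hy => ?_⟩
  obtain ⟨x, hx, hxy⟩ := h y hy
  have hyT : y ∈ T.map φ := ⟨x, hx, hxy⟩
  have h1 : g y = σ ⟨y, hyT⟩ := by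
    have h2 := LinearMap.congr_fun hg ⟨y, hyT⟩
    exact h2
  have h3 := LinearMap.congr_fun hσ ⟨y, hyT⟩
  have h4 : ((φ.submoduleMap T (σ ⟨y, hyT⟩) : T.map φ) : Y) = y := congrArg Subtype.val h3
  show φ ((g y : T) : X) = y
  rw [h1]
  exact h4

/-- a linear choice of preimages: if every `x ∈ S` has a preimage in `T` under `φ`, these can be
chosen by a linear map defined on the whole space -/
theorem exists_lin {f : Type} [Field f] {X Y : Type*} [AddCommGroup X] [Module f X]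
    [AddCommGroup Y] [Module f Y] (φ : X →ₗ[f] Y) (T : Submodule f X) (S : Submodule f Y)
    (h : ∀ y ∈ S, ∃ x ∈ T, φ x = y) :
    ∃ τ : Y →ₗ[f] X, ∀ y ∈ S, τ y ∈ T ∧ φ (τ y) = y := by
  obtain ⟨τ, h1, h2⟩ := exists_lin_graded φ T S h
  exact ⟨τ, fun y hy => ⟨h1 y, h2 y hy⟩⟩

end Pool.Agent.KRat
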