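import Pool.Agent.KRat.Quad

/-!
Row QUADB: squares and signs of the differentials.
-/

set_option autoImplicit false

namespace Pool.Agent.KRat

open Finsupp Pool.Agent.KMil

universe u

section

variable {f : Type} [Field f] {I : Type*} {A : Type*} [Ring A] [Algebra f A] (v : I → A)

theorem dR_dR {z : List I →₀ A} (hz : z ∈ C f (pr v) A) : dR f v (dR f v z) = 0 := by
  have h := quad_eq_zero (pr v) ((LinearMap.mul f A).flip) hz
  unfold dR
  rw [dif_dif, ← h]
  congr 2
  funext i j
  ext m
  show m * v i * v j = m * (v i * v j)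
  rw [mul_assoc]

theorem dL_dL (h2 : ∀ i j, v i * v j + v j * v i = 0) {z : List I →₀ A}
    (hz : z ∈ C f (pr v) A) : dL f v (dL f v z) = 0 := by
  have h := quad_eq_zero (pr v) (-(LinearMap.mul f A)) hz
  unfold dL
  rw [dif_dif, ← h]
  congr 2
  funext i j
  ext m
  show v j * (v i * m) = -((v i * v j) * m)
  have h3 : v j * v i = -(v i * v j) := by
    rw [eq_neg_iff_add_eq_zero, add_comm]
    exact h2 i j
  rw [← mul_assoc, h3, neg_mul]

/-- `a v = (-1)^n v a` for `a` of degree `n` -/
theorem comm_pow {V : Submodule f A} (hV : Anti (V : Set A)) (n : ℕ) {a : A} (ha : a ∈ V ^ n)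
    {x : A} (hx : x ∈ V) : a * x = (-1 : A) ^ n * (x * a) := by
  induction n generalizing a with
  | zero =>
    rw [pow_zero, Submodule.mem_one] at ha
    obtain ⟨c, rfl⟩ := ha
    rw [pow_zero, one_mul]
    exact Algebra.commutes c x
  | succ n ih =>
    rw [pow_succ] at ha
    refine Submodule.mul_induction_on ha ?_ ?_
    · intro b hb y hy
      have h1 : y * x = -(x * y) := by
        rw [eq_neg_iff_add_eq_zero]
        exact hV.2 y hy x hx
      have h2 := ih hb
      calc b * y * x = b * (y * x) := mul_assoc _ _ _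
        _ = -((b * x) * y) := by rw [h1, mul_neg, mul_assoc]
        _ = -(((-1 : A) ^ n * (x * b)) * y) := by rw [h2]
        _ = (-1 : A) ^ (n + 1) * (x * (b * y)) := by
          rw [pow_succ, mul_assoc, mul_assoc, mul_assoc, neg_one_mul, mul_neg]
    · intro b c hb hc
      rw [add_mul, hb, hc, mul_add, mul_add]

/-- left and right differentials agree up to sign -/
theorem dR_eq_dL {V : Submodule f A} (hV : Anti (V : Set A)) (hv : ∀ i, v i ∈ V) (n : ℕ)
    {z : List I →₀ A} (hz : ∀ w, z w ∈ V ^ n) : dR f v z = ((-1 : f) ^ n) • dL f v z := by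
  classical
  ext w
  let s : Finset I := z.support.biUnion (fun w' => w'.toFinset)
  have hs : ∀ i, z (i :: w) ≠ 0 → i ∈ s := by
    intro i hi
    exact Finset.mem_biUnion.2 ⟨i :: w, Finsupp.mem_support_iff.2 hi, by simp⟩
  rw [Finsupp.smul_apply]
  unfold dR dL
  rw [dif_apply _ z w s hs, dif_apply _ z w s hs, Finset.smul_sum]
  refine Finset.sum_congr rfl fun i _ => ?_
  show z (i :: w) * v i = ((-1 : f) ^ n) • (v i * z (i :: w))
  rw [comm_pow hV n (hz _) (hv i), Algebra.smul_def, map_pow, map_neg, map_one]

/-- anticommutation passes to the span -/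
theorem anti_span (S : Set A) (h : Anti S) : Anti ((Submodule.span f S : Submodule f A) : Set A) := by
  have h1 : ∀ x ∈ Submodule.span f S, ∀ y ∈ Submodule.span f S, x * y + y * x = 0 := by
    intro x hx y hy
    induction hx using Submodule.span_induction with
    | mem x hx =>
      induction hy using Submodule.span_induction with
      | mem y hy => exact h.2 x hx y hy
      | zero => simp
      | add a b _ _ ha hb =>
        have : x * (a + b) + (a + b) * x = (x * a + a * x) + (x * b + b * x) := by
          rw [mul_add, add_mul]; abel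
        rw [this, ha, hb, add_zero]
      | smul c a _ ha =>
        rw [mul_smul_comm, smul_mul_assoc, ← smul_add, ha, smul_zero]
    | zero => simp
    | add a b _ _ ha hb =>
      have : (a + b) * y + y * (a + b) = (a * y + y * a) + (b * y + y * b) := by
        rw [mul_add, add_mul]; abel
      rw [this, ha, hb, add_zero]
    | smul c a _ ha =>
      rw [mul_smul_comm, smul_mul_assoc, ← smul_add, ha, smul_zero]
  refine ⟨fun x hx => ?_, h1⟩
  replace hx : x ∈ Submodule.span f S := hx
  induction hx using Submodule.span_induction with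
  | mem x hx => exact h.1 x hx
  | zero => simp
  | add a b ha' hb' ha hb =>
    have : (a + b) * (a + b) = a * a + (a * b + b * a) + b * b := by
      rw [mul_add, add_mul, add_mul]; abel
    rw [this, ha, hb, h1 a ha' b hb', add_zero, add_zero]
  | smul c a _ ha =>
    rw [mul_smul_comm, smul_mul_assoc, ha, smul_zero, smul_zero]

/-- the values of the differentials -/
theorem dR_mem {V : Submodule f A} (hv : ∀ i, v i ∈ V) (n : ℕ)
    {z : List I →₀ A} (hz : ∀ w, z w ∈ V ^ n) (w : List I) : dR f v z w ∈ V ^ (n + 1) := by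
  classical
  let s : Finset I := z.support.biUnion (fun w' => w'.toFinset)
  have hs : ∀ i, z (i :: w) ≠ 0 → i ∈ s := by
    intro i hi
    exact Finset.mem_biUnion.2 ⟨i :: w, Finsupp.mem_support_iff.2 hi, by simp⟩
  unfold dR
  rw [dif_apply _ z w s hs, pow_succ]
  refine Submodule.sum_mem _ fun i _ => ?_
  exact Submodule.mul_mem_mul (hz _) (hv i)

theorem dL_mem {V : Submodule f A} (hv : ∀ i, v i ∈ V) (n : ℕ)
    {z : List I →₀ A} (hz : ∀ w, z w ∈ V ^ n) (w : List I) : dL f v z w ∈ V ^ (n + 1) := by
  classical
  let s : Finset I := z.support.biUnion (fun w' => w'.toFinset)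
  have hs : ∀ i, z (i :: w) ≠ 0 → i ∈ s := by
    intro i hi
    exact Finset.mem_biUnion.2 ⟨i :: w, Finsupp.mem_support_iff.2 hi, by simp⟩
  unfold dL
  rw [dif_apply _ z w s hs, pow_succ']
  refine Submodule.sum_mem _ fun i _ => ?_
  exact Submodule.mul_mem_mul (hv i) (hz _)

end

end Pool.Agent.KRat
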