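import Pool.Agent.KRat.ExtEx
import Pool.Agent.KRat.QuadB
import Pool.Agent.KRat.LinSec

/-!
Row BASE: the exterior case (bottom of the induction).
-/

set_option autoImplicit false

namespace Pool.Agent.KRat

open Finsupp Pool.Agent.KMil

universe u

section

variable {f : Type} [Field f] {I : Type*} {A : Type*} [Ring A] [Algebra f A] (v : I → A)
  {W : Type*} [AddCommGroup W] [Module f W]

private theorem base_dE (ev : A →ₐ[f] ExteriorAlgebra f W) (ω : I → W)
    (hev : ∀ i, ev (v i) = ExteriorAlgebra.ι f (ω i)) (z : List I →₀ A) :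
    dE ω (mp ev.toLinearMap z) = mp ev.toLinearMap (dL f v z) := by
  unfold dE dL
  rw [dif_mp, mp_dif]
  congr 2
  funext i
  ext m
  show ExteriorAlgebra.ι f (ω i) * ev m = ev (v i * m)
  rw [map_mul, hev]

private theorem base_map (ev : A →ₐ[f] ExteriorAlgebra f W) (ω : I → W)
    (hev : ∀ i, ev (v i) = ExteriorAlgebra.ι f (ω i))
    (hω : ∀ w : W, ∃ x : I →₀ f, x.sum (fun i c => c • ω i) = w) (n : ℕ) :
    (sp f v ^ n).map ev.toLinearMap = lam f W n := by
  unfold lam
  rw [Submodule.map_pow]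
  congr 1
  apply le_antisymm
  · rw [Submodule.map_le_iff_le_comap, sp, Submodule.span_le]
    rintro _ ⟨i, rfl⟩
    exact ⟨ω i, (hev i).symm⟩
  · rintro _ ⟨w, rfl⟩
    obtain ⟨x, rfl⟩ := hω w
    unfold Finsupp.sum
    rw [map_sum]
    refine Submodule.sum_mem _ fun i _ => ?_
    rw [map_smul]
    exact Submodule.smul_mem _ _ ⟨v i, Submodule.subset_span ⟨i, rfl⟩, hev i⟩

end

/-- if `v` spans a space that generates an exterior algebra, its Koszul complex is exact -/
theorem base {f : Type} [Field f] {I : Type*} {A : Type*} [Ring A] [Algebra f A] (v : I → A)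
    {W : Type*} [AddCommGroup W] [Module f W] (hA : Anti ((sp f v : Submodule f A) : Set A))
    (ev : A →ₐ[f] ExteriorAlgebra f W) (ω : I → W) (hev : ∀ i, ev (v i) = ExteriorAlgebra.ι f (ω i))
    (hω : ∀ w : W, ∃ x : I →₀ f, x.sum (fun i c => c • ω i) = w)
    (hinj : ∀ n, ∀ a ∈ sp f v ^ n, ev a = 0 → a = 0) : Kos f v := by
  intro j z hz hn hd
  have hvm : ∀ i, v i ∈ sp f v := fun i => Submodule.subset_span ⟨i, rfl⟩
  have hsq : ∀ n : ℕ, ((-1 : f) ^ n) * ((-1 : f) ^ n) = 1 := by
    intro n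
    rw [← mul_pow, neg_one_mul, neg_neg, one_pow]
  have hdL : dL f v z = 0 := by
    have h1 := dR_eq_dL v hA hvm (j + 1) hn
    rw [hd] at h1
    have h2 := congrArg (fun t => ((-1 : f) ^ (j + 1)) • t) h1.symm
    simpa only [smul_smul, hsq, one_smul, smul_zero] using h2
  have hmem : ∀ w, mp ev.toLinearMap z w ∈ lam f W (j + 1) := by
    intro w
    rw [mp_apply, ← base_map v ev ω hev hω]
    exact Submodule.mem_map_of_mem (hn w)
  obtain ⟨y, hyC, hyn, hyd⟩ := ext_exact ω hω (pr v) ev.toLinearMap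
    (fun i j => by
      show ev (v i * v j) = _
      rw [map_mul, hev, hev])
    (fun i => hA.1 _ (hvm i)) (fun i j => hA.2 _ (hvm i) _ (hvm j)) j
    (mp ev.toLinearMap z) (C_mp (pr v) _ hz) hmem
    (by rw [base_dE v ev ω hev, hdL, map_zero])
  obtain ⟨τ, hτ1, hτ2⟩ := exists_lin_graded ev.toLinearMap (sp f v ^ j) (lam f W j)
    (fun b hb => by
      rw [← base_map v ev ω hev hω] at hb
      obtain ⟨a, ha, hab⟩ := hb
      exact ⟨a, ha, hab⟩)
  have hy' : ∀ w, mp τ y w ∈ sp f v ^ j := fun w => by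
    rw [mp_apply]
    exact hτ1 _
  have hback : mp ev.toLinearMap (mp τ y) = y := by
    ext w
    rw [mp_apply, mp_apply]
    exact hτ2 _ (hyn w)
  have hdy : dL f v (mp τ y) = z := by
    ext w
    have h1 : dL f v (mp τ y) w - z w ∈ sp f v ^ (j + 1) :=
      Submodule.sub_mem _ (dL_mem v hvm j hy' w) (hn w)
    have h2 : ev (dL f v (mp τ y) w - z w) = 0 := by
      have h3 : mp ev.toLinearMap (dL f v (mp τ y)) = mp ev.toLinearMap z := by
        rw [← base_dE v ev ω hev, hback, hyd]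
      have h4 := congrArg (fun t => t w) h3
      simp only [mp_apply] at h4
      rw [map_sub, sub_eq_zero]
      exact h4
    exact sub_eq_zero.1 (hinj _ _ h1 h2)
  refine ⟨((-1 : f) ^ j) • mp τ y, Submodule.smul_mem _ _ (C_mp (pr v) τ hyC), fun w => ?_, ?_⟩
  · rw [Finsupp.smul_apply]
    exact Submodule.smul_mem _ _ (hy' w)
  · rw [map_smul, dR_eq_dL v hA hvm j hy', smul_smul, hsq, one_smul, hdy]

end Pool.Agent.KRat
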