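import Pool.Agent.KRat.Defs2

/-!
Row CLS: units modulo p-th powers.
-/

set_option autoImplicit false

namespace Pool.Agent.KRat

open Finsupp Pool.Agent.KMil Polynomial

universe u

variable (p : ℕ) {E : Type*} [Field E]

theorem cls_mul (a b : Eˣ) : cls p (a * b) = cls p a + cls p b := rfl

theorem cls_one : cls p (1 : Eˣ) = 0 := rfl

theorem cls_inv (a : Eˣ) : cls p a⁻¹ = -cls p a := rfl

theorem cls_surj (x : PW p E) : ∃ a : Eˣ, cls p a = x := by
  obtain ⟨z, hz⟩ := QuotientAddGroup.mk_surjective x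
  exact ⟨z.toMul, hz⟩

/-- `cls` kills exactly the `p`-th powers -/
theorem cls_eq_zero (a : Eˣ) : cls p a = 0 ↔ ∃ c : Eˣ, a = c ^ p := by
  unfold cls
  rw [QuotientAddGroup.eq_zero_iff]
  constructor
  · rintro ⟨z, hz⟩
    exact ⟨z.toMul, hz.symm⟩
  · rintro ⟨c, hc⟩
    exact ⟨Additive.ofMul c, by rw [hc]; rfl⟩

private theorem cls_pow (a : Eˣ) (n : ℕ) : cls p (a ^ n) = n • cls p a := by
  induction n with
  | zero => rw [pow_zero, zero_nsmul]; rfl
  | succ n ih => rw [pow_succ, cls_mul, ih, succ_nsmul]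

theorem cls_neg_one (h : ∃ c : E, c ^ p = -1) : cls p (-1 : Eˣ) = 0 := by
  obtain ⟨c, hc⟩ := h
  rw [cls_eq_zero]
  rcases Nat.eq_zero_or_pos p with hp | hp
  · subst hp
    refine ⟨1, ?_⟩
    rw [pow_zero] at hc
    apply Units.ext
    rw [pow_zero, Units.val_neg, Units.val_one]
    exact hc.symm
  · have hc0 : c ≠ 0 := by
      intro h0
      rw [h0, zero_pow hp.ne'] at hc
      exact (neg_ne_zero.2 (one_ne_zero (α := E))) hc.symm
    refine ⟨Units.mk0 c hc0, ?_⟩
    apply Units.ext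
    rw [Units.val_neg, Units.val_one, Units.val_pow_eq_pow_val, Units.val_mk0, hc]

/-- additive maps that are defined on units extend to the quotient -/
theorem exists_lift {X : Type*} [AddCommGroup X] [Module (ZMod p) X] (φ : Eˣ → X)
    (h : ∀ a b, φ (a * b) = φ a + φ b) :
    ∃ ψ : PW p E →ₗ[ZMod p] X, ∀ a, ψ (cls p a) = φ a := by
  let φ' : Additive Eˣ →+ X := AddMonoidHom.mk' (fun z => φ z.toMul) (fun a b => h _ _)
  have hker : pPow p E ≤ φ'.ker := by
    rintro x ⟨z, rfl⟩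
    rw [AddMonoidHom.mem_ker]
    have h1 : φ' (p • z) = p • φ' z := map_nsmul φ' p z
    have h2 : (p : ℕ) • φ' z = ((p : ℕ) : ZMod p) • φ' z := (Nat.cast_smul_eq_nsmul (ZMod p) p _).symm
    have h3 : φ' (p • z) = 0 := by
      rw [h1, h2, ZMod.natCast_self, zero_smul]
    exact h3
  let ψ0 : PW p E →+ X := QuotientAddGroup.lift (pPow p E) φ' hker
  refine ⟨ψ0.toZModLinearMap p, fun a => rfl⟩

/-- the Steinberg relation in the exterior algebra -/
theorem wedge_zero [Fact p.Prime] (h : ExtF p E) {X : Type*} [AddCommGroup X] [Module (ZMod p) X]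
    (ψ : PW p E →ₗ[ZMod p] X) (a b : Eˣ) (hab : (a : E) + (b : E) = 1) :
    ExteriorAlgebra.ι (ZMod p) (ψ (cls p a)) * ExteriorAlgebra.ι (ZMod p) (ψ (cls p b)) = 0 := by
  have hb : (b : E) = 1 - (a : E) := by rw [← hab]; ring
  have ha1 : (a : E) ≠ 1 := by
    intro h1
    rw [h1, sub_self] at hb
    exact b.ne_zero hb
  obtain ⟨i, j, hij, c, hc⟩ := h (a : E) a.ne_zero ha1
  have hpp : p.Prime := Fact.out
  have hc0 : c ≠ 0 := by
    intro h0
    rw [h0, zero_pow hpp.ne_zero, ← hb] at hc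
    exact (mul_ne_zero (pow_ne_zero i a.ne_zero) (pow_ne_zero j b.ne_zero)) hc
  have hu : a ^ i * b ^ j = Units.mk0 c hc0 ^ p := by
    apply Units.ext
    rw [Units.val_mul, Units.val_pow_eq_pow_val, Units.val_pow_eq_pow_val,
      Units.val_pow_eq_pow_val, Units.val_mk0, hb, hc]
  have h1 : cls p (a ^ i * b ^ j) = 0 := (cls_eq_zero p _).2 ⟨_, hu⟩
  rw [cls_mul, cls_pow, cls_pow] at h1
  set x := ψ (cls p a) with hx
  set y := ψ (cls p b) with hy
  have h2 : (i : ZMod p) • x + (j : ZMod p) • y = 0 := by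
    have h3 := congrArg ψ h1
    rw [map_add, map_zero, map_nsmul, map_nsmul] at h3
    rw [Nat.cast_smul_eq_nsmul, Nat.cast_smul_eq_nsmul]
    exact h3
  by_cases hi : (i : ZMod p) = 0
  · have hj : (j : ZMod p) ≠ 0 := by
      intro hj
      exact hij ⟨(ZMod.natCast_eq_zero_iff i p).1 hi, (ZMod.natCast_eq_zero_iff j p).1 hj⟩
    rw [hi, zero_smul, zero_add] at h2
    have hy0 : y = 0 := by
      rcases smul_eq_zero.1 h2 with h | h
      · exact absurd h hj
      · exact h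
    rw [hy0, map_zero, mul_zero]
  · have hx0 : x = (-((i : ZMod p)⁻¹ * j)) • y := by
      have h3 : (i : ZMod p) • x = -((j : ZMod p) • y) := eq_neg_of_add_eq_zero_left h2
      calc x = ((i : ZMod p)⁻¹ * i) • x := by rw [inv_mul_cancel₀ hi, one_smul]
        _ = (i : ZMod p)⁻¹ • ((i : ZMod p) • x) := by rw [mul_smul]
        _ = (i : ZMod p)⁻¹ • (-((j : ZMod p) • y)) := by rw [h3]
        _ = (-((i : ZMod p)⁻¹ * j)) • y := by rw [smul_neg, ← mul_smul, neg_smul]
    rw [hx0, map_smul, smul_mul_assoc, ExteriorAlgebra.ι_sq_zero, smul_zero]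

end Pool.Agent.KRat
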