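import Pool.Agent.KRat.ExtEx
import Pool.Agent.KRat.QuadB
import Pool.Agent.KRat.LinSec

/-!
Row COL: the columns are exact in degrees at least two.
-/

set_option autoImplicit false

namespace Pool.Agent.KRat

open Finsupp Pool.Agent.KMil

universe u

section

variable {f : Type} [Field f] {A : Type u} [Ring A] [Algebra f A] {V V' : Submodule f A}
  {J : Type u} {W : J → Type u} [∀ π, AddCommGroup (W π)] [∀ π, Module f (W π)]

/-- the residues vanish on the smaller algebra -/
private theorem Col_del_pow (R : Res V V' J W) (π : J) (n : ℕ) :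
    ∀ a ∈ V ^ n, R.del π a = 0 := by
  induction n with
  | zero =>
    intro a ha
    rw [pow_zero, Submodule.mem_one] at ha
    obtain ⟨c, rfl⟩ := ha
    rw [Algebra.algebraMap_eq_smul_one, map_smul, R.del_one, smul_zero]
  | succ n ih =>
    intro a ha
    rw [pow_succ'] at ha
    refine Submodule.mul_induction_on ha ?_ ?_
    · intro x hx y hy
      rw [R.del_mul π x hx, ih y hy, mul_zero, neg_zero]
    · intro x y hx hy
      rw [map_add, hx, hy, add_zero]

/-- the residue of a decomposed element -/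
private theorem Col_del_dec (R : Res V V' J W) (π : J) (n : ℕ) (x0 : A) (hx0 : x0 ∈ V ^ (n + 1))
    (c : J →₀ A) (hc : ∀ ρ, c ρ ∈ V ^ n) :
    R.del π (x0 + c.sum (fun ρ a => R.e ρ * a)) = R.ev π (c π) := by
  classical
  rw [map_add, Col_del_pow R π _ x0 hx0, zero_add, Finsupp.sum, map_sum]
  by_cases h : π ∈ c.support
  · rw [Finset.sum_eq_single π]
    · exact R.del_e π n _ (hc π)
    · intro ρ _ hρ
      exact R.del_e_ne ρ π hρ n _ (hc ρ)
    · intro h'
      exact absurd h h'
  · have h0 : c π = 0 := by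
      by_contra h'
      exact h (Finsupp.mem_support_iff.2 h')
    rw [h0, map_zero]
    refine Finset.sum_eq_zero fun ρ hρ => ?_
    refine R.del_e_ne ρ π ?_ n _ (hc ρ)
    rintro rfl
    exact h hρ

/-- specialisation maps degree `n` to degree `n` -/
private theorem Col_ev_pow (R : Res V V' J W) (π : J) (n : ℕ) :
    ∀ a ∈ V ^ n, R.ev π a ∈ lam f (W π) n := by
  have h1 : Submodule.map (R.ev π).toLinearMap V ≤
      LinearMap.range (ExteriorAlgebra.ι f : W π →ₗ[f] ExteriorAlgebra f (W π)) := by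
    rintro _ ⟨a, ha, rfl⟩
    obtain ⟨w, hw⟩ := R.ev_mem π a ha
    exact ⟨w, hw.symm⟩
  intro a ha
  have h2 : R.ev π a ∈ Submodule.map (R.ev π).toLinearMap (V ^ n) := ⟨a, ha, rfl⟩
  rw [Submodule.map_pow] at h2
  exact pow_le_pow_left' h1 n h2

/-- specialisation is surjective in each degree -/
private theorem Col_ev_surj (R : Res V V' J W) (π : J) (n : ℕ) :
    ∀ y ∈ lam f (W π) n, ∃ a ∈ V ^ n, (R.ev π).toLinearMap a = y := by
  have h1 : LinearMap.range (ExteriorAlgebra.ι f : W π →ₗ[f] ExteriorAlgebra f (W π)) ≤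
      Submodule.map (R.ev π).toLinearMap V := by
    rintro _ ⟨w, rfl⟩
    obtain ⟨a, ha, hw⟩ := R.ev_surj π w
    exact ⟨a, ha, hw⟩
  intro y hy
  have h2 : y ∈ (Submodule.map (R.ev π).toLinearMap V) ^ n := pow_le_pow_left' h1 n hy
  rw [← Submodule.map_pow] at h2
  obtain ⟨a, ha, h⟩ := h2
  exact ⟨a, ha, h⟩

end

theorem columns {f : Type} [Field f] {I : Type*} {A : Type u} [Ring A] [Algebra f A] (v : I → A)
    (V' : Submodule f A) {J : Type u} {W : J → Type u} [∀ π, AddCommGroup (W π)]
    [∀ π, Module f (W π)] (R : Res (sp f v) V' J W) (hA : Anti (V' : Set A))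
    (hK : Kos f v) (j : ℕ) : ColAt f v V' j := by
  classical
  intro x hx hxv hdx
  have hvV : ∀ i, v i ∈ sp f v := fun i => Submodule.subset_span ⟨i, rfl⟩
  have hvV' : ∀ i, v i ∈ V' := fun i => R.le (hvV i)
  have hAV : Anti (sp f v : Set A) :=
    ⟨fun a ha => hA.1 a (R.le ha), fun a ha b hb => hA.2 a (R.le ha) b (R.le hb)⟩
  -- decompositions of the values of `x`
  choose x0 hx0 c hc hxc using fun w => R.dec (j + 1) (x w) (hxv w)
  let T : Finset J := x.support.biUnion (fun w => (c w).support)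
  have hT : ∀ π, π ∉ T → ∀ w, R.del π (x w) = 0 := by
    intro π hπ w
    by_cases hw : x w = 0
    · rw [hw, map_zero]
    · rw [hxc w, Col_del_dec R π (j + 1) _ (hx0 w) _ (hc w)]
      have : c w π = 0 := by
        by_contra h
        exact hπ (Finset.mem_biUnion.2 ⟨w, Finsupp.mem_support_iff.2 hw,
          Finsupp.mem_support_iff.2 h⟩)
      rw [this, map_zero]
  -- the specialised letters
  choose ω hω using fun (π : J) (i : I) => R.ev_mem π (v i) (hvV i)
  have key : ∀ π, ∃ y ∈ C f (pr v) A, (∀ w, y w ∈ sp f v ^ j) ∧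
      mp (R.ev π).toLinearMap (dL f v y) = mp (R.del π) x := by
    intro π
    have e1 : mp (R.del π) x ∈ C f (pr v) (ExteriorAlgebra f (W π)) := C_mp _ _ hx
    have e2 : ∀ w, mp (R.del π) x w ∈ lam f (W π) (j + 1) := by
      intro w
      rw [mp_apply, hxc w, Col_del_dec R π (j + 1) _ (hx0 w) _ (hc w)]
      exact Col_ev_pow R π _ _ (hc w π)
    have e3 : dE (ω π) (mp (R.del π) x) = 0 := by
      have h1 : dE (ω π) (mp (R.del π) x) = -mp (R.del π) (dL f v x) := by
        unfold dE dL
        rw [dif_mp, mp_dif]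
        have h2 : (fun i => LinearMap.mulLeft f (ExteriorAlgebra.ι f (ω π i)) ∘ₗ R.del π) =
            (fun i => -(R.del π ∘ₗ LinearMap.mulLeft f (v i))) := by
          funext i
          ext a
          show ExteriorAlgebra.ι f (ω π i) * R.del π a = -(R.del π (v i * a))
          rw [R.del_mul π _ (hvV i), neg_neg, hω π i]
        rw [h2]
        have h3 : (dif (fun i => -(R.del π ∘ₗ LinearMap.mulLeft f (v i))) :
            (List I →₀ A) →ₗ[f] (List I →₀ ExteriorAlgebra f (W π))) =
            -dif (fun i => (R.del π ∘ₗ LinearMap.mulLeft f (v i))) := by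
          apply lin_ext
          intro w m
          cases w <;> simp
        rw [h3]
        rfl
      rw [h1, hdx, map_zero, neg_zero]
    have hωs : ∀ w : W π, ∃ x : I →₀ f, x.sum (fun i c => c • ω π i) = w := by
      intro w
      obtain ⟨a, ha, hw⟩ := R.ev_surj π w
      obtain ⟨y, rfl⟩ := (Finsupp.mem_span_range_iff_exists_finsupp).1 ha
      refine ⟨y, ?_⟩
      rw [← ExteriorAlgebra.ι_inj f, ← hw, Finsupp.sum, Finsupp.sum, map_sum, map_sum]
      refine Finset.sum_congr rfl fun i _ => ?_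
      rw [map_smul, map_smul, hω π i]
    obtain ⟨y, hy, hyv, hdy⟩ := ext_exact (ω π) hωs (pr v) (R.ev π).toLinearMap
      (fun i k => by
        show R.ev π (v i * v k) = _
        rw [map_mul, hω π i, hω π k])
      (fun i => hAV.1 _ (hvV i)) (fun i k => hAV.2 _ (hvV i) _ (hvV k)) j (mp (R.del π) x)
      e1 e2 e3
    obtain ⟨τ, hτ1, hτ2⟩ := exists_lin_graded (R.ev π).toLinearMap (sp f v ^ j)
      (lam f (W π) j) (Col_ev_surj R π j)
    refine ⟨mp τ y, C_mp _ _ hy, fun w => ?_, ?_⟩
    · rw [mp_apply]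
      exact hτ1 _
    · rw [← hdy]
      have h1 : mp (R.ev π).toLinearMap (mp τ y) = y := by
        ext w
        rw [mp_apply, mp_apply]
        exact hτ2 _ (hyv w)
      have h2 : ∀ z : List I →₀ A, mp (R.ev π).toLinearMap (dL f v z) =
          dE (ω π) (mp (R.ev π).toLinearMap z) := by
        intro z
        unfold dL dE
        rw [mp_dif, dif_mp]
        have h3 : (fun i => (R.ev π).toLinearMap ∘ₗ LinearMap.mulLeft f (v i)) =
            (fun i => LinearMap.mulLeft f (ExteriorAlgebra.ι f (ω π i)) ∘ₗ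
              (R.ev π).toLinearMap) := by
          funext i
          ext a
          show R.ev π (v i * a) = ExteriorAlgebra.ι f (ω π i) * R.ev π a
          rw [map_mul, hω π i]
        rw [h3]
      rw [h2, h1]
  choose y hy hyv hyd using key
  let u : List I →₀ A := -∑ π ∈ T, mp (LinearMap.mulLeft f (R.e π)) (y π)
  have hu : u ∈ C f (pr v) A :=
    Submodule.neg_mem _ (Submodule.sum_mem _ fun π _ => C_mp _ _ (hy π))
  have hVV' : ∀ n, sp f v ^ n ≤ V' ^ n := fun n => pow_le_pow_left' R.le n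
  have huv : ∀ w, u w ∈ V' ^ (j + 1) := by
    intro w
    show (-∑ π ∈ T, mp (LinearMap.mulLeft f (R.e π)) (y π) : List I →₀ A) w ∈ _
    rw [Finsupp.neg_apply, Finsupp.finsetSum_apply]
    refine Submodule.neg_mem _ (Submodule.sum_mem _ fun π _ => ?_)
    rw [mp_apply, pow_succ']
    exact Submodule.mul_mem_mul (R.e_mem π) (hVV' j (hyv π w))
  have hdu : dL f v u = ∑ π ∈ T, mp (LinearMap.mulLeft f (R.e π)) (dL f v (y π)) := by
    show dL f v (-∑ π ∈ T, mp (LinearMap.mulLeft f (R.e π)) (y π)) = _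
    rw [map_neg, map_sum, ← Finset.sum_neg_distrib]
    refine Finset.sum_congr rfl fun π _ => ?_
    unfold dL
    rw [dif_mp, mp_dif]
    have h2 : (fun i => LinearMap.mulLeft f (v i) ∘ₗ LinearMap.mulLeft f (R.e π)) =
        (fun i => -(LinearMap.mulLeft f (R.e π) ∘ₗ LinearMap.mulLeft f (v i))) := by
      funext i
      ext a
      show v i * (R.e π * a) = -(R.e π * (v i * a))
      rw [← mul_assoc, ← mul_assoc, ← neg_mul]
      congr 1
      rw [eq_neg_iff_add_eq_zero]
      exact hA.2 _ (hvV' i) _ (R.e_mem π)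
    rw [h2]
    have h3 : (dif (fun i => -(LinearMap.mulLeft f (R.e π) ∘ₗ LinearMap.mulLeft f (v i))) :
        (List I →₀ A) →ₗ[f] (List I →₀ A)) =
        -dif (fun i => (LinearMap.mulLeft f (R.e π) ∘ₗ LinearMap.mulLeft f (v i))) := by
      apply lin_ext
      intro w m
      cases w <;> simp
    rw [h3, LinearMap.neg_apply, neg_neg]
  have hdel : ∀ π w, R.del π ((x - dL f v u) w) = 0 := by
    intro π w
    rw [Finsupp.sub_apply, map_sub, hdu, Finsupp.finsetSum_apply, map_sum]
    have h1 : ∀ ρ, dL f v (y ρ) w ∈ sp f v ^ (j + 1) := fun ρ => dL_mem v hvV j (hyv ρ) w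
    by_cases hπ : π ∈ T
    · rw [Finset.sum_eq_single π]
      · rw [mp_apply]
        show _ - R.del π (R.e π * _) = 0
        rw [R.del_e π (j + 1) _ (h1 π)]
        have h2 := DFunLike.congr_fun (hyd π) w
        rw [mp_apply, mp_apply] at h2
        rw [← h2]
        exact sub_self _
      · intro ρ _ hρ
        rw [mp_apply]
        exact R.del_e_ne ρ π hρ (j + 1) _ (h1 ρ)
      · intro h'
        exact absurd hπ h'
    · rw [hT π hπ w, zero_sub, neg_eq_zero]
      refine Finset.sum_eq_zero fun ρ hρ => ?_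
      rw [mp_apply]
      refine R.del_e_ne ρ π ?_ (j + 1) _ (h1 ρ)
      rintro rfl
      exact hπ hρ
  have hx'V' : ∀ w, (x - dL f v u) w ∈ V' ^ (j + 2) := by
    intro w
    rw [Finsupp.sub_apply]
    exact Submodule.sub_mem _ (hxv w) (dL_mem v hvV' (j + 1) huv w)
  have hx'V : ∀ w, (x - dL f v u) w ∈ sp f v ^ (j + 2) := by
    intro w
    obtain ⟨a0, ha0, d, hd, hxd⟩ := R.dec (j + 1) _ (hx'V' w)
    rw [hxd]
    refine Submodule.add_mem _ ha0 (Submodule.sum_mem _ fun π _ => ?_)
    refine R.ker π (j + 1) _ (hd π) ?_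
    rw [← Col_del_dec R π (j + 1) a0 ha0 d hd, ← hxd]
    exact hdel π w
  have hx'C : x - dL f v u ∈ C f (pr v) A := Submodule.sub_mem _ hx (C_dif _ _ hu)
  have h2 : ∀ i k, v i * v k + v k * v i = 0 := fun i k => hAV.2 _ (hvV i) _ (hvV k)
  have hdx' : dL f v (x - dL f v u) = 0 := by
    rw [map_sub, hdx, dL_dL v h2 hu, sub_zero]
  have hdRx' : dR f v (x - dL f v u) = 0 := by
    rw [dR_eq_dL v hAV hvV (j + 2) hx'V, hdx', smul_zero]
  obtain ⟨t, htC, htv, htd⟩ := hK (j + 1) _ hx'C hx'V hdRx'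
  refine ⟨u + ((-1 : f) ^ (j + 1)) • t, Submodule.add_mem _ hu (Submodule.smul_mem _ _ htC), ?_, ?_⟩
  · intro w
    rw [Finsupp.add_apply, Finsupp.smul_apply]
    exact Submodule.add_mem _ (huv w) (Submodule.smul_mem _ _ (hVV' _ (htv w)))
  · rw [map_add, map_smul, ← dR_eq_dL v hAV hvV (j + 1) htv, htd]
    abel

end Pool.Agent.KRat
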