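import Mathlib

/-!
Words, contractions and the canonical Koszul complex (MP_da2a57_al, rational function fields).
`List I →₀ M` is the free module on words in the letters `I` with coefficients in `M`.
-/

set_option autoImplicit false

namespace Pool.Agent.KRat

open Finsupp

section

variable {f : Type} [Field f] {I : Type*} {M N : Type*} [AddCommGroup M] [Module f M]
  [AddCommGroup N] [Module f N]

/-- `i :: w` with coefficient `m` goes to `w` with coefficient `g i m`, the empty word to `0` -/
noncomputable def dif (g : I → M →ₗ[f] N) : (List I →₀ M) →ₗ[f] (List I →₀ N) :=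
  Finsupp.lsum f (fun w => match w with
    | [] => 0
    | i :: w => (Finsupp.lsingle w) ∘ₗ (g i))

/-- `i :: j :: w` with coefficient `m` goes to `w` with coefficient `b i j m`, shorter words to `0` -/
noncomputable def quad (b : I → I → M →ₗ[f] N) : (List I →₀ M) →ₗ[f] (List I →₀ N) :=
  Finsupp.lsum f (fun w => match w with
    | [] => 0
    | [_] => 0
    | i :: j :: w => (Finsupp.lsingle w) ∘ₗ (b i j))

/-- contraction of the first letter against `y` -/
noncomputable def con (y : I → f) : (List I →₀ M) →ₗ[f] (List I →₀ M) :=
  dif (fun i => y i • LinearMap.id)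

/-- coefficientwise application of a linear map -/
noncomputable def mp (φ : M →ₗ[f] N) : (List I →₀ M) →ₗ[f] (List I →₀ N) :=
  Finsupp.mapRange.linearMap φ

end

section

variable (f : Type) [Field f] {I : Type*} {M : Type*} [AddCommGroup M] [Module f M]

/-- the coefficients of the words that start with `i`, with this letter removed -/
noncomputable def tl (i : I) : (List I →₀ M) →ₗ[f] (List I →₀ M) :=
  Finsupp.lcomapDomain (List.cons i) List.cons_injective

/-- iterated `tl` -/
noncomputable def tls : List I → (List I →₀ M) →ₗ[f] (List I →₀ M)
  | [] => LinearMap.id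
  | i :: u => tls u ∘ₗ tl f i

/-- the tensors `z` in the words in `I` (with coefficients in `M`) all of whose adjacent products
vanish: `P i j` is the product of the letters `i` and `j` -/
noncomputable def C {Q : Type*} [AddCommGroup Q] [Module f Q] (P : I → I → Q) (M : Type*)
    [AddCommGroup M] [Module f M] : Submodule f (List I →₀ M) :=
  ⨅ (μ : Q →ₗ[f] f), ⨅ (u : List I),
    LinearMap.ker ((quad (fun i j => μ (P i j) • (LinearMap.id : M →ₗ[f] M))) ∘ₗ tls f u)

end

section

variable (f : Type) [Field f] {I : Type*} {A : Type*} [Ring A] [Algebra f A]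

/-- products of the letters -/
def pr {A : Type*} [Mul A] (v : I → A) (i j : I) : A := v i * v j

/-- multiplication of the coefficients by the first letter from the right -/
noncomputable def dR (v : I → A) : (List I →₀ A) →ₗ[f] (List I →₀ A) :=
  dif (fun i => LinearMap.mulRight f (v i))

/-- multiplication of the coefficients by the first letter from the left -/
noncomputable def dL (v : I → A) : (List I →₀ A) →ₗ[f] (List I →₀ A) :=
  dif (fun i => LinearMap.mulLeft f (v i))

/-- the span of the letters -/
def sp (v : I → A) : Submodule f A := Submodule.span f (Set.range v)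

/-- step `j` of the canonical Koszul complex of the algebra generated by the `v i` is exact -/
def KosAt (v : I → A) (j : ℕ) : Prop :=
  ∀ z ∈ C f (pr v) A, (∀ w, z w ∈ sp f v ^ (j + 1)) → dR f v z = 0 →
    ∃ y ∈ C f (pr v) A, (∀ w, y w ∈ sp f v ^ j) ∧ dR f v y = z

/-- the canonical Koszul complex of the algebra generated by the `v i` is exact -/
def Kos (v : I → A) : Prop := ∀ j, KosAt f v j

/-- the elements of `V` anticommute and have square zero -/
def Anti {A : Type*} [Ring A] (V : Set A) : Prop :=
  (∀ x ∈ V, x * x = 0) ∧ ∀ x ∈ V, ∀ y ∈ V, x * y + y * x = 0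

/-- exactness of the same complex with multiplication from the left, in coefficient degrees at
least two, with coefficients in the algebra generated by a larger space `V'` -/
def ColAt (v : I → A) (V' : Submodule f A) (j : ℕ) : Prop :=
  ∀ x ∈ C f (pr v) A, (∀ w, x w ∈ V' ^ (j + 2)) → dL f v x = 0 →
    ∃ u ∈ C f (pr v) A, (∀ w, u w ∈ V' ^ (j + 1)) ∧ dL f v u = x

end

end Pool.Agent.KRat
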