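import Pool.Agent.KRat.Api
import Pool.Agent.KMil.Two

/-!
Further definitions: insertions, sections, exterior coefficients, residue data, and the field side.
-/

set_option autoImplicit false

namespace Pool.Agent.KRat

open Finsupp Pool.Agent.KMil

universe u

section

variable {f : Type} [Field f] {I : Type*} {M : Type*} [AddCommGroup M] [Module f M]

/-- put the letter `i` in front -/
noncomputable def pre (i : I) : (List I →₀ M) →ₗ[f] (List I →₀ M) :=
  Finsupp.lmapDomain M f (List.cons i)

/-- put the linear combination `x` of letters in front -/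
noncomputable def prx (x : I →₀ f) : (List I →₀ M) →ₗ[f] (List I →₀ M) :=
  x.sum fun i c => c • pre i

/-- insert `x` in `j` places in all possible ways -/
noncomputable def insW (x : I →₀ f) : ℕ → List I → (M →ₗ[f] (List I →₀ M))
  | 0, w => Finsupp.lsingle w
  | j + 1, [] => prx x ∘ₗ insW x j []
  | j + 1, i :: w => prx x ∘ₗ insW x j (i :: w) + pre i ∘ₗ insW x (j + 1) w

/-- insert `x` in `j` places in all possible ways -/
noncomputable def ins (x : I →₀ f) (j : ℕ) : (List I →₀ M) →ₗ[f] (List I →₀ M) :=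
  Finsupp.lsum f (insW x j)

/-- a section of the contraction against `y` if `x` and `y` have pairing one -/
noncomputable def sec (x : I →₀ f) (y : I → f) (N : ℕ) : (List I →₀ M) →ₗ[f] (List I →₀ M) :=
  ∑ k ∈ Finset.range N, ((-1 : f) ^ k) • (ins x (k + 1) ∘ₗ (con y) ^ k)

/-- all words in `z` are shorter than `N` -/
def Short (N : ℕ) (z : List I →₀ M) : Prop := ∀ w, z w ≠ 0 → w.length < N

end

section

variable {f : Type} [Field f] {I : Type*} {W : Type*} [AddCommGroup W] [Module f W]

/-- contraction on the exterior algebra -/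
noncomputable def ctr (Y : Module.Dual f W) : ExteriorAlgebra f W →ₗ[f] ExteriorAlgebra f W :=
  CliffordAlgebra.contractLeft Y

theorem ctr_ι_mul (Y : Module.Dual f W) (w : W) (a : ExteriorAlgebra f W) :
    ctr Y (ExteriorAlgebra.ι f w * a) = Y w • a - ExteriorAlgebra.ι f w * ctr Y a :=
  CliffordAlgebra.contractLeft_ι_mul Y w a

theorem ctr_one (Y : Module.Dual f W) : ctr Y (1 : ExteriorAlgebra f W) = 0 := by
  unfold ctr
  simp

/-- the degree `n` part of the exterior algebra -/
def lam (f : Type) [Field f] (W : Type*) [AddCommGroup W] [Module f W] (n : ℕ) :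
    Submodule f (ExteriorAlgebra f W) :=
  LinearMap.range (ExteriorAlgebra.ι f : W →ₗ[f] ExteriorAlgebra f W) ^ n

/-- the differential with exterior coefficients -/
noncomputable def dE (ω : I → W) :
    (List I →₀ ExteriorAlgebra f W) →ₗ[f] (List I →₀ ExteriorAlgebra f W) :=
  dif (fun i => LinearMap.mulLeft f (ExteriorAlgebra.ι f (ω i)))

end

/-- residue data: specialisations `ev`, residues `del`, uniformisers `e`, for the step from the
algebra generated by `V` to the algebra generated by `V'` -/
structure Res {f : Type} [Field f] {A : Type u} [Ring A] [Algebra f A] (V V' : Submodule f A)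
    (J : Type u) (W : J → Type u) [∀ π, AddCommGroup (W π)] [∀ π, Module f (W π)] where
  ev : ∀ π, A →ₐ[f] ExteriorAlgebra f (W π)
  del : ∀ π, A →ₗ[f] ExteriorAlgebra f (W π)
  e : J → A
  le : V ≤ V'
  e_mem : ∀ π, e π ∈ V'
  del_mul : ∀ π, ∀ v ∈ V, ∀ a, del π (v * a) = -(ev π v * del π a)
  del_one : ∀ π, del π 1 = 0
  del_e : ∀ π, ∀ n, ∀ a ∈ V ^ n, del π (e π * a) = ev π a
  del_e_ne : ∀ π ρ, π ≠ ρ → ∀ n, ∀ a ∈ V ^ n, del ρ (e π * a) = 0
  ev_mem : ∀ π, ∀ v ∈ V, ∃ w, ev π v = ExteriorAlgebra.ι f w
  ev_surj : ∀ π, ∀ w, ∃ v ∈ V, ev π v = ExteriorAlgebra.ι f w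
  dec : ∀ n, ∀ x ∈ V' ^ (n + 1), ∃ x0 ∈ V ^ (n + 1), ∃ c : J →₀ A, (∀ π, c π ∈ V ^ n) ∧
    x = x0 + c.sum (fun π a => e π * a)
  ker : ∀ π, ∀ n, ∀ a ∈ V ^ n, ev π a = 0 → e π * a ∈ V ^ (n + 1)

section field

variable (p : ℕ)

/-- the group of `p`-th powers -/
def pPow (E : Type*) [Field E] : AddSubgroup (Additive Eˣ) :=
  (nsmulAddMonoidHom p : Additive Eˣ →+ Additive Eˣ).range

/-- the units modulo `p`-th powers -/
abbrev PW (E : Type*) [Field E] : Type _ := Additive Eˣ ⧸ pPow p E

theorem PW_nsmul (E : Type*) [Field E] (x : PW p E) : p • x = 0 := by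
  induction x using QuotientAddGroup.induction_on with
  | H z =>
    have h : p • (z : PW p E) = ((p • z : Additive Eˣ) : PW p E) := rfl
    rw [h, QuotientAddGroup.eq_zero_iff]
    exact ⟨z, rfl⟩

noncomputable instance (E : Type*) [Field E] : Module (ZMod p) (PW p E) :=
  AddCommGroup.zmodModule (PW_nsmul p E)

/-- the class of a unit -/
def cls {E : Type*} [Field E] (a : Eˣ) : PW p E := QuotientAddGroup.mk (Additive.ofMul a)

/-- Steinberg's relation holds already in the exterior algebra: `a` and `1 - a` are dependent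
modulo `p`-th powers -/
def ExtF (E : Type*) [Field E] : Prop :=
  ∀ a : E, a ≠ 0 → a ≠ 1 → ∃ i j : ℕ, ¬ (p ∣ i ∧ p ∣ j) ∧ ∃ c : E, a ^ i * (1 - a) ^ j = c ^ p

end field

/-- `PW p E` together with a valuation modulo `p` -/
def PZ (p : ℕ) (E : Type*) [Field E] : Type _ := PW p E × ZMod p

noncomputable instance addPZ (p : ℕ) (E : Type*) [Field E] : AddCommGroup (PZ p E) :=
  inferInstanceAs (AddCommGroup (PW p E × ZMod p))

noncomputable instance modPZ (p : ℕ) (E : Type*) [Field E] : Module (ZMod p) (PZ p E) :=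
  inferInstanceAs (Module (ZMod p) (PW p E × ZMod p))

/-- the first component -/
noncomputable def fstZ (p : ℕ) (E : Type*) [Field E] : PZ p E →ₗ[ZMod p] PW p E :=
  LinearMap.fst (ZMod p) (PW p E) (ZMod p)

/-- the second component -/
noncomputable def sndZ (p : ℕ) (E : Type*) [Field E] : PZ p E →ₗ[ZMod p] ZMod p :=
  LinearMap.snd (ZMod p) (PW p E) (ZMod p)

/-- the inclusion of the first component -/
noncomputable def inlZ (p : ℕ) (E : Type*) [Field E] : PW p E →ₗ[ZMod p] PZ p E :=
  LinearMap.inl (ZMod p) (PW p E) (ZMod p)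

/-- the element `(0, 1)` -/
noncomputable def xiZ (p : ℕ) (E : Type*) [Field E] : PZ p E := ((0, 1) : PW p E × ZMod p)

section field

variable (p : ℕ)

open Polynomial

variable (k : Type u) [Field k]

open Classical in
/-- the symbol of a polynomial (zero for the zero polynomial) -/
noncomputable def psym (q : k[X]) : KM p (RatFunc k) :=
  if h : algebraMap k[X] (RatFunc k) q = 0 then 0 else sym p (Units.mk0 _ h)

/-- the span of the symbols of the polynomials of degree at most `d` -/
noncomputable def VV (d : ℕ) : Submodule (ZMod p) (KM p (RatFunc k)) :=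
  Submodule.span (ZMod p) {x | ∃ q : k[X], q ≠ 0 ∧ q.natDegree ≤ d ∧ x = psym p k q}

/-- the monic irreducible polynomials of degree `d` -/
def Pl (d : ℕ) : Type u := {π : k[X] // π.Monic ∧ Irreducible π ∧ π.natDegree = d}

variable {k}

instance irrPl {d : ℕ} (π : Pl k d) : Fact (Irreducible π.1) := ⟨π.2.2.1⟩

open Classical in
/-- the class of the residue of a polynomial (zero if the residue is zero) -/
noncomputable def rcls {d : ℕ} (π : Pl k d) (q : k[X]) : PW p (AdjoinRoot π.1) :=
  if h : AdjoinRoot.mk π.1 q = 0 then 0 else cls p (Units.mk0 _ h)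

end field

end Pool.Agent.KRat
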