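import Pool.Agent.KRat.Defs2

/-!
Row DEG: degrees in the exterior algebra.
-/

set_option autoImplicit false

namespace Pool.Agent.KRat

open Finsupp Pool.Agent.KMil

universe u

variable {f : Type} [Field f] {W : Type*} [AddCommGroup W] [Module f W]

theorem lam_zero : lam f W 0 = 1 := by
  unfold lam
  rw [pow_zero]

theorem deg_mem_one {a : ExteriorAlgebra f W} :
    a ∈ (1 : Submodule f (ExteriorAlgebra f W)) ↔ ∃ c : f, algebraMap f _ c = a :=
  Submodule.mem_one

theorem ι_mul_lam (w : W) (n : ℕ) {a : ExteriorAlgebra f W} (ha : a ∈ lam f W n) :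
    ExteriorAlgebra.ι f w * a ∈ lam f W (n + 1) := by
  unfold lam at *
  rw [pow_succ']
  exact Submodule.mul_mem_mul (LinearMap.mem_range_self _ w) ha

theorem deg_induction {n : ℕ} {P : ExteriorAlgebra f W → Prop}
    (h1 : ∀ (w : W) (a : ExteriorAlgebra f W), a ∈ lam f W n → P (ExteriorAlgebra.ι f w * a))
    (h2 : ∀ a b, P a → P b → P (a + b)) {a : ExteriorAlgebra f W} (ha : a ∈ lam f W (n + 1)) :
    P a := by
  unfold lam at ha h1
  rw [pow_succ'] at ha
  refine Submodule.mul_induction_on ha ?_ h2
  rintro _ ⟨w, rfl⟩ b hb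
  exact h1 w b hb

theorem ctr_lam (Y : Module.Dual f W) (n : ℕ) {a : ExteriorAlgebra f W} (ha : a ∈ lam f W (n + 1)) :
    ctr Y a ∈ lam f W n := by
  induction n generalizing a with
  | zero =>
    refine deg_induction (P := fun a => ctr Y a ∈ lam f W 0) ?_ ?_ ha
    · intro w b hb
      rw [ctr_ι_mul]
      have h0 : ctr Y b = 0 := by
        rw [lam_zero] at hb
        obtain ⟨c, rfl⟩ := deg_mem_one.1 hb
        rw [Algebra.algebraMap_eq_smul_one, map_smul, ctr_one, smul_zero]
      rw [h0, mul_zero, sub_zero]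
      exact Submodule.smul_mem _ _ hb
    · intro b c hb hc
      rw [map_add]
      exact Submodule.add_mem _ hb hc
  | succ n ih =>
    refine deg_induction (P := fun a => ctr Y a ∈ lam f W (n + 1)) ?_ ?_ ha
    · intro w b hb
      rw [ctr_ι_mul]
      exact Submodule.sub_mem _ (Submodule.smul_mem _ _ hb) (ι_mul_lam w n (ih hb))
    · intro b c hb hc
      rw [map_add]
      exact Submodule.add_mem _ hb hc

/-- an element of degree `n + 1` is in the left ideal generated by a finite dimensional space -/
theorem deg_finite (n : ℕ) {a : ExteriorAlgebra f W} (ha : a ∈ lam f W (n + 1)) :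
    ∃ s : Finset W, ∀ (r : ℕ) (b : Fin r → W), (s : Set W) ⊆ Submodule.span f (Set.range b) →
      ∃ c : Fin r → ExteriorAlgebra f W,
        (∀ i, c i ∈ lam f W n) ∧ a = ∑ i, ExteriorAlgebra.ι f (b i) * c i := by
  classical
  refine deg_induction (P := fun a => ∃ s : Finset W, ∀ (r : ℕ) (b : Fin r → W),
    (s : Set W) ⊆ Submodule.span f (Set.range b) → ∃ c : Fin r → ExteriorAlgebra f W,
        (∀ i, c i ∈ lam f W n) ∧ a = ∑ i, ExteriorAlgebra.ι f (b i) * c i) ?_ ?_ ha
  · intro w a ha
    refine ⟨{w}, fun r b hb => ?_⟩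
    have hw : w ∈ Submodule.span f (Set.range b) := hb (by simp)
    obtain ⟨g, hg⟩ := (Submodule.mem_span_range_iff_exists_fun f).1 hw
    refine ⟨fun i => g i • a, fun i => Submodule.smul_mem _ _ ha, ?_⟩
    rw [← hg, map_sum, Finset.sum_mul]
    refine Finset.sum_congr rfl fun i _ => ?_
    rw [map_smul, smul_mul_assoc, mul_smul_comm]
  · rintro a a' ⟨s, hs⟩ ⟨s', hs'⟩
    refine ⟨s ∪ s', fun r b hb => ?_⟩
    rw [Finset.coe_union, Set.union_subset_iff] at hb
    obtain ⟨c, hc, hc'⟩ := hs r b hb.1
    obtain ⟨d, hd, hd'⟩ := hs' r b hb.2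
    refine ⟨fun i => c i + d i, fun i => Submodule.add_mem _ (hc i) (hd i), ?_⟩
    rw [hc', hd', ← Finset.sum_add_distrib]
    exact Finset.sum_congr rfl fun i _ => (mul_add _ _ _).symm

/-- elements of positive degree are in the left ideal generated by finitely many elements of `W`,
with coefficients of one degree less; the elements of `W` may be taken independent -/
theorem exists_indep (n : ℕ) (T : Finset (ExteriorAlgebra f W)) (hT : ∀ a ∈ T, a ∈ lam f W (n + 1)) :
    ∃ (r : ℕ) (b : Fin r → W), LinearIndependent f b ∧ ∀ a ∈ T, ∃ c : Fin r → ExteriorAlgebra f W,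
      (∀ i, c i ∈ lam f W n) ∧ a = ∑ i, ExteriorAlgebra.ι f (b i) * c i := by
  classical
  choose! s hs using fun (a : ExteriorAlgebra f W) (ha : a ∈ lam f W (n + 1)) => deg_finite n ha
  set S : Finset W := T.biUnion s with hS
  set U : Submodule f W := Submodule.span f (S : Set W) with hU
  have : FiniteDimensional f U := FiniteDimensional.span_finset f S
  let B := Module.finBasis f U
  refine ⟨Module.finrank f U, fun i => (B i : W), ?_, ?_⟩
  · exact B.linearIndependent.map' U.subtype (by simp)
  · intro a ha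
    apply hs a (hT a ha)
    intro w hw
    have hwS : w ∈ S := Finset.mem_biUnion.2 ⟨a, ha, hw⟩
    have hwU : w ∈ U := Submodule.subset_span hwS
    have h1 : (⟨w, hwU⟩ : U) ∈ Submodule.span f (Set.range B) := by
      rw [B.span_eq]
      trivial
    have h2 := Submodule.mem_map_of_mem (f := U.subtype) h1
    rw [Submodule.map_span, ← Set.range_comp] at h2
    exact h2

/-- a functional that is one on the last of `r + 1` independent vectors and zero on the others -/
theorem exists_dual (r : ℕ) (b : Fin (r + 1) → W) (hb : LinearIndependent f b) :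
    ∃ Y : Module.Dual f W, Y (b (Fin.last r)) = 1 ∧ ∀ i : Fin r, Y (b i.castSucc) = 0 := by
  let B := Module.Basis.span hb
  let Y0 : Module.Dual f (Submodule.span f (Set.range b)) := B.coord (Fin.last r)
  obtain ⟨Y, hY⟩ := LinearMap.exists_extend Y0
  have hval : ∀ i, Y (b i) = Y0 (B i) := by
    intro i
    have h1 : (B i : W) = b i := congrArg Subtype.val (Module.Basis.span_apply hb i)
    rw [← h1, ← hY]
    rfl
  refine ⟨Y, ?_, fun i => ?_⟩
  · rw [hval]
    simp [Y0]
  · rw [hval]
    have : i.castSucc ≠ Fin.last r := (Fin.castSucc_lt_last i).ne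
    simp [Y0, this]

end Pool.Agent.KRat
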