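import Pool.Agent.KRat.Hom
import Pool.Agent.KRat.Deg

/-!
Row EXTEX: the Koszul complex with exterior coefficients is exact in positive exterior degree.
-/

set_option autoImplicit false

namespace Pool.Agent.KRat

open Finsupp Pool.Agent.KMil

universe u

variable {f : Type} [Field f] {I : Type*} {W : Type*} [AddCommGroup W] [Module f W]
  {Q : Type*} [AddCommGroup Q] [Module f Q]

private theorem ex_lift {M : Type*} [AddCommGroup M] [Module f M] (U : Submodule f M)
    (z : List I →₀ M) (h : ∀ w, z w ∈ U) : ∃ z' : List I →₀ U, mp U.subtype z' = z := by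
  refine ⟨Finsupp.onFinset z.support (fun w => ⟨z w, h w⟩) ?_, ?_⟩
  · intro w hw
    rw [Finsupp.mem_support_iff]
    intro h0
    exact hw (Subtype.ext h0)
  · ext w
    simp

private theorem ex_sec {M : Type*} [AddCommGroup M] [Module f M] (U : Submodule f M)
    (x : I →₀ f) (y : I → f) (N : ℕ) (z : List I →₀ M) (h : ∀ w, z w ∈ U) (w : List I) :
    sec x y N z w ∈ U := by
  obtain ⟨z', rfl⟩ := ex_lift U z h
  rw [sec_mp, mp_apply]
  exact Subtype.property _

private theorem ex_con {M : Type*} [AddCommGroup M] [Module f M] (U : Submodule f M)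
    (y : I → f) (z : List I →₀ M) (h : ∀ w, z w ∈ U) (w : List I) : con y z w ∈ U := by
  obtain ⟨z', rfl⟩ := ex_lift U z h
  rw [con_mp, mp_apply]
  exact Subtype.property _

/-- the values `∑ b_i ∧ c_i` -/
private noncomputable def exU {r : ℕ} (b : Fin r → W) (n : ℕ) :
    Submodule f (ExteriorAlgebra f W) where
  carrier := {a | ∃ c : Fin r → ExteriorAlgebra f W,
      (∀ i, c i ∈ lam f W n) ∧ a = ∑ i, ExteriorAlgebra.ι f (b i) * c i}
  add_mem' := by
    rintro _ _ ⟨c, hc, rfl⟩ ⟨c', hc', rfl⟩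
    refine ⟨fun i => c i + c' i, fun i => add_mem (hc i) (hc' i), ?_⟩
    rw [← Finset.sum_add_distrib]
    simp only [mul_add]
  zero_mem' := ⟨fun _ => 0, fun _ => zero_mem _, by simp⟩
  smul_mem' := by
    rintro s _ ⟨c, hc, rfl⟩
    refine ⟨fun i => s • c i, fun i => Submodule.smul_mem _ _ (hc i), ?_⟩
    rw [Finset.smul_sum]
    simp only [mul_smul_comm]

private theorem ex_dEdE (ω : I → W) (P : I → I → Q) (θ : Q →ₗ[f] ExteriorAlgebra f W)
    (hθ : ∀ i j, θ (P i j) = ExteriorAlgebra.ι f (ω i) * ExteriorAlgebra.ι f (ω j))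
    {z : List I →₀ ExteriorAlgebra f W} (hz : z ∈ C f P (ExteriorAlgebra f W)) :
    dE ω (dE ω z) = 0 := by
  have h := quad_eq_zero P ((-(LinearMap.mul f (ExteriorAlgebra f W))) ∘ₗ θ) hz
  unfold dE
  rw [dif_dif, ← h]
  congr 2
  funext i j
  refine LinearMap.ext fun m => ?_
  have h1 : ExteriorAlgebra.ι f (ω j) * ExteriorAlgebra.ι f (ω i) =
      -(ExteriorAlgebra.ι f (ω i) * ExteriorAlgebra.ι f (ω j)) :=
    eq_neg_of_add_eq_zero_left (ExteriorAlgebra.ι_add_mul_swap _ _)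
  show ExteriorAlgebra.ι f (ω j) * (ExteriorAlgebra.ι f (ω i) * m) = -(θ (P i j) * m)
  rw [hθ, ← mul_assoc, h1, neg_mul]

/-- the operator `1 - e ∧ Y⌋` kills the generator `e` -/
private theorem ex_phi (Y : Module.Dual f W) {r : ℕ} (b : Fin (r + 1) → W) (n : ℕ)
    (h1 : Y (b (Fin.last r)) = 1) (h2 : ∀ i : Fin r, Y (b i.castSucc) = 0)
    {a : ExteriorAlgebra f W} (ha : a ∈ exU b n) :
    (LinearMap.id - LinearMap.mulLeft f (ExteriorAlgebra.ι f (b (Fin.last r))) ∘ₗ
      ctr Y : ExteriorAlgebra f W →ₗ[f] ExteriorAlgebra f W) a ∈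
      exU (fun i : Fin r => b i.castSucc) n := by
  obtain ⟨c, hc, rfl⟩ := ha
  refine ⟨fun i => c i.castSucc - ExteriorAlgebra.ι f (b (Fin.last r)) * ctr Y (c i.castSucc),
    ?_, ?_⟩
  · intro i
    refine sub_mem (hc _) ?_
    cases n with
    | zero =>
      have h3 := hc i.castSucc
      rw [lam_zero, Submodule.mem_one] at h3
      obtain ⟨s, hs⟩ := h3
      rw [← hs, Algebra.algebraMap_eq_smul_one, map_smul, ctr_one, smul_zero, mul_zero]
      exact zero_mem _
    | succ n => exact ι_mul_lam _ _ (ctr_lam Y n (hc _))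
  · rw [Fin.sum_univ_castSucc, map_add, map_sum]
    have e1 : (LinearMap.id - LinearMap.mulLeft f (ExteriorAlgebra.ι f (b (Fin.last r))) ∘ₗ
        ctr Y : ExteriorAlgebra f W →ₗ[f] ExteriorAlgebra f W)
        (ExteriorAlgebra.ι f (b (Fin.last r)) * c (Fin.last r)) = 0 := by
      simp only [LinearMap.sub_apply, LinearMap.id_apply, LinearMap.comp_apply,
        LinearMap.mulLeft_apply]
      rw [ctr_ι_mul, h1, one_smul, mul_sub, ← mul_assoc, ExteriorAlgebra.ι_sq_zero, zero_mul]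
      abel
    rw [e1, add_zero]
    refine Finset.sum_congr rfl fun i _ => ?_
    simp only [LinearMap.sub_apply, LinearMap.id_apply, LinearMap.comp_apply,
      LinearMap.mulLeft_apply]
    have h3 : ExteriorAlgebra.ι f (b (Fin.last r)) * ExteriorAlgebra.ι f (b i.castSucc) =
        -(ExteriorAlgebra.ι f (b i.castSucc) * ExteriorAlgebra.ι f (b (Fin.last r))) :=
      eq_neg_of_add_eq_zero_left (ExteriorAlgebra.ι_add_mul_swap _ _)
    rw [ctr_ι_mul, h2, zero_smul, zero_sub, mul_neg, ← mul_assoc, h3, mul_sub, neg_mul, mul_assoc]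
    abel

/-- induction on the number `r` of generators of the left ideal that contains the values -/
theorem ext_step (ω : I → W) (hω : ∀ w : W, ∃ x : I →₀ f, x.sum (fun i c => c • ω i) = w)
    (P : I → I → Q) (θ : Q →ₗ[f] ExteriorAlgebra f W)
    (hθ : ∀ i j, θ (P i j) = ExteriorAlgebra.ι f (ω i) * ExteriorAlgebra.ι f (ω j))
    (h1 : ∀ i, P i i = 0) (h2 : ∀ i j, P i j + P j i = 0) (n : ℕ) :
    ∀ (r : ℕ) (b : Fin r → W), LinearIndependent f b →
    ∀ z ∈ C f P (ExteriorAlgebra f W), (∀ w, ∃ c : Fin r → ExteriorAlgebra f W,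
      (∀ i, c i ∈ lam f W n) ∧ z w = ∑ i, ExteriorAlgebra.ι f (b i) * c i) →
    dE ω z = 0 →
    ∃ y ∈ C f P (ExteriorAlgebra f W), (∀ w, y w ∈ lam f W n) ∧ dE ω y = z := by
  intro r
  induction r with
  | zero =>
    intro b _ z _ hz _
    refine ⟨0, zero_mem _, fun w => zero_mem _, ?_⟩
    rw [map_zero]
    symm
    ext w
    obtain ⟨c, _, h⟩ := hz w
    rw [h]
    simp
  | succ r ih =>
    intro b hb z hzC hz hd
    obtain ⟨Y, hY1, hY2⟩ := exists_dual r b hb
    obtain ⟨x, hx⟩ := hω (b (Fin.last r))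
    obtain ⟨N, hN⟩ := exists_short z
    have hYx : Y (x.sum fun i c => c • ω i) = 1 := by rw [hx, hY1]
    have key := homotopy ω P θ hθ Y x hYx N z hzC hN hd
    rw [hx] at key
    set A := mp (ctr Y) (sec x (fun i => Y (ω i)) N z) with hA
    set z' := mp (LinearMap.id - LinearMap.mulLeft f (ExteriorAlgebra.ι f (b (Fin.last r))) ∘ₗ
        ctr Y) (z - sec x (fun i => Y (ω i)) N (con (fun i => Y (ω i)) z)) with hz'
    have hAC : A ∈ C f P (ExteriorAlgebra f W) := C_mp P _ (sec_C P h1 h2 x _ N hzC)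
    have hz'C : z' ∈ C f P (ExteriorAlgebra f W) :=
      C_mp P _ (sub_mem hzC (sec_C P h1 h2 x _ N (C_con P _ hzC)))
    have hzU : ∀ w, z w ∈ exU b n := hz
    have hz'U : ∀ w, z' w ∈ exU (fun i : Fin r => b i.castSucc) n := by
      intro w
      rw [hz', mp_apply]
      refine ex_phi Y b n hY1 hY2 ?_
      rw [Finsupp.sub_apply]
      exact sub_mem (hzU w) (ex_sec _ _ _ _ _ (ex_con _ _ _ hzU) w)
    have hd' : dE ω z' = 0 := by
      have h3 : z' = z - dE ω A := by
        rw [eq_sub_iff_add_eq, add_comm]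
        exact key.symm
      rw [h3, map_sub, hd, ex_dEdE ω P θ hθ hAC, sub_zero]
    obtain ⟨y', hy'C, hy', hdy'⟩ := ih (fun i => b i.castSucc)
      (hb.comp _ (Fin.castSucc_injective r)) z' hz'C hz'U hd'
    refine ⟨A + y', add_mem hAC hy'C, ?_, ?_⟩
    · intro w
      rw [Finsupp.add_apply]
      refine add_mem ?_ (hy' w)
      rw [hA, mp_apply]
      refine ctr_lam Y n (ex_sec _ _ _ _ _ ?_ w)
      intro w
      obtain ⟨c, hc, hzw⟩ := hz w
      rw [hzw]
      exact sum_mem fun i _ => ι_mul_lam _ _ (hc i)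
    · rw [map_add, hdy']
      exact key.symm

theorem ext_exact (ω : I → W) (hω : ∀ w : W, ∃ x : I →₀ f, x.sum (fun i c => c • ω i) = w)
    (P : I → I → Q) (θ : Q →ₗ[f] ExteriorAlgebra f W)
    (hθ : ∀ i j, θ (P i j) = ExteriorAlgebra.ι f (ω i) * ExteriorAlgebra.ι f (ω j))
    (h1 : ∀ i, P i i = 0) (h2 : ∀ i j, P i j + P j i = 0) (n : ℕ)
    (z : List I →₀ ExteriorAlgebra f W) (hz : z ∈ C f P (ExteriorAlgebra f W))
    (hn : ∀ w, z w ∈ lam f W (n + 1)) (hd : dE ω z = 0) :
    ∃ y ∈ C f P (ExteriorAlgebra f W), (∀ w, y w ∈ lam f W n) ∧ dE ω y = z := by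
  classical
  obtain ⟨r, b, hb, h⟩ := exists_indep n (z.support.image z) (by
    intro a ha
    obtain ⟨w, _, rfl⟩ := Finset.mem_image.1 ha
    exact hn w)
  refine ext_step ω hω P θ hθ h1 h2 n r b hb z hz ?_ hd
  intro w
  by_cases hw : z w = 0
  · refine ⟨fun _ => 0, fun _ => zero_mem _, ?_⟩
    rw [hw]
    simp
  · exact h _ (Finset.mem_image.2 ⟨w, Finsupp.mem_support_iff.2 hw, rfl⟩)

end Pool.Agent.KRat
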