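import Pool.Agent.KRat.QuadB

/-!
Row FIN: exactness of the canonical complex gives a linear resolution.
-/

set_option autoImplicit false

namespace Pool.Agent.KRat

open Finsupp Pool.Agent.KMil

universe u

section filt

variable {f : Type} [Field f] {I : Type*} {M N : Type*} [AddCommGroup M] [Module f M]
  [AddCommGroup N] [Module f N]

/-- the part of word length `m` -/
noncomputable def filt (f : Type) [Field f] {I : Type*} {M : Type*} [AddCommGroup M] [Module f M]
    (m : ℕ) : (List I →₀ M) →ₗ[f] (List I →₀ M) :=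
  Finsupp.lsum f (fun w => if w.length = m then Finsupp.lsingle w else 0)

theorem filt_single (m : ℕ) (w : List I) (a : M) :
    filt f m (single w a) = if w.length = m then single w a else 0 := by
  unfold filt
  by_cases h : w.length = m <;> simp [h]

theorem filt_apply (m : ℕ) (z : List I →₀ M) (w : List I) :
    filt f m z w = if w.length = m then z w else 0 := by
  classical
  induction z using Finsupp.induction_linear with
  | zero => simp
  | add x y hx hy =>
    rw [map_add, Finsupp.add_apply, hx, hy, Finsupp.add_apply]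
    split_ifs <;> simp
  | single w' a =>
    rw [filt_single]
    by_cases h : w' = w
    · subst h
      split_ifs <;> simp
    · by_cases h1 : w'.length = m
      · rw [if_pos h1]
        rw [Finsupp.single_apply, if_neg h]
        split_ifs <;> rfl
      · rw [if_neg h1, Finsupp.single_apply, if_neg h]
        split_ifs <;> rfl

theorem filt_tl (i : I) (m : ℕ) (z : List I →₀ M) :
    tl f i (filt f (m + 1) z) = filt f m (tl f i z) := by
  ext w
  simp [filt_apply]

theorem filt_tl_zero (i : I) (z : List I →₀ M) : tl f i (filt f 0 z) = 0 := by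
  ext w
  simp [filt_apply]

theorem filt_quad (b : I → I → M →ₗ[f] N) (m : ℕ) (z : List I →₀ M) :
    quad b (filt f (m + 2) z) = filt f m (quad b z) := by
  have h : (quad b) ∘ₗ (filt f (m + 2)) = (filt f m) ∘ₗ (quad b) := by
    apply lin_ext
    intro w a
    rcases w with _ | ⟨i, _ | ⟨j, w⟩⟩
    · simp [filt_single]
    · simp [filt_single]
    · by_cases h : w.length = m <;> simp [filt_single, h]
  exact LinearMap.congr_fun h z

theorem filt_quad_zero (b : I → I → M →ₗ[f] N) (z : List I →₀ M) :
    quad b (filt f 0 z) = 0 := by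
  have h : (quad b) ∘ₗ (filt f 0) = 0 := by
    apply lin_ext
    intro w a
    rcases w with _ | ⟨i, _ | ⟨j, w⟩⟩ <;> simp [filt_single]
  exact LinearMap.congr_fun h z

theorem filt_quad_one (b : I → I → M →ₗ[f] N) (z : List I →₀ M) :
    quad b (filt f 1 z) = 0 := by
  have h : (quad b) ∘ₗ (filt f 1) = 0 := by
    apply lin_ext
    intro w a
    rcases w with _ | ⟨i, _ | ⟨j, w⟩⟩ <;> simp [filt_single]
  exact LinearMap.congr_fun h z

theorem filt_dif (g : I → M →ₗ[f] N) (m : ℕ) (z : List I →₀ M) :
    dif g (filt f (m + 1) z) = filt f m (dif g z) := by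
  have h : (dif g) ∘ₗ (filt f (m + 1)) = (filt f m) ∘ₗ (dif g) := by
    apply lin_ext
    intro w a
    rcases w with _ | ⟨i, w⟩
    · simp [filt_single]
    · by_cases h : w.length = m <;> simp [filt_single, h]
  exact LinearMap.congr_fun h z

theorem filt_mp (φ : M →ₗ[f] N) (m : ℕ) (z : List I →₀ M) :
    mp φ (filt f m z) = filt f m (mp φ z) := by
  ext w
  rw [mp_apply, filt_apply, filt_apply, mp_apply]
  split_ifs <;> simp

theorem filt_filt (m : ℕ) (z : List I →₀ M) : filt f m (filt f m z) = filt f m z := by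
  ext w
  rw [filt_apply, filt_apply]
  split_ifs <;> rfl

theorem filt_C {Q : Type*} [AddCommGroup Q] [Module f Q] (P : I → I → Q) (m : ℕ)
    {z : List I →₀ M} (hz : z ∈ C f P M) : filt f m z ∈ C f P M := by
  induction m generalizing z with
  | zero =>
    rw [C_iff]
    refine ⟨fun μ => filt_quad_zero _ _, fun i => ?_⟩
    rw [filt_tl_zero]
    exact zero_mem _
  | succ m ih =>
    rw [C_iff]
    refine ⟨fun μ => ?_, fun i => ?_⟩
    · cases m with
      | zero => exact filt_quad_one _ _
      | succ m =>
        rw [filt_quad, ((C_iff P).1 hz).1 μ, map_zero]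
    · rw [filt_tl]
      exact ih (C_tl P i hz)

theorem filt_one_C {Q : Type*} [AddCommGroup Q] [Module f Q] (P : I → I → Q)
    (z : List I →₀ M) : filt f 1 z ∈ C f P M := by
  rw [C_iff]
  refine ⟨fun μ => filt_quad_one _ _, fun i => ?_⟩
  rw [filt_tl]
  have h : filt f 0 (tl f i z) = single [] (tl f i z []) := by
    ext w
    rw [filt_apply]
    cases w with
    | nil => simp
    | cons j w => simp
  rw [h]
  exact C_nil P _

end filt

section stage

variable {f : Type} [Field f] {I : Type u} {A : Type u} [Ring A] [Algebra f A]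

theorem dR_smul (v : I → A) (a : A) (z : List I →₀ A) : dR f v (a • z) = a • dR f v z := by
  induction z using Finsupp.induction_linear with
  | zero => simp
  | add x y hx hy => rw [smul_add, map_add, hx, hy, map_add, smul_add]
  | single w m =>
    rw [Finsupp.smul_single, smul_eq_mul]
    unfold dR
    cases w with
    | nil => rw [dif_nil, dif_nil, smul_zero]
    | cons i w =>
      rw [dif_cons, dif_cons, Finsupp.smul_single, LinearMap.mulRight_apply,
        LinearMap.mulRight_apply, smul_eq_mul, mul_assoc]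

/-- the differential, linear over the coefficient ring -/
noncomputable def dRA (f : Type) [Field f] {I : Type u} {A : Type u} [Ring A] [Algebra f A]
    (v : I → A) : (List I →₀ A) →ₗ[A] (List I →₀ A) where
  toFun := dR f v
  map_add' := map_add _
  map_smul' := dR_smul v

/-- generators for the tensors of length `n` -/
structure Stg (f : Type) [Field f] {I : Type u} {A : Type u} [Ring A] [Algebra f A]
    (v : I → A) (n : ℕ) where
  ι : Type u
  β : ι → (List I →₀ A)
  mem : ∀ κ, β κ ∈ C f (pr v) A
  len : ∀ κ, filt f n (β κ) = β κ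
  val : ∀ κ w, ∃ c : f, β κ w = algebraMap f A c
  inj : ∀ g : ι →₀ A, linearCombination A β g = 0 → g = 0
  surj : ∀ z ∈ C f (pr v) A, filt f n z = z → ∀ S : Submodule f A, (∀ w, z w ∈ S) →
    ∃ g : ι →₀ A, (∀ κ, g κ ∈ S) ∧ linearCombination A β g = z

/-- the tensors of length `n` with coefficients in the base field -/
noncomputable def Cn (f : Type) [Field f] {I : Type u} {A : Type u} [Ring A] [Algebra f A] (v : I → A)
    (n : ℕ) : Submodule f (List I →₀ f) :=
  C f (pr v) f ⊓ LinearMap.eqLocus (filt f n) LinearMap.id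

theorem mem_Cn {v : I → A} {n : ℕ} {z : List I →₀ f} :
    z ∈ Cn f v n ↔ z ∈ C f (pr v) f ∧ filt f n z = z := Iff.rfl

theorem lc_single {ι : Type u} (b : ι → (List I →₀ f)) (κ : ι) (a : A) :
    linearCombination A (fun κ => mp (Algebra.linearMap f A) (b κ)) (single κ a) =
      mp (LinearMap.toSpanSingleton f A a) (b κ) := by
  rw [linearCombination_single]
  ext w
  rw [Finsupp.smul_apply, mp_apply, mp_apply, Algebra.linearMap_apply, smul_eq_mul,
    LinearMap.toSpanSingleton_apply, Algebra.smul_def, Algebra.commutes]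

theorem lc_map {ι : Type u} (b : ι → (List I →₀ f)) (π : A →ₗ[f] A) (g : ι →₀ A) :
    linearCombination A (fun κ => mp (Algebra.linearMap f A) (b κ))
        (Finsupp.mapRange.linearMap π g) =
      mp π (linearCombination A (fun κ => mp (Algebra.linearMap f A) (b κ)) g) := by
  induction g using Finsupp.induction_linear with
  | zero => simp
  | add x y hx hy => rw [map_add, map_add, hx, hy, map_add, map_add]
  | single κ a =>
    rw [Finsupp.mapRange.linearMap_apply, Finsupp.mapRange_single, lc_single, lc_single, mp_comp]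
    congr 1
    ext
    simp

theorem lc_fun {ι : Type u} (b : ι → (List I →₀ f)) (μ : A →ₗ[f] f) (g : ι →₀ A) :
    linearCombination f b (Finsupp.mapRange.linearMap μ g) =
      mp μ (linearCombination A (fun κ => mp (Algebra.linearMap f A) (b κ)) g) := by
  induction g using Finsupp.induction_linear with
  | zero => simp
  | add x y hx hy => rw [map_add, map_add, hx, hy, map_add, map_add]
  | single κ a =>
    rw [Finsupp.mapRange.linearMap_apply, Finsupp.mapRange_single, lc_single,
      linearCombination_single, mp_comp]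
    ext w
    rw [Finsupp.smul_apply, mp_apply, LinearMap.comp_apply, LinearMap.toSpanSingleton_apply,
      map_smul, smul_eq_mul, smul_eq_mul, mul_comm]

theorem lc_range {v : I → A} {n : ℕ} {ι : Type u} (b : ι → (List I →₀ f))
    (hs : Submodule.span f (Set.range b) = Cn f v n) (z : List I →₀ A)
    (hz : z ∈ C f (pr v) A) (hl : filt f n z = z) :
    ∃ g : ι →₀ A, linearCombination A (fun κ => mp (Algebra.linearMap f A) (b κ)) g = z := by
  classical
  let R : Submodule f (List I →₀ A) := (LinearMap.range
    (linearCombination A (fun κ => mp (Algebra.linearMap f A) (b κ)))).restrictScalars f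
  have hR : ∀ (a : A) (c : List I →₀ f), c ∈ Cn f v n →
      mp (LinearMap.toSpanSingleton f A a) c ∈ R := by
    intro a c hc
    rw [← hs] at hc
    have h1 : Submodule.span f (Set.range b) ≤ R.comap (mp (LinearMap.toSpanSingleton f A a)) := by
      rw [Submodule.span_le]
      rintro _ ⟨κ, rfl⟩
      exact ⟨single κ a, lc_single b κ a⟩
    exact h1 hc
  let e := Module.Basis.ofVectorSpace f A
  let T := z.support.biUnion (fun w => (e.repr (z w)).support)
  have hsum : z = ∑ t ∈ T, mp (LinearMap.toSpanSingleton f A (e t)) (mp (e.coord t) z) := by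
    ext w
    rw [Finsupp.finsetSum_apply]
    simp only [mp_apply, LinearMap.toSpanSingleton_apply, Module.Basis.coord_apply]
    by_cases hw : z w = 0
    · rw [hw]
      simp
    · conv_lhs => rw [← e.linearCombination_repr (z w), Finsupp.linearCombination_apply,
        Finsupp.sum]
      apply Finset.sum_subset
      · exact Finset.subset_biUnion_of_mem (fun w => (e.repr (z w)).support)
          (Finsupp.mem_support_iff.2 hw)
      · intro t _ ht
        rw [Finsupp.notMem_support_iff.1 ht, zero_smul]
  have hmem : z ∈ R := by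
    rw [hsum]
    refine Submodule.sum_mem _ fun t _ => hR _ _ ?_
    rw [mem_Cn]
    refine ⟨C_mp _ _ hz, ?_⟩
    rw [← filt_mp, hl]
  exact hmem

/-- a basis of the tensors of length `n` gives generators -/
noncomputable def stg {v : I → A} {n : ℕ} (ι : Type u) (b : ι → (List I →₀ f))
    (hb : LinearIndependent f b) (hs : Submodule.span f (Set.range b) = Cn f v n) :
    Stg f v n where
  ι := ι
  β := fun κ => mp (Algebra.linearMap f A) (b κ)
  mem := fun κ => by
    have h : b κ ∈ Cn f v n := by
      rw [← hs]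
      exact Submodule.subset_span ⟨κ, rfl⟩
    exact C_mp _ _ h.1
  len := fun κ => by
    have h : b κ ∈ Cn f v n := by
      rw [← hs]
      exact Submodule.subset_span ⟨κ, rfl⟩
    rw [← filt_mp, (mem_Cn.1 h).2]
  val := fun κ w => ⟨b κ w, by rw [mp_apply, Algebra.linearMap_apply]⟩
  inj := fun g hg => by
    ext κ
    rw [Finsupp.zero_apply, ← Module.forall_dual_apply_eq_zero_iff f (g κ)]
    intro μ
    have h1 := lc_fun b μ g
    rw [hg, map_zero] at h1
    have h2 := (linearIndependent_iff.1 hb) _ h1
    have h3 := DFunLike.congr_fun h2 κ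
    rw [Finsupp.mapRange.linearMap_apply, Finsupp.mapRange_apply, Finsupp.zero_apply] at h3
    exact h3
  surj := fun z hz hl S hS => by
    obtain ⟨g, hg⟩ := lc_range b hs z hz hl
    obtain ⟨q, hq⟩ := LinearMap.exists_leftInverse_of_injective S.subtype (Submodule.ker_subtype S)
    let π : A →ₗ[f] A := S.subtype ∘ₗ q
    refine ⟨Finsupp.mapRange.linearMap π g, fun κ => ?_, ?_⟩
    · rw [Finsupp.mapRange.linearMap_apply, Finsupp.mapRange_apply]
      exact (q (g κ)).2
    · rw [lc_map, hg]
      ext w
      rw [mp_apply]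
      have h1 := LinearMap.congr_fun hq ⟨z w, hS w⟩
      have h2 : q (z w) = ⟨z w, hS w⟩ := h1
      show ((q (z w) : S) : A) = z w
      rw [h2]

theorem exists_stg (v : I → A) (n : ℕ) : Nonempty (Stg f v n) := by
  let e := Module.Basis.ofVectorSpace f (Cn f v n)
  refine ⟨stg (Module.Basis.ofVectorSpaceIndex f (Cn f v n))
    (fun κ => (e κ : List I →₀ f)) ?_ ?_⟩
  · exact e.linearIndependent.map' (Cn f v n).subtype (Submodule.ker_subtype _)
  · have h1 : Set.range (fun κ => (e κ : List I →₀ f)) =
        (Cn f v n).subtype '' Set.range e := by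
      rw [← Set.range_comp]
      rfl
    rw [h1, ← Submodule.map_span, e.span_eq, Submodule.map_subtype_top]

theorem exists_stg_zero (v : I → A) : ∃ (s : Stg f v 0) (o : s.ι), (∀ i, i = o) ∧
    s.β o = single [] 1 := by
  have hb : LinearIndependent f (fun _ : PUnit.{u + 1} => (single [] 1 : List I →₀ f)) := by
    rw [linearIndependent_unique_iff]
    intro h
    have h1 := DFunLike.congr_fun h []
    rw [Finsupp.single_eq_same] at h1
    exact one_ne_zero h1
  have hs : Submodule.span f (Set.range (fun _ : PUnit.{u + 1} => (single [] 1 : List I →₀ f))) =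
      Cn f v 0 := by
    rw [Set.range_const]
    apply le_antisymm
    · rw [Submodule.span_singleton_le_iff_mem, mem_Cn]
      refine ⟨C_nil _ _, ?_⟩
      rw [filt_single]
      simp
    · intro z hz
      rw [mem_Cn] at hz
      rw [Submodule.mem_span_singleton]
      refine ⟨z [], ?_⟩
      ext w
      rw [Finsupp.smul_apply]
      cases w with
      | nil => simp
      | cons i w =>
        have h := DFunLike.congr_fun hz.2 (i :: w)
        rw [filt_apply, if_neg (by simp)] at h
        rw [← h]
        simp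
  refine ⟨stg PUnit.{u + 1} _ hb hs, PUnit.unit, fun _ => rfl, ?_⟩
  show mp (Algebra.linearMap f A) (single [] 1) = single [] 1
  rw [mp_single, Algebra.linearMap_apply, map_one]

end stage

section proj

variable {f : Type} [Field f] {A : Type u} [Ring A] [Algebra f A]
  {𝒜 : ℕ → Submodule f A} (h𝒜 : IsConnectedGrading 𝒜)

include h𝒜 in
theorem exists_pj : ∃ pj : ℕ → (A →ₗ[f] A), (∀ j a, pj j a ∈ 𝒜 j) ∧
    (∀ j, ∀ a ∈ 𝒜 j, pj j a = a) ∧ (∀ i j, i ≠ j → ∀ a ∈ 𝒜 i, pj j a = 0) ∧
    (∀ a, ∃ J : Finset ℕ, (∀ j, j ∉ J → pj j a = 0) ∧ ∑ j ∈ J, pj j a = a) := by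
  classical
  let e : (DirectSum ℕ fun i => 𝒜 i) ≃ₗ[f] A :=
    LinearEquiv.ofBijective (DirectSum.coeLinearMap 𝒜) h𝒜.internal
  let pj : ℕ → (A →ₗ[f] A) := fun j =>
    (𝒜 j).subtype ∘ₗ DirectSum.component f ℕ (fun i => 𝒜 i) j ∘ₗ e.symm.toLinearMap
  have hpj : ∀ j a, pj j a = ((e.symm a) j : A) := fun j a => rfl
  have hsym : ∀ i (a : 𝒜 i), e.symm (a : A) = DirectSum.lof f ℕ (fun i => 𝒜 i) i a := by
    intro i a
    rw [LinearEquiv.symm_apply_eq]
    exact (DirectSum.coeLinearMap_lof 𝒜 i a).symm
  refine ⟨pj, fun j a => ?_, fun j a ha => ?_, fun i j hij a ha => ?_, fun a => ?_⟩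
  · rw [hpj]
    exact SetLike.coe_mem _
  · rw [hpj, hsym j ⟨a, ha⟩, DirectSum.lof_apply]
  · rw [hpj, hsym i ⟨a, ha⟩, DirectSum.lof_eq_of, DirectSum.of_eq_of_ne _ _ _ (Ne.symm hij)]
    rfl
  · refine ⟨(e.symm a).support, fun j hj => ?_, ?_⟩
    · rw [hpj, DFinsupp.notMem_support_iff.1 hj]
      rfl
    · have h1 : e (e.symm a) = a := e.apply_symm_apply a
      conv_rhs => rw [← h1]
      show _ = DirectSum.coeLinearMap 𝒜 (e.symm a)
      rw [DirectSum.coeLinearMap_eq_dfinsuppSum]
      rfl

include h𝒜 in
theorem grading_induction {P : A → Prop} (hadd : ∀ a b, P a → P b → P (a + b)) (h0 : P 0)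
    (h : ∀ n, ∀ a ∈ 𝒜 n, P a) (a : A) : P a := by
  have h1 : a ∈ ⨆ n, 𝒜 n := by
    rw [h𝒜.internal.submodule_iSup_eq_top]
    trivial
  exact Submodule.iSup_induction 𝒜 (motive := P) h1 h h0 hadd

end proj

theorem dR_val {f : Type} [Field f] {I : Type u} {A : Type u} [Ring A] [Algebra f A] (v : I → A)
    (T : Submodule f A) (hT : ∀ a i, a * v i ∈ T) (z : List I →₀ A) (w : List I) :
    dR f v z w ∈ T := by
  classical
  induction z using Finsupp.induction_linear with
  | zero =>
    rw [map_zero, Finsupp.zero_apply]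
    exact zero_mem _
  | add x y hx hy =>
    rw [map_add, Finsupp.add_apply]
    exact add_mem hx hy
  | single w' m =>
    unfold dR
    cases w' with
    | nil =>
      rw [dif_nil, Finsupp.zero_apply]
      exact zero_mem _
    | cons i w' =>
      rw [dif_cons, Finsupp.single_apply]
      split_ifs
      · exact hT m i
      · exact zero_mem _

theorem aug_surj {f : Type} [Field f] {I : Type u} {A : Type u} [Ring A] [Algebra f A] (v : I → A)
    {𝒜 : ℕ → Submodule f A} (hsp : sp f v = 𝒜 1) (hp : ∀ n, 𝒜 n = 𝒜 1 ^ n) (a : A)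
    (ha : a ∈ ⨆ n, 𝒜 (n + 1)) : ∃ z : List I →₀ A, dR f v z [] = a := by
  let L : Submodule f A := LinearMap.range ((Finsupp.lapply []) ∘ₗ (dR f v))
  suffices h : (⨆ n, 𝒜 (n + 1)) ≤ L from h ha
  refine iSup_le fun n => ?_
  rw [hp (n + 1), pow_succ]
  intro x hx
  refine Submodule.mul_induction_on hx ?_ ?_
  · intro b _ c hc
    rw [← hsp, sp] at hc
    have h1 : Submodule.span f (Set.range v) ≤ L.comap (LinearMap.mulLeft f b) := by
      rw [Submodule.span_le]
      rintro _ ⟨i, rfl⟩
      refine ⟨single [i] b, ?_⟩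
      show dR f v (single [i] b) [] = b * v i
      unfold dR
      rw [dif_cons, Finsupp.single_eq_same, LinearMap.mulRight_apply]
    exact h1 hc
  · intro x y hx hy
    exact add_mem hx hy

theorem exact_at {f : Type} [Field f] {I : Type u} {A : Type u} [Ring A] [Algebra f A] (v : I → A)
    {𝒜 : ℕ → Submodule f A} (h𝒜 : IsConnectedGrading 𝒜) (hB : LinearIndependent f v)
    (hspn : ∀ j, sp f v ^ j = 𝒜 j) (hK : Kos f v) (n : ℕ) (z : List I →₀ A)
    (hz : z ∈ C f (pr v) A) (hl : filt f (n + 1) z = z) (hdz : dR f v z = 0) :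
    ∃ y ∈ C f (pr v) A, dR f v y = z := by
  classical
  obtain ⟨pj, hpj1, hpj2, hpj3, hpj4⟩ := exists_pj h𝒜
  have hv1 : ∀ i, v i ∈ 𝒜 1 := fun i => by
    rw [← hspn 1, pow_one]
    exact Submodule.subset_span ⟨i, rfl⟩
  have hpjm : ∀ j i (a : A), pj (j + 1) (a * v i) = pj j a * v i := by
    intro j i
    refine grading_induction h𝒜 ?_ ?_ ?_
    · intro a b ha hb
      rw [add_mul, map_add, ha, hb, map_add, add_mul]
    · rw [zero_mul, map_zero, map_zero, zero_mul]
    · intro m a ha
      have h1 := h𝒜.mul m 1 a ha (v i) (hv1 i)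
      by_cases hm : m = j
      · subst hm
        rw [hpj2 _ _ h1, hpj2 _ _ ha]
      · rw [hpj3 (m + 1) (j + 1) (by omega) _ h1, hpj3 m j hm _ ha, zero_mul]
  let K : Submodule f (List I →₀ A) := (C f (pr v) A).map (dR f v)
  have hzj : ∀ j, mp (pj j) z ∈ C f (pr v) A := fun j => C_mp _ _ hz
  have hdj : ∀ j, dR f v (mp (pj j) z) = 0 := by
    intro j
    have h1 : dR f v (mp (pj j) z) = mp (pj (j + 1)) (dR f v z) := by
      unfold dR
      rw [dif_mp, mp_dif]
      congr 2
      funext i
      ext a
      exact (hpjm j i a).symm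
    rw [h1, hdz, map_zero]
  have hKj : ∀ j, mp (pj j) z ∈ K := by
    intro j
    cases j with
    | zero =>
      have h0 : mp (pj 0) z = 0 := by
        ext w
        rw [Finsupp.zero_apply]
        cases w with
        | nil =>
          rw [mp_apply]
          have h1 := DFunLike.congr_fun hl []
          rw [filt_apply, if_neg (by simp)] at h1
          rw [← h1, map_zero]
        | cons i w =>
          by_contra hne
          let s : Finset I := (mp (pj 0) z).support.biUnion (fun w' => w'.toFinset)
          have hs : ∀ i', (mp (pj 0) z) (i' :: w) ≠ 0 → i' ∈ s := by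
            intro i' hi'
            exact Finset.mem_biUnion.2 ⟨i' :: w, Finsupp.mem_support_iff.2 hi', by simp⟩
          have h2 : dR f v (mp (pj 0) z) w =
              ∑ i' ∈ s, (mp (pj 0) z) (i' :: w) * v i' := by
            unfold dR
            rw [dif_apply _ _ w s hs]
            rfl
          rw [hdj 0, Finsupp.zero_apply] at h2
          have h3 : ∀ i', ∃ c : f, (mp (pj 0) z) (i' :: w) = c • (1 : A) := by
            intro i'
            have h4 : (mp (pj 0) z) (i' :: w) ∈ 𝒜 0 := by
              rw [mp_apply]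
              exact hpj1 0 _
            rw [h𝒜.zero, Submodule.mem_span_singleton] at h4
            obtain ⟨c, hc⟩ := h4
            exact ⟨c, hc.symm⟩
          choose c hc using h3
          have h5 : ∑ i' ∈ s, c i' • v i' = 0 := by
            rw [h2]
            refine Finset.sum_congr rfl fun i' _ => ?_
            rw [hc i', smul_mul_assoc, one_mul]
          have h6 := linearIndependent_iff'.1 hB s c h5 i (hs i hne)
          apply hne
          rw [hc i, h6, zero_smul]
      rw [h0]
      exact zero_mem _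
    | succ j =>
      obtain ⟨y, hy, -, hyz⟩ := hK j (mp (pj (j + 1)) z) (hzj _) (fun w => by
        rw [hspn, mp_apply]
        exact hpj1 _ _) (hdj _)
      exact ⟨y, hy, hyz⟩
  choose J hJ1 hJ2 using hpj4
  let T : Finset ℕ := z.support.biUnion (fun w => J (z w))
  have hsum : z = ∑ j ∈ T, mp (pj j) z := by
    ext w
    rw [Finsupp.finsetSum_apply]
    simp only [mp_apply]
    by_cases hw : z w = 0
    · rw [hw]
      simp
    · conv_lhs => rw [← hJ2 (z w)]
      apply Finset.sum_subset
      · exact Finset.subset_biUnion_of_mem (fun w => J (z w)) (Finsupp.mem_support_iff.2 hw)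
      · intro j _ hj
        exact hJ1 _ j hj
  have hmem : z ∈ K := by
    rw [hsum]
    exact Submodule.sum_mem _ fun j _ => hKj j
  obtain ⟨y, hy, hyz⟩ := hmem
  exact ⟨y, hy, hyz⟩

theorem koszul_of_kos {f : Type} [Field f] {A : Type u} [Ring A] [Algebra f A]
    {𝒜 : ℕ → Submodule f A} (h𝒜 : IsConnectedGrading 𝒜) (hp : ∀ n, 𝒜 n = 𝒜 1 ^ n)
    (B : Set A) (hB : LinearIndependent f (Subtype.val : B → A)) (hs : Submodule.span f B = 𝒜 1)
    (hK : Kos f (Subtype.val : B → A)) : IsKoszul 𝒜 := by
  classical
  obtain ⟨v, hv⟩ : ∃ v : B → A, v = Subtype.val := ⟨_, rfl⟩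
  rw [← hv] at hB hK
  have hsp : sp f v = 𝒜 1 := by
    rw [sp, hv, Subtype.range_coe]
    exact hs
  have hspn : ∀ j, sp f v ^ j = 𝒜 j := fun j => by rw [hsp, ← hp]
  have hv1 : ∀ i, v i ∈ 𝒜 1 := fun i => by
    rw [← hsp]
    exact Submodule.subset_span ⟨i, rfl⟩
  obtain ⟨s0, o, ho, hβ0⟩ := exists_stg_zero (f := f) v
  have hne := fun n => exists_stg (f := f) v n
  let sS : ∀ n, Stg f v n := fun n => (hne n).some
  let st : ∀ n, Stg f v n := fun n => match n with
    | 0 => s0
    | n + 1 => sS (n + 1)
  -- the differentials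
  have hD : ∀ n (κ : (st (n + 1)).ι), ∃ g : (st n).ι →₀ A, (∀ j, g j ∈ 𝒜 1) ∧
      linearCombination A (st n).β g = dR f v ((st (n + 1)).β κ) := by
    intro n κ
    refine (st n).surj _ (C_dif _ _ ((st (n + 1)).mem κ)) ?_ (𝒜 1) ?_
    · have h1 := (st (n + 1)).len κ
      conv_rhs => rw [← h1]
      exact (filt_dif _ n _).symm
    · intro w
      have h1 := dR_mem (f := f) v hv1 0 (z := (st (n + 1)).β κ) (fun w => by
        obtain ⟨c, hc⟩ := (st (n + 1)).val κ w
        rw [pow_zero, hc]
        exact Submodule.algebraMap_mem c) w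
      rwa [zero_add, pow_one] at h1
  choose D hD1 hD2 using hD
  let d : ∀ n, ((st (n + 1)).ι →₀ A) →ₗ[A] ((st n).ι →₀ A) := fun n =>
    linearCombination A (D n)
  have hcomm : ∀ n (x : (st (n + 1)).ι →₀ A),
      linearCombination A (st n).β (d n x) =
        dR f v (linearCombination A (st (n + 1)).β x) := by
    intro n x
    have h1 : (linearCombination A (st n).β) ∘ₗ (d n) =
        (dRA f v) ∘ₗ (linearCombination A (st (n + 1)).β) := by
      apply Finsupp.lhom_ext
      intro κ a
      rw [LinearMap.comp_apply, LinearMap.comp_apply]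
      show linearCombination A (st n).β (linearCombination A (D n) (single κ a)) = _
      rw [linearCombination_single, linearCombination_single, map_smul, hD2, map_smul]
      rfl
    exact LinearMap.congr_fun h1 x
  have hLC : ∀ n (x : (st n).ι →₀ A), linearCombination A (st n).β x ∈ C f (pr v) A ∧
      filt f n (linearCombination A (st n).β x) = linearCombination A (st n).β x := by
    intro n x
    induction x using Finsupp.induction_linear with
    | zero =>
      rw [map_zero, map_zero]
      exact ⟨zero_mem _, rfl⟩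
    | add x y hx hy =>
      rw [map_add, map_add, hx.2, hy.2]
      exact ⟨add_mem hx.1 hy.1, rfl⟩
    | single κ a =>
      rw [linearCombination_single]
      have h1 : a • (st n).β κ = mp (LinearMap.mulLeft f a) ((st n).β κ) := by
        ext w
        rw [Finsupp.smul_apply, mp_apply, LinearMap.mulLeft_apply, smul_eq_mul]
      rw [h1]
      refine ⟨C_mp _ _ ((st n).mem κ), ?_⟩
      rw [← filt_mp, (st n).len κ]
  refine ⟨h𝒜, fun n => (st n).ι, d, o, ho, ?_, ?_, ?_⟩
  · intro n i j
    show linearCombination A (D n) (single i 1) j ∈ 𝒜 1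
    rw [linearCombination_single, one_smul]
    exact hD1 n i j
  · intro g
    have h0 : ∀ g : (st 0).ι →₀ A, linearCombination A (st 0).β g = single [] (g o) := by
      intro g
      have h1 : g = single o (g o) := by
        ext i
        rw [ho i, Finsupp.single_eq_same]
      conv_lhs => rw [h1]
      rw [linearCombination_single]
      show g o • s0.β o = _
      rw [hβ0, Finsupp.smul_single, smul_eq_mul, mul_one]
    have hmul : ∀ (c : A), c ∈ 𝒜 1 → ∀ a : A, a * c ∈ ⨆ n, 𝒜 (n + 1) := by
      intro c hc
      refine grading_induction h𝒜 ?_ ?_ ?_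
      · intro a b ha hb
        rw [add_mul]
        exact add_mem ha hb
      · rw [zero_mul]
        exact zero_mem _
      · intro n a ha
        exact (le_iSup (fun n => 𝒜 (n + 1)) n) (h𝒜.mul n 1 a ha c hc)
    constructor
    · rintro ⟨x, rfl⟩
      have h1 := hcomm 0 x
      rw [h0] at h1
      have h2 := DFunLike.congr_fun h1 []
      rw [Finsupp.single_eq_same] at h2
      rw [h2]
      exact dR_val v (⨆ n, 𝒜 (n + 1)) (fun a i => hmul _ (hv1 i) a) _ _
    · intro hg
      obtain ⟨z, hz⟩ := aug_surj v (𝒜 := 𝒜) hsp hp (g o) hg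
      obtain ⟨x, -, hx⟩ := (st 1).surj (filt f 1 z) (filt_one_C _ z) (filt_filt 1 z) ⊤
        (fun _ => trivial)
      refine ⟨x, ?_⟩
      rw [← sub_eq_zero]
      apply (st 0).inj
      rw [map_sub, hcomm 0 x, hx, h0, sub_eq_zero]
      have h3 : dR f v (filt f 1 z) = filt f 0 (dR f v z) := filt_dif _ 0 z
      rw [h3]
      ext w
      rw [filt_apply]
      cases w with
      | nil => rw [if_pos List.length_nil, hz, Finsupp.single_eq_same]
      | cons i w =>
        rw [if_neg (by simp), Finsupp.single_eq_of_ne (by simp)]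
  · intro n
    ext x
    rw [LinearMap.mem_ker, LinearMap.mem_range]
    constructor
    · intro hx
      obtain ⟨hz, hl⟩ := hLC (n + 1) x
      have hdz : dR f v (linearCombination A (st (n + 1)).β x) = 0 := by
        rw [← hcomm n x, hx, map_zero]
      obtain ⟨y, hy, hyz⟩ := exact_at v h𝒜 hB hspn hK n _ hz hl hdz
      obtain ⟨g, -, hg⟩ := (st (n + 2)).surj (filt f (n + 2) y) (filt_C _ _ hy) (filt_filt _ y) ⊤
        (fun _ => trivial)
      refine ⟨g, ?_⟩
      rw [← sub_eq_zero]
      apply (st (n + 1)).inj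
      rw [map_sub, hcomm (n + 1) g, hg, sub_eq_zero]
      have h3 : dR f v (filt f (n + 2) y) = filt f (n + 1) (dR f v y) := filt_dif _ (n + 1) y
      rw [h3, hyz, hl]
    · rintro ⟨y, rfl⟩
      apply (st n).inj
      rw [hcomm n, hcomm (n + 1)]
      exact dR_dR v (hLC (n + 2) y).1

end Pool.Agent.KRat
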