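import Pool.Agent.KRat.PSymB
import Pool.Agent.KRat.QuadB

/-!
Row GEN: generators of the next stage.
-/

set_option autoImplicit false

namespace Pool.Agent.KRat

open Finsupp Pool.Agent.KMil Polynomial

universe u

section GenAux

variable {f : Type} [Field f] {I : Type*} {A : Type*} [Ring A] [Algebra f A]

/-- the elements of the required form -/
private noncomputable def gDec (V : Submodule f A) (s : I → A) (n : ℕ) : Submodule f A where
  carrier := {x | ∃ x0 ∈ V ^ (n + 1), ∃ c : I →₀ A,
      (∀ i, c i ∈ V ^ n) ∧ x = x0 + c.sum (fun i a => s i * a)}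
  add_mem' := by
    classical
    rintro x y ⟨x0, hx0, c, hc, rfl⟩ ⟨y0, hy0, c', hc', rfl⟩
    refine ⟨x0 + y0, add_mem hx0 hy0, c + c', fun i => add_mem (hc i) (hc' i), ?_⟩
    rw [Finsupp.sum_add_index' (fun i => mul_zero _) (fun i a b => mul_add _ _ _)]
    abel
  zero_mem' := ⟨0, zero_mem _, 0, fun i => zero_mem _, by rw [Finsupp.sum_zero_index, add_zero]⟩
  smul_mem' := by
    rintro a x ⟨x0, hx0, c, hc, rfl⟩
    refine ⟨a • x0, Submodule.smul_mem _ _ hx0, a • c,
      fun i => Submodule.smul_mem _ _ (hc i), ?_⟩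
    rw [Finsupp.sum_smul_index' (fun i => mul_zero _), smul_add, Finsupp.smul_sum]
    simp only [mul_smul_comm]

private theorem gDec_left {V : Submodule f A} {s : I → A} {n : ℕ} {x : A}
    (hx : x ∈ V ^ (n + 1)) : x ∈ gDec V s n :=
  ⟨x, hx, 0, fun i => zero_mem _, by rw [Finsupp.sum_zero_index, add_zero]⟩

private theorem gDec_right {V : Submodule f A} {s : I → A} {n : ℕ} (i : I) {m : A}
    (hm : m ∈ V ^ n) : s i * m ∈ gDec V s n := by
  classical
  refine ⟨0, zero_mem _, Finsupp.single i m, fun j => ?_, ?_⟩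
  · rw [Finsupp.single_apply]
    split_ifs
    · exact hm
    · exact zero_mem _
  · rw [Finsupp.sum_single_index (mul_zero _), zero_add]

private theorem gPow_le {V U : Submodule f A} (hVU : V ≤ U) (m : ℕ) : V ^ m ≤ U ^ m := by
  induction m with
  | zero => rw [pow_zero, pow_zero]
  | succ m ih =>
    rw [pow_succ, pow_succ]
    exact Submodule.mul_le.2 fun a ha b hb => Submodule.mul_mem_mul (ih ha) (hVU hb)

private theorem gSgn {W : Submodule f A} (N : ℕ) {z : A} (hz : z ∈ W) :
    (-1 : A) ^ N * z ∈ W := by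
  rcases neg_one_pow_eq_or A N with h | h
  · rw [h, one_mul]
    exact hz
  · rw [h, neg_one_mul]
    exact neg_mem hz

private theorem gDec_mul {V U : Submodule f A} {s : I → A} (hU : Anti (U : Set A)) (hVU : V ≤ U)
    (hs : ∀ i, s i ∈ U)
    (hss : ∀ i j, ∃ a ∈ V, ∃ b ∈ V, s i * s j = s i * a + s j * b) {n : ℕ} {y v : A}
    (hy : y ∈ gDec V s n) (hv : v ∈ V ⊔ Submodule.span f (Set.range s)) :
    y * v ∈ gDec V s (n + 1) := by
  obtain ⟨y0, hy0, c, hc, rfl⟩ := hy
  obtain ⟨v0, hv0, v1, hv1, rfl⟩ := Submodule.mem_sup.1 hv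
  clear hv
  rw [add_mul]
  refine add_mem ?_ ?_
  · rw [mul_add]
    refine add_mem ?_ ?_
    · apply gDec_left
      rw [pow_succ]
      exact Submodule.mul_mem_mul hy0 hv0
    · induction hv1 using Submodule.span_induction with
      | mem x hx =>
        obtain ⟨j, rfl⟩ := hx
        have h2 := comm_pow hU (n + 1) (gPow_le hVU _ hy0) (hs j)
        rw [h2]
        exact gSgn _ (gDec_right j hy0)
      | zero => rw [mul_zero]; exact zero_mem _
      | add x z _ _ h2 h3 =>
        rw [mul_add]
        exact add_mem h2 h3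
      | smul a x _ h2 =>
        rw [mul_smul_comm]
        exact Submodule.smul_mem _ _ h2
  · rw [Finsupp.sum, Finset.sum_mul]
    refine Submodule.sum_mem _ fun i _ => ?_
    rw [mul_add]
    refine add_mem ?_ ?_
    · rw [mul_assoc]
      apply gDec_right
      rw [pow_succ]
      exact Submodule.mul_mem_mul (hc i) hv0
    · induction hv1 using Submodule.span_induction with
      | mem x hx =>
        obtain ⟨j, rfl⟩ := hx
        have h2 := comm_pow hU n (gPow_le hVU _ (hc i)) (hs j)
        obtain ⟨a, ha, b, hb, hab⟩ := hss i j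
        have h3 : s i * c i * s j = (-1 : A) ^ n * (s i * (a * c i) + s j * (b * c i)) := by
          have h4 : s i * (-1 : A) ^ n = (-1 : A) ^ n * s i :=
            ((Commute.neg_one_right (s i)).pow_right n).eq
          rw [mul_assoc, h2, ← mul_assoc (s i), h4, mul_assoc, ← mul_assoc (s i) (s j), hab,
            add_mul, mul_assoc (s i) a, mul_assoc (s j) b]
        rw [h3]
        apply gSgn
        refine add_mem (gDec_right i ?_) (gDec_right j ?_)
        · rw [pow_succ']
          exact Submodule.mul_mem_mul ha (hc i)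
        · rw [pow_succ']
          exact Submodule.mul_mem_mul hb (hc i)
      | zero => rw [mul_zero]; exact zero_mem _
      | add x z _ _ h2 h3 =>
        rw [mul_add]
        exact add_mem h2 h3
      | smul a x _ h2 =>
        rw [mul_smul_comm]
        exact Submodule.smul_mem _ _ h2

private theorem gDec_pow {V U V' : Submodule f A} {s : I → A} (hU : Anti (U : Set A)) (hVU : V ≤ U)
    (hs : ∀ i, s i ∈ U)
    (hss : ∀ i j, ∃ a ∈ V, ∃ b ∈ V, s i * s j = s i * a + s j * b)
    (hV' : V' ≤ V ⊔ Submodule.span f (Set.range s)) (n : ℕ) : V' ^ (n + 1) ≤ gDec V s n := by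
  induction n with
  | zero =>
    rw [zero_add, pow_one]
    refine hV'.trans (sup_le ?_ ?_)
    · intro x hx
      apply gDec_left
      rw [zero_add, pow_one]
      exact hx
    · refine Submodule.span_le.2 ?_
      rintro x ⟨i, rfl⟩
      have h1 : s i * 1 ∈ gDec V s 0 := by
        apply gDec_right
        rw [pow_zero]
        exact Submodule.one_le.1 le_rfl
      rw [mul_one] at h1
      exact h1
  | succ n ih =>
    rw [pow_succ]
    refine Submodule.mul_le.2 fun y hy v hv => ?_
    exact gDec_mul hU hVU hs hss (ih hy) (hV' hv)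

private theorem gNeg {W : Submodule f A} {z : A} (hz : z ∈ W) : -z ∈ W := neg_mem hz

/-- the product of two new generators, abstractly -/
private theorem gProd {x y z : A} (hx : x * x = 0) (hxy : x * y + y * x = 0)
    (h : (y - x) * (z - x) = 0) : x * y = x * z + y * (-z) := by
  have h7 : y * x = y * z - x * z := by
    have e1 : (y - x) * (z - x) = y * z - x * z - y * x + x * x := by
      rw [sub_mul, mul_sub, mul_sub]
      abel
    rw [h, hx, add_zero] at e1
    exact (sub_eq_zero.1 e1.symm).symm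
  rw [eq_neg_of_add_eq_zero_left hxy, h7, mul_neg]
  abel

end GenAux

variable (p : ℕ) (k : Type u) [Field k]

private theorem gen_pos_of_not_unit {r : k[X]} (hr : r ≠ 0) (hu : ¬ IsUnit r) :
    0 < r.natDegree := by
  by_contra h
  have h0 : r.natDegree = 0 := by omega
  have h1 := Polynomial.eq_C_of_natDegree_eq_zero h0
  apply hu
  rw [h1]
  apply Polynomial.isUnit_C.2
  apply isUnit_iff_ne_zero.2
  intro h2
  apply hr
  rw [h1, h2, map_zero]

private theorem gen_psym_le {d : ℕ} {q : k[X]} (hq : q ≠ 0) (hdeg : q.natDegree ≤ d) :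
    psym p k q ∈ VV p k d :=
  Submodule.subset_span ⟨q, hq, hdeg, rfl⟩

theorem VV_succ_le (d : ℕ) : VV p k (d + 1) ≤
    VV p k d ⊔ Submodule.span (ZMod p) (Set.range fun π : Pl k (d + 1) => psym p k π.1) := by
  refine Submodule.span_le.2 ?_
  rintro x ⟨q, hq, hdeg, rfl⟩
  rcases Nat.lt_or_ge q.natDegree (d + 1) with h | h
  · exact Submodule.mem_sup_left (gen_psym_le p k hq (by omega))
  · have hd : q.natDegree = d + 1 := le_antisymm hdeg h
    by_cases hi : Irreducible q
    · have ha : q.leadingCoeff ≠ 0 := leadingCoeff_ne_zero.2 hq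
      have hmon : (Polynomial.C q.leadingCoeff⁻¹ * q).Monic :=
        Polynomial.monic_C_mul_of_mul_leadingCoeff_eq_one (inv_mul_cancel₀ ha)
      have hqe : q = Polynomial.C q.leadingCoeff * (Polynomial.C q.leadingCoeff⁻¹ * q) := by
        rw [← mul_assoc, ← Polynomial.C_mul, mul_inv_cancel₀ ha, Polynomial.C_1, one_mul]
      have hun : IsUnit (Polynomial.C q.leadingCoeff⁻¹ : k[X]) :=
        Polynomial.isUnit_C.2 (isUnit_iff_ne_zero.2 (inv_ne_zero ha))
      have hirr : Irreducible (Polynomial.C q.leadingCoeff⁻¹ * q) :=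
        (irreducible_isUnit_mul hun).2 hi
      have hnd : (Polynomial.C q.leadingCoeff⁻¹ * q).natDegree = d + 1 := by
        rw [Polynomial.natDegree_C_mul (inv_ne_zero ha), hd]
      have hC : (Polynomial.C q.leadingCoeff : k[X]) ≠ 0 := Polynomial.C_ne_zero.2 ha
      have e : psym p k q = psym p k (Polynomial.C q.leadingCoeff) +
          psym p k (Polynomial.C q.leadingCoeff⁻¹ * q) := by
        rw [← psym_mul p k hC hmon.ne_zero, ← hqe]
      have m1 : psym p k (Polynomial.C q.leadingCoeff) ∈ VV p k d :=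
        gen_psym_le p k hC (by rw [Polynomial.natDegree_C]; exact Nat.zero_le _)
      have m2 : psym p k (Polynomial.C q.leadingCoeff⁻¹ * q) ∈
          Submodule.span (ZMod p) (Set.range fun π : Pl k (d + 1) => psym p k π.1) :=
        Submodule.subset_span ⟨⟨Polynomial.C q.leadingCoeff⁻¹ * q, hmon, hirr, hnd⟩, rfl⟩
      rw [SetLike.mem_coe, e]
      exact Submodule.add_mem_sup m1 m2
    · have hnu : ¬ IsUnit q := by
        intro hu
        have := Polynomial.natDegree_eq_zero_of_isUnit hu
        omega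
      have h2 : ∃ r s : k[X], q = r * s ∧ ¬ IsUnit r ∧ ¬ IsUnit s := by
        by_contra hcon
        apply hi
        rw [irreducible_iff]
        refine ⟨hnu, fun a b hab => ?_⟩
        by_contra hc
        exact hcon ⟨a, b, hab, fun h => hc (Or.inl h), fun h => hc (Or.inr h)⟩
      obtain ⟨r, s, rfl, hr, hs⟩ := h2
      have hr0 : r ≠ 0 := left_ne_zero_of_mul hq
      have hs0 : s ≠ 0 := right_ne_zero_of_mul hq
      have h3 := gen_pos_of_not_unit k hr0 hr
      have h4 := gen_pos_of_not_unit k hs0 hs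
      rw [Polynomial.natDegree_mul hr0 hs0] at hd
      rw [SetLike.mem_coe, psym_mul p k hr0 hs0]
      have m1 := gen_psym_le (d := d) p k hr0 (by omega)
      have m2 := gen_psym_le (d := d) p k hs0 (by omega)
      exact Submodule.mem_sup_left (Submodule.add_mem _ m1 m2)

theorem psym_pl_mem (d : ℕ) (π : Pl k (d + 1)) : psym p k π.1 ∈ VV p k (d + 1) :=
  gen_psym_le p k π.2.1.ne_zero π.2.2.2.le

/-- the product of two new generators -/
theorem psym_mul_psym [Fact p.Prime] (h1 : ∃ c : k, c ^ p = -1) (d : ℕ) (π ρ : Pl k (d + 1)) :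
    ∃ a ∈ VV p k d, ∃ b ∈ VV p k d,
      psym p k π.1 * psym p k ρ.1 = psym p k π.1 * a + psym p k ρ.1 * b := by
  have hanti := anti_KM p k h1
  have hsq : psym p k π.1 * psym p k π.1 = 0 := hanti.1 _ (psym_mem p k _)
  by_cases h : π.1 = ρ.1
  · refine ⟨0, Submodule.zero_mem _, 0, Submodule.zero_mem _, ?_⟩
    rw [← h, hsq, mul_zero, add_zero]
  · have hg : π.1 - ρ.1 ≠ 0 := sub_ne_zero.2 h
    have hgd : (π.1 - ρ.1).natDegree ≤ d := by
      have h2 : (π.1 - ρ.1).degree < π.1.degree := by
        apply Polynomial.degree_sub_lt_left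
        · rw [Polynomial.degree_eq_natDegree π.2.1.ne_zero,
            Polynomial.degree_eq_natDegree ρ.2.1.ne_zero, π.2.2.2, ρ.2.2.2]
        · exact π.2.1.ne_zero
        · rw [π.2.1.leadingCoeff, ρ.2.1.leadingCoeff]
      have h3 := Polynomial.natDegree_lt_natDegree hg h2
      have h4 := π.2.2.2
      omega
    have hmem : psym p k (π.1 - ρ.1) ∈ VV p k d := gen_psym_le p k hg hgd
    refine ⟨psym p k (π.1 - ρ.1), hmem, -psym p k (π.1 - ρ.1), gNeg hmem, ?_⟩
    have h5 := psym_add p k ρ.2.1.ne_zero hg π.2.1.ne_zero (by ring)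
    have h6 := hanti.2 _ (psym_mem p k π.1) _ (psym_mem p k ρ.1)
    exact gProd hsq h6 h5

theorem dec [Fact p.Prime] (h1 : ∃ c : k, c ^ p = -1) (d n : ℕ) : ∀ x ∈ VV p k (d + 1) ^ (n + 1),
    ∃ x0 ∈ VV p k d ^ (n + 1), ∃ c : Pl k (d + 1) →₀ KM p (RatFunc k),
      (∀ π, c π ∈ VV p k d ^ n) ∧ x = x0 + c.sum (fun π a => psym p k π.1 * a) := by
  intro x hx
  exact gDec_pow (anti_KM p k h1) (VV_le p k d) (fun π : Pl k (d + 1) => psym_mem p k π.1)
    (psym_mul_psym p k h1 d) (VV_succ_le p k d) n hx

end Pool.Agent.KRat
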