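import Pool.Agent.KRat.Sec

/-!
Row HOM: the homotopy on the Koszul complex with exterior coefficients.
-/

set_option autoImplicit false

namespace Pool.Agent.KRat

open Finsupp Pool.Agent.KMil

universe u

variable {f : Type} [Field f] {I : Type*} {W : Type*} [AddCommGroup W] [Module f W]
  {Q : Type*} [AddCommGroup Q] [Module f Q]

/-- the letter `i` acts by the product with `ω i` after the contraction against `Y` -/
private noncomputable def hom_g (ω : I → W) (Y : Module.Dual f W) (i : I) :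
    ExteriorAlgebra f W →ₗ[f] ExteriorAlgebra f W :=
  LinearMap.mulLeft f (ExteriorAlgebra.ι f (ω i)) ∘ₗ ctr Y

private theorem hom_dE (ω : I → W) (Y : Module.Dual f W) (z : List I →₀ ExteriorAlgebra f W) :
    dE ω (mp (ctr Y) z) = dif (hom_g ω Y) z :=
  dif_mp _ _ _

private theorem hom_dif_sub {M N : Type*} [AddCommGroup M] [Module f M] [AddCommGroup N]
    [Module f N] (g g' : I → M →ₗ[f] N) (z : List I →₀ M) :
    dif (fun i => g i - g' i) z = dif g z - dif g' z := by
  have : dif (fun i => g i - g' i) = dif g - dif g' := by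
    apply lin_ext
    intro w m
    cases w <;> simp
  exact LinearMap.congr_fun this z

private theorem hom_quad_sub {M N : Type*} [AddCommGroup M] [Module f M] [AddCommGroup N]
    [Module f N] (g g' : I → I → M →ₗ[f] N) (z : List I →₀ M) :
    quad (fun i j => g i j - g' i j) z = quad g z - quad g' z := by
  have : quad (fun i j => g i j - g' i j) = quad g - quad g' := by
    apply lin_ext
    intro w m
    rcases w with _ | ⟨i, _ | ⟨j, w⟩⟩ <;> simp
  exact LinearMap.congr_fun this z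

private theorem hom_con (ω : I → W) (Y : Module.Dual f W) (z : List I →₀ ExteriorAlgebra f W)
    (hd : dE ω z = 0) : con (fun i => Y (ω i)) z = dif (hom_g ω Y) z := by
  have h1 : mp (ctr Y) (dE ω z) = con (fun i => Y (ω i)) z - dif (hom_g ω Y) z := by
    unfold dE con
    rw [mp_dif, ← hom_dif_sub]
    congr 1
    congr 1
    funext i
    refine LinearMap.ext fun m => ?_
    simp [hom_g, ctr_ι_mul]
  rw [hd, map_zero] at h1
  exact (sub_eq_zero.1 h1.symm)

private theorem hom_comm (ω : I → W) (P : I → I → Q) (θ : Q →ₗ[f] ExteriorAlgebra f W)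
    (hθ : ∀ i j, θ (P i j) = ExteriorAlgebra.ι f (ω i) * ExteriorAlgebra.ι f (ω j))
    (Y : Module.Dual f W) (z : List I →₀ ExteriorAlgebra f W)
    (hz : z ∈ C f P (ExteriorAlgebra f W)) :
    dif (hom_g ω Y) (con (fun i => Y (ω i)) z) = con (fun i => Y (ω i)) (dif (hom_g ω Y) z) := by
  let B : Q →ₗ[f] ExteriorAlgebra f W →ₗ[f] ExteriorAlgebra f W :=
    ((LinearMap.mul f (ExteriorAlgebra f W)).compl₂ (ctr Y)) ∘ₗ (ctr Y) ∘ₗ θ
  have h0 := quad_eq_zero P B hz
  have h1 : (fun i j => B (P i j)) = fun i j => (hom_g ω Y j ∘ₗ (Y (ω i) • LinearMap.id)) -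
      ((Y (ω j) • LinearMap.id) ∘ₗ hom_g ω Y i) := by
    funext i j
    refine LinearMap.ext fun m => ?_
    have e1 : ctr Y (ExteriorAlgebra.ι f (ω j)) = algebraMap f _ (Y (ω j)) := by
      have := ctr_ι_mul Y (ω j) (1 : ExteriorAlgebra f W)
      rw [mul_one, ctr_one, mul_zero, sub_zero] at this
      rw [this, Algebra.algebraMap_eq_smul_one]
    have e2 : B (P i j) m = (Y (ω i) • ExteriorAlgebra.ι f (ω j) -
        ExteriorAlgebra.ι f (ω i) * algebraMap f _ (Y (ω j))) * ctr Y m := by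
      show ctr Y (θ (P i j)) * ctr Y m = _
      rw [hθ, ctr_ι_mul, e1]
    rw [e2, sub_mul, smul_mul_assoc, ← Algebra.commutes, mul_assoc, ← Algebra.smul_def]
    simp [hom_g]
  rw [h1, hom_quad_sub] at h0
  have h2 := sub_eq_zero.1 h0
  unfold con
  rw [dif_dif, dif_dif]
  exact h2

private theorem hom_comm_pow (ω : I → W) (P : I → I → Q) (θ : Q →ₗ[f] ExteriorAlgebra f W)
    (hθ : ∀ i j, θ (P i j) = ExteriorAlgebra.ι f (ω i) * ExteriorAlgebra.ι f (ω j))
    (Y : Module.Dual f W) (k : ℕ) (z : List I →₀ ExteriorAlgebra f W)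
    (hz : z ∈ C f P (ExteriorAlgebra f W)) :
    dif (hom_g ω Y) ((con (fun i => Y (ω i)) ^ k) z) =
      (con (fun i => Y (ω i)) ^ k) (dif (hom_g ω Y) z) := by
  induction k generalizing z with
  | zero => rfl
  | succ k ih =>
    rw [pow_succ]
    show dif (hom_g ω Y) ((con (fun i => Y (ω i)) ^ k) (con (fun i => Y (ω i)) z)) =
      (con (fun i => Y (ω i)) ^ k) (con (fun i => Y (ω i)) (dif (hom_g ω Y) z))
    rw [ih _ (C_con P _ hz), hom_comm ω P θ hθ Y z hz]

private theorem hom_sum (ω : I → W) (Y : Module.Dual f W) (x : I →₀ f) :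
    (x.sum fun i c => c • hom_g ω Y i) =
      LinearMap.mulLeft f (ExteriorAlgebra.ι f (x.sum fun i c => c • ω i)) ∘ₗ ctr Y := by
  refine LinearMap.ext fun m => ?_
  simp only [Finsupp.sum, LinearMap.sum_apply, map_sum, LinearMap.comp_apply,
    LinearMap.mulLeft_apply, Finset.sum_mul, map_smul, LinearMap.smul_apply, hom_g,
    smul_mul_assoc]

/-- Let `z` be a cycle of the Koszul complex with exterior coefficients and `Y`, `x` with
`Y (x̄) = 1`, `x̄ = ∑ x i • ω i`. Then `z` is homologous to `(1 - x̄ ∧ Y⌋) (z - sec (con z))`. -/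
theorem homotopy (ω : I → W) (P : I → I → Q) (θ : Q →ₗ[f] ExteriorAlgebra f W)
    (hθ : ∀ i j, θ (P i j) = ExteriorAlgebra.ι f (ω i) * ExteriorAlgebra.ι f (ω j))
    (Y : Module.Dual f W) (x : I →₀ f) (hx : Y (x.sum fun i c => c • ω i) = 1)
    (N : ℕ) (z : List I →₀ ExteriorAlgebra f W) (hz : z ∈ C f P (ExteriorAlgebra f W))
    (hN : Short N z) (hd : dE ω z = 0) :
    z = dE ω (mp (ctr Y) (sec x (fun i => Y (ω i)) N z)) +
      mp (LinearMap.id - LinearMap.mulLeft f (ExteriorAlgebra.ι f (x.sum fun i c => c • ω i)) ∘ₗ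
        ctr Y) (z - sec x (fun i => Y (ω i)) N (con (fun i => Y (ω i)) z)) := by
  rw [hom_dE, sec_apply, map_sum]
  have h1 : ∀ k ∈ Finset.range N, dif (hom_g ω Y)
      (((-1 : f) ^ k) • ins x (k + 1) ((con (fun i => Y (ω i)) ^ k) z)) =
      mp (LinearMap.mulLeft f (ExteriorAlgebra.ι f (x.sum fun i c => c • ω i)) ∘ₗ ctr Y)
        (((-1 : f) ^ k) • ins x k ((con (fun i => Y (ω i)) ^ k) z)) +
      ((-1 : f) ^ k) • ins x (k + 1) ((con (fun i => Y (ω i)) ^ k)
        (con (fun i => Y (ω i)) z)) := by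
    intro k _
    rw [map_smul, dif_ins, hom_sum, ins_mp, map_smul, smul_add, hom_comm_pow ω P θ hθ Y k z hz,
      ← hom_con ω Y z hd]
  rw [Finset.sum_congr rfl h1, Finset.sum_add_distrib, ← map_sum, alt_sum x _ N hN, ← sec_apply]
  set S := sec x (fun i => Y (ω i)) N (con (fun i => Y (ω i)) z) with hS
  set G := LinearMap.mulLeft f (ExteriorAlgebra.ι f (x.sum fun i c => c • ω i)) ∘ₗ ctr Y with hG
  have h2 : mp (LinearMap.id - G) (z - S) = (z - S) - mp G (z - S) := by
    ext w
    simp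
    abel
  rw [h2]
  abel

end Pool.Agent.KRat
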