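import Pool.Agent.KRat.Quad

/-!
Row INS: the insertion operators (divided powers of the shuffle multiplication by `x`).
-/

set_option autoImplicit false

namespace Pool.Agent.KRat

open Finsupp Pool.Agent.KMil

universe u

variable {f : Type} [Field f] {I : Type*} {M N : Type*} [AddCommGroup M] [Module f M]
  [AddCommGroup N] [Module f N] {Q : Type*} [AddCommGroup Q] [Module f Q]

theorem pre_single (i : I) (w : List I) (m : M) :
    pre (f := f) i (single w m) = single (i :: w) m := by
  simp [pre, Finsupp.lmapDomain_apply, Finsupp.mapDomain_single]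

theorem dif_pre (g : I → M →ₗ[f] N) (i : I) (z : List I →₀ M) :
    dif g (pre (f := f) i z) = mp (g i) z := by
  have : (dif g) ∘ₗ (pre i) = mp (g i) := by
    apply lin_ext
    intro w m
    rw [LinearMap.comp_apply, pre_single, dif_cons, mp_single]
  exact LinearMap.congr_fun this z

theorem mp_pre (φ : M →ₗ[f] N) (i : I) (z : List I →₀ M) :
    mp φ (pre (f := f) i z) = pre (f := f) i (mp φ z) := by
  have : (mp φ) ∘ₗ (pre i) = (pre i) ∘ₗ (mp φ) := by
    apply lin_ext
    intro w m
    rw [LinearMap.comp_apply, LinearMap.comp_apply, pre_single, mp_single, mp_single, pre_single]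
  exact LinearMap.congr_fun this z

theorem prx_apply (x : I →₀ f) (z : List I →₀ M) :
    prx x z = x.sum fun i c => c • pre (f := f) i z := by
  simp [prx, Finsupp.sum, LinearMap.sum_apply]

theorem prx_zero (z : List I →₀ M) : prx (0 : I →₀ f) z = 0 := by
  rw [prx_apply, Finsupp.sum_zero_index]

theorem prx_add (x y : I →₀ f) (z : List I →₀ M) : prx (x + y) z = prx x z + prx y z := by
  rw [prx_apply, prx_apply, prx_apply]
  apply Finsupp.sum_add_index'
  · intro i
    rw [zero_smul]
  · intro i a b
    rw [add_smul]

theorem prx_one (i : I) (c : f) (z : List I →₀ M) :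
    prx (single i c) z = c • pre (f := f) i z := by
  rw [prx_apply, Finsupp.sum_single_index]
  rw [zero_smul]

theorem dif_prx (g : I → M →ₗ[f] N) (x : I →₀ f) (z : List I →₀ M) :
    dif g (prx x z) = mp (x.sum fun i c => c • g i) z := by
  rw [prx_apply, Finsupp.sum, map_sum]
  ext w
  rw [mp_apply, Finsupp.sum, LinearMap.sum_apply, Finsupp.finsetSum_apply]
  refine Finset.sum_congr rfl fun i _ => ?_
  rw [map_smul, dif_pre, Finsupp.smul_apply, mp_apply, LinearMap.smul_apply]

theorem mp_prx (φ : M →ₗ[f] N) (x : I →₀ f) (z : List I →₀ M) :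
    mp φ (prx x z) = prx x (mp φ z) := by
  rw [prx_apply, prx_apply, Finsupp.sum, Finsupp.sum, map_sum]
  refine Finset.sum_congr rfl fun i _ => ?_
  rw [map_smul, mp_pre]

theorem ins_single (x : I →₀ f) (j : ℕ) (w : List I) (m : M) :
    ins x j (single w m) = insW x j w m := by
  simp [ins]

theorem insW_zero (x : I →₀ f) (w : List I) (m : M) : insW x 0 w m = single w m := by
  simp [insW]

theorem insW_nil (x : I →₀ f) (j : ℕ) (m : M) :
    insW x (j + 1) [] m = prx x (insW x j [] m) := by
  simp [insW]

theorem insW_cons (x : I →₀ f) (j : ℕ) (i : I) (w : List I) (m : M) :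
    insW x (j + 1) (i :: w) m = prx x (insW x j (i :: w) m) + pre (f := f) i (insW x (j + 1) w m) := by
  simp [insW]

theorem ins_zero (x : I →₀ f) (z : List I →₀ M) : ins x 0 z = z := by
  have : (ins x 0 : (List I →₀ M) →ₗ[f] (List I →₀ M)) = LinearMap.id := by
    apply lin_ext
    intro w m
    rw [ins_single, insW_zero, LinearMap.id_apply]
  exact LinearMap.congr_fun this z

theorem mp_insW (x : I →₀ f) (φ : M →ₗ[f] N) (j : ℕ) (w : List I) (m : M) :
    mp φ (insW x j w m) = insW x j w (φ m) := by
  induction j generalizing w with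
  | zero => rw [insW_zero, insW_zero, mp_single]
  | succ j ih =>
    induction w with
    | nil => rw [insW_nil, insW_nil, mp_prx, ih]
    | cons i w ihw => rw [insW_cons, insW_cons, map_add, mp_prx, mp_pre, ih, ihw]

theorem ins_mp (x : I →₀ f) (j : ℕ) (φ : M →ₗ[f] N) (z : List I →₀ M) :
    ins x j (mp φ z) = mp φ (ins x j z) := by
  have : (ins x j) ∘ₗ (mp φ) = (mp φ) ∘ₗ (ins x j) := by
    apply lin_ext
    intro w m
    rw [LinearMap.comp_apply, LinearMap.comp_apply, mp_single, ins_single, ins_single, mp_insW]
  exact LinearMap.congr_fun this z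

/-- contraction of an insertion -/
theorem dif_ins (g : I → M →ₗ[f] N) (x : I →₀ f) (j : ℕ) (z : List I →₀ M) :
    dif g (ins x (j + 1) z) = ins x j (mp (x.sum fun i c => c • g i) z) + ins x (j + 1) (dif g z) := by
  have : (dif g) ∘ₗ (ins x (j + 1)) =
      (ins x j) ∘ₗ (mp (x.sum fun i c => c • g i)) + (ins x (j + 1)) ∘ₗ (dif g) := by
    apply lin_ext
    intro w m
    rw [LinearMap.comp_apply, LinearMap.add_apply, LinearMap.comp_apply, LinearMap.comp_apply,
      mp_single, ins_single, ins_single]
    cases w with
    | nil => rw [insW_nil, dif_prx, mp_insW, dif_nil, map_zero, add_zero]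
    | cons i w => rw [insW_cons, map_add, dif_prx, mp_insW, dif_pre, mp_insW, dif_cons, ins_single]
  exact LinearMap.congr_fun this z

open Classical in
theorem tl_eq_dif (i : I) (z : List I →₀ M) :
    tl f i z = dif (fun j => if j = i then (LinearMap.id : M →ₗ[f] M) else 0) z := by
  have : tl f i = dif (fun j => if j = i then (LinearMap.id : M →ₗ[f] M) else 0) := by
    apply lin_ext
    intro w m
    ext w'
    rw [tl_apply]
    cases w with
    | nil =>
      rw [dif_nil, single_eq_of_ne (by simp), Finsupp.zero_apply]
    | cons k w =>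
      rw [dif_cons]
      by_cases h : k = i
      · subst h
        rw [if_pos rfl, LinearMap.id_apply]
        by_cases hw : w' = w
        · subst hw
          rw [single_eq_same, single_eq_same]
        · rw [single_eq_of_ne hw, single_eq_of_ne]
          intro h'
          exact hw (List.cons.inj h').2
      · rw [if_neg h, LinearMap.zero_apply, single_zero, Finsupp.zero_apply, single_eq_of_ne]
        intro h'
        exact h (List.cons.inj h').1.symm
  exact LinearMap.congr_fun this z

theorem tl_ins (i : I) (x : I →₀ f) (j : ℕ) (z : List I →₀ M) :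
    tl f i (ins x (j + 1) z) = x i • ins x j z + ins x (j + 1) (tl f i z) := by
  classical
  rw [tl_eq_dif, tl_eq_dif, dif_ins, ins_mp]
  congr 1
  ext w
  rw [mp_apply, Finsupp.smul_apply, Finsupp.sum, LinearMap.sum_apply]
  rw [Finset.sum_eq_single i]
  · rw [if_pos rfl, LinearMap.smul_apply, LinearMap.id_apply]
  · intro k _ hk
    rw [if_neg hk, smul_zero, LinearMap.zero_apply]
  · intro hi
    rw [Finsupp.notMem_support_iff.1 hi, zero_smul, LinearMap.zero_apply]

theorem quad_pre_pre (b : I → I → M →ₗ[f] N) (i k : I) (z : List I →₀ M) :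
    quad b (pre (f := f) i (pre (f := f) k z)) = mp (b i k) z := by
  have : (quad b) ∘ₗ (pre i) ∘ₗ (pre k) = mp (b i k) := by
    apply lin_ext
    intro w m
    rw [LinearMap.comp_apply, LinearMap.comp_apply, pre_single, pre_single, quad_cons, mp_single]
  exact LinearMap.congr_fun this z

section

variable (b : I → I → M →ₗ[f] N) (h1 : ∀ i, b i i = 0) (h2 : ∀ i j, b i j + b j i = 0)

include h2 in
theorem quad_pre_anti (i k : I) (z : List I →₀ M) :
    quad b (pre (f := f) i (pre (f := f) k z)) + quad b (pre (f := f) k (pre (f := f) i z)) = 0 := by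
  rw [quad_pre_pre, quad_pre_pre]
  ext w
  rw [Finsupp.add_apply, mp_apply, mp_apply, ← LinearMap.add_apply, h2, LinearMap.zero_apply,
    Finsupp.zero_apply]

include h2 in
theorem quad_prx_pre (x : I →₀ f) (i : I) (z : List I →₀ M) :
    quad b (prx x (pre (f := f) i z)) + quad b (pre (f := f) i (prx x z)) = 0 := by
  induction x using Finsupp.induction_linear with
  | zero => simp [prx_zero]
  | add x y hx hy =>
    rw [prx_add, prx_add, map_add, map_add, map_add, add_add_add_comm, hx, hy, add_zero]
  | single k c =>
    rw [prx_one, prx_one, map_smul, map_smul, map_smul, ← smul_add, quad_pre_anti b h2, smul_zero]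

include h1 h2 in
theorem quad_prx_prx (x : I →₀ f) (z : List I →₀ M) :
    quad b (prx x (prx x z)) = 0 := by
  induction x using Finsupp.induction with
  | zero => rw [prx_zero, map_zero]
  | single_add k c x _ _ ih =>
    have h3 : quad b (c • pre (f := f) k (c • pre (f := f) k z)) = 0 := by
      rw [map_smul, map_smul, map_smul, quad_pre_pre, h1]
      ext w
      simp
    have h4 : quad b (c • pre (f := f) k (prx x z)) + quad b (prx x (c • pre (f := f) k z)) = 0 := by
      rw [map_smul, map_smul, map_smul, ← smul_add, add_comm, quad_prx_pre b h2, smul_zero]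
    have h5 : prx (single k c + x) (prx (single k c + x) z) =
        c • pre (f := f) k (c • pre (f := f) k z) + prx x (prx x z) +
          (c • pre (f := f) k (prx x z) + prx x (c • pre (f := f) k z)) := by
      rw [prx_add, prx_add, prx_one, prx_one, map_add, map_add, smul_add]
      abel
    rw [h5, map_add, map_add, map_add, h3, ih, h4, add_zero, add_zero]

/-- the quadratic operator commutes with insertions -/
theorem insW_cons_form (x : I →₀ f) (j : ℕ) (i : I) (w : List I) (m : M) :
    ∃ z : List I →₀ M, insW x j (i :: w) m = prx x z + pre (f := f) i (insW x j w m) := by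
  cases j with
  | zero =>
    refine ⟨0, ?_⟩
    rw [insW_zero, insW_zero, map_zero, zero_add, pre_single]
  | succ j => exact ⟨_, insW_cons x j i w m⟩

include h1 h2 in
theorem quad_insW (x : I →₀ f) (j : ℕ) (w : List I) (m : M) :
    quad b (insW x j w m) = ins x j (quad b (single w m)) := by
  cases j with
  | zero => rw [insW_zero, ins_zero]
  | succ j =>
    cases w with
    | nil =>
      rw [quad_nil, map_zero, insW_nil]
      cases j with
      | zero =>
        rw [insW_zero, prx_apply, Finsupp.sum, map_sum]
        refine Finset.sum_eq_zero fun i _ => ?_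
        rw [map_smul, pre_single, quad_one, smul_zero]
      | succ j => rw [insW_nil, quad_prx_prx b h1 h2]
    | cons i w =>
      obtain ⟨z, hz⟩ := insW_cons_form x j i w m
      rw [insW_cons, map_add, hz, map_add, map_add, quad_prx_prx b h1 h2, zero_add]
      cases w with
      | nil =>
        rw [insW_nil, quad_prx_pre b h2, quad_one, map_zero]
      | cons k w =>
        rw [insW_cons, map_add, map_add, ← add_assoc, quad_prx_pre b h2, zero_add, quad_pre_pre,
          mp_insW, quad_cons, ins_single]

include h1 h2 in
theorem quad_ins (x : I →₀ f) (j : ℕ) (z : List I →₀ M) :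
    quad b (ins x j z) = ins x j (quad b z) := by
  have : (quad b) ∘ₗ (ins x j) = (ins x j) ∘ₗ (quad b) := by
    apply lin_ext
    intro w m
    rw [LinearMap.comp_apply, LinearMap.comp_apply, ins_single, quad_insW b h1 h2]
  exact LinearMap.congr_fun this z

end

/-- insertions preserve the Koszul tensors if the letters anticommute and have square zero -/
theorem ins_C (P : I → I → Q) (h1 : ∀ i, P i i = 0) (h2 : ∀ i j, P i j + P j i = 0)
    (x : I →₀ f) (j : ℕ) {z : List I →₀ M} (hz : z ∈ C f P M) : ins x j z ∈ C f P M := by
  rw [mem_C]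
  intro μ u
  have h3 : ∀ i, (fun i j => μ (P i j) • (LinearMap.id : M →ₗ[f] M)) i i = 0 := by
    intro i
    show μ (P i i) • _ = _
    rw [h1, map_zero, zero_smul]
  have h4 : ∀ i j, (fun i j => μ (P i j) • (LinearMap.id : M →ₗ[f] M)) i j +
      (fun i j => μ (P i j) • (LinearMap.id : M →ₗ[f] M)) j i = 0 := by
    intro i j
    show μ (P i j) • _ + μ (P j i) • _ = _
    rw [← add_smul, ← map_add, h2, map_zero, zero_smul]
  induction u generalizing j z with
  | nil =>
    show quad _ (ins x j z) = 0
    rw [quad_ins _ h3 h4]
    have := (mem_C P).1 hz μ []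
    change quad _ z = 0 at this
    rw [this, map_zero]
  | cons i u ih =>
    show quad _ (tls f u (tl f i (ins x j z))) = 0
    cases j with
    | zero =>
      rw [ins_zero]
      have := ih 0 (C_tl P i hz)
      rw [ins_zero] at this
      exact this
    | succ j =>
      rw [tl_ins, map_add, map_add, map_smul, map_smul, ih j hz, ih (j + 1) (C_tl P i hz),
        smul_zero, add_zero]

end Pool.Agent.KRat
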