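import Pool.Agent.KRat.KerA
import Pool.Agent.KRat.QuadB

/-!
Row KERB: the new generator times the kernel of the evaluation.
-/

set_option autoImplicit false

namespace Pool.Agent.KRat

open Finsupp Pool.Agent.KMil Polynomial

universe u

/-- if `e` anticommutes with the generators of `B`, the elements `b` with `e * b` in `B` are the
kernel of a representation of `B` -/
theorem KERB_rep {f : Type} [Field f] {A : Type u} [Ring A] [Algebra f A] (S : Set A) (e : A)
    (hS : ∀ v ∈ S, e * v = -(v * e)) :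
    ∃ (E : Type u) (_ : Ring E) (_ : Algebra f E) (lam : Algebra.adjoin f S →ₐ[f] E),
      ∀ b : Algebra.adjoin f S, lam b = 0 ↔ e * (b : A) ∈ Algebra.adjoin f S := by
  let B := Algebra.adjoin f S
  have hcomm : ∀ b ∈ B, ∃ b' ∈ B, e * b = b' * e := by
    intro b hb
    induction hb using Algebra.adjoin_induction with
    | mem x hx => exact ⟨-x, neg_mem (Algebra.subset_adjoin hx), by rw [hS x hx, neg_mul]⟩
    | algebraMap r => exact ⟨algebraMap f A r, B.algebraMap_mem r, (Algebra.commutes r e).symm⟩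
    | add x y _ _ hx hy =>
      obtain ⟨x', hx', h1⟩ := hx
      obtain ⟨y', hy', h2⟩ := hy
      exact ⟨x' + y', add_mem hx' hy', by rw [mul_add, h1, h2, add_mul]⟩
    | mul x y _ _ hx hy =>
      obtain ⟨x', hx', h1⟩ := hx
      obtain ⟨y', hy', h2⟩ := hy
      exact ⟨x' * y', mul_mem hx' hy', by rw [← mul_assoc, h1, mul_assoc, h2, mul_assoc]⟩
  let K : Submodule B B :=
    { carrier := {b | e * (b : A) ∈ B}
      zero_mem' := by
        show e * ((0 : B) : A) ∈ B
        rw [ZeroMemClass.coe_zero, mul_zero]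
        exact B.zero_mem
      add_mem' := by
        intro a b ha hb
        show e * ((a + b : B) : A) ∈ B
        rw [AddMemClass.coe_add, mul_add]
        exact B.add_mem ha hb
      smul_mem' := by
        intro c b hb
        show e * ((c • b : B) : A) ∈ B
        obtain ⟨c', hc', h1⟩ := hcomm c c.2
        have h2 : ((c • b : B) : A) = (c : A) * (b : A) := rfl
        rw [h2, ← mul_assoc, h1, mul_assoc]
        exact B.mul_mem hc' hb }
  have hK : ∀ b : B, b ∈ K ↔ e * (b : A) ∈ B := fun b => Iff.rfl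
  refine ⟨Module.End f (B ⧸ K), inferInstance, inferInstance, Algebra.lsmul f f (B ⧸ K), ?_⟩
  intro b
  constructor
  · intro h
    have h1 := DFunLike.congr_fun h (Submodule.Quotient.mk (1 : B) : B ⧸ K)
    have h2 : (Submodule.Quotient.mk (b • (1 : B)) : B ⧸ K) = 0 := h1
    rw [Submodule.Quotient.mk_eq_zero, smul_eq_mul, mul_one] at h2
    exact h2
  · intro h
    apply LinearMap.ext
    intro x
    obtain ⟨y, rfl⟩ := Submodule.Quotient.mk_surjective K x
    show (Submodule.Quotient.mk (b • y) : B ⧸ K) = 0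
    rw [Submodule.Quotient.mk_eq_zero, hK, smul_eq_mul]
    have h2 : ((b * y : B) : A) = (b : A) * (y : A) := rfl
    rw [h2, ← mul_assoc]
    exact B.mul_mem h y.2

theorem KERB_iSup {f : Type} [Field f] {A : Type u} [Ring A] [Algebra f A] (S : Set A) :
    ∀ b ∈ Algebra.adjoin f S, b ∈ ⨆ m : ℕ, (Submodule.span f S) ^ m := by
  intro b hb
  have hPP : (⨆ m : ℕ, (Submodule.span f S) ^ m) * (⨆ m : ℕ, (Submodule.span f S) ^ m) ≤
      ⨆ m : ℕ, (Submodule.span f S) ^ m := by
    rw [Submodule.iSup_mul]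
    apply iSup_le
    intro i
    rw [Submodule.mul_iSup]
    apply iSup_le
    intro j
    rw [← pow_add]
    exact le_iSup (fun m : ℕ => (Submodule.span f S) ^ m) (i + j)
  induction hb using Algebra.adjoin_induction with
  | mem x hx =>
    exact Submodule.mem_iSup_of_mem 1 (by rw [pow_one]; exact Submodule.subset_span hx)
  | algebraMap r =>
    exact Submodule.mem_iSup_of_mem 0 (by rw [pow_zero]; exact Submodule.algebraMap_mem r)
  | add x y _ _ hx hy => exact add_mem hx hy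
  | mul x y _ _ hx hy => exact hPP (Submodule.mul_mem_mul hx hy)

theorem KERB_pow {f : Type} [Field f] {A : Type u} [Ring A] [Algebra f A] (S : Set A) (n : ℕ) :
    ∀ x ∈ (Submodule.span f S) ^ n, x ∈ Algebra.adjoin f S := by
  have h2 : Submodule.span f S ≤ Subalgebra.toSubmodule (Algebra.adjoin f S) :=
    Submodule.span_le.2 Algebra.subset_adjoin
  have h3 : (Submodule.span f S) ^ n ≤ Subalgebra.toSubmodule (Algebra.adjoin f S) := by
    induction n with
    | zero =>
      rw [pow_zero, Submodule.one_le]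
      exact (Algebra.adjoin f S).one_mem
    | succ n ih =>
      rw [pow_succ, Submodule.mul_le]
      intro a ha b hb
      exact (Algebra.adjoin f S).mul_mem (ih ha) (h2 hb)
  intro x hx
  exact h3 hx

variable (p : ℕ) {k : Type u} [Field k]

theorem KERB_unit {d : ℕ} (π : Pl k (d + 1)) (x : AdjoinRoot π.1) (hx : x ≠ 0) :
    ∃ q : k[X], q ≠ 0 ∧ q.natDegree ≤ d ∧ AdjoinRoot.mk π.1 q = x := by
  obtain ⟨q, rfl⟩ := AdjoinRoot.mk_surjective x
  have h1 : AdjoinRoot.mk π.1 (q %ₘ π.1) = AdjoinRoot.mk π.1 q := by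
    rw [AdjoinRoot.mk_eq_mk]
    refine ⟨-(q /ₘ π.1), ?_⟩
    have h2 := Polynomial.modByMonic_add_div q π.1
    have h3 : q %ₘ π.1 = q - π.1 * (q /ₘ π.1) := by
      rw [eq_sub_iff_add_eq]
      exact h2
    rw [h3]
    ring
  refine ⟨q %ₘ π.1, ?_, ?_, h1⟩
  · intro h
    apply hx
    rw [← h1, h, map_zero]
  · have h2 : (q %ₘ π.1).natDegree < π.1.natDegree :=
      Polynomial.natDegree_modByMonic_lt q π.2.1 (by
        intro h
        have h3 := π.2.2.2
        rw [h, natDegree_one] at h3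
        omega)
    have h3 := π.2.2.2
    omega

theorem KERB_mk_ne {d : ℕ} (π : Pl k (d + 1)) (q : k[X]) (hq : q ≠ 0) (hqd : q.natDegree ≤ d) :
    AdjoinRoot.mk π.1 q ≠ 0 := by
  intro h
  rw [AdjoinRoot.mk_eq_zero] at h
  have h1 := Polynomial.natDegree_le_of_dvd h hq
  have h2 := π.2.2.2
  omega

theorem ker_ev [Fact p.Prime] (h1 : ∃ c : k, c ^ p = -1) (d : ℕ) (π : Pl k (d + 1))
    (ev : KM p (RatFunc k) →ₐ[ZMod p] ExteriorAlgebra (ZMod p) (PW p (AdjoinRoot π.1)))
    (hev : ∀ q : k[X], q ≠ 0 → q.natDegree ≤ d →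
      ev (psym p k q) = ExteriorAlgebra.ι (ZMod p) (rcls p π q))
    (n : ℕ) (a : KM p (RatFunc k)) (ha : a ∈ VV p k d ^ n) (h0 : ev a = 0) :
    psym p k π.1 * a ∈ VV p k d ^ (n + 1) := by
  classical
  have hA := anti_KM p k h1
  have he : psym p k π.1 ∈ KMn p (RatFunc k) 1 := psym_mem p k π.1
  have hSe : ∀ v ∈ {x | ∃ q : k[X], q ≠ 0 ∧ q.natDegree ≤ d ∧ x = psym p k q},
      psym p k π.1 * v = -(v * psym p k π.1) := by
    rintro _ ⟨q, _, _, rfl⟩
    exact eq_neg_of_add_eq_zero_left (hA.2 _ he _ (psym_mem p k q))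
  obtain ⟨E, _, _, lam, hlam⟩ := KERB_rep (f := ZMod p)
    {x | ∃ q : k[X], q ≠ 0 ∧ q.natDegree ≤ d ∧ x = psym p k q} (psym p k π.1) hSe
  have hmem : ∀ q : k[X], q ≠ 0 → q.natDegree ≤ d → psym p k q ∈
      Algebra.adjoin (ZMod p) {x | ∃ q : k[X], q ≠ 0 ∧ q.natDegree ≤ d ∧ x = psym p k q} :=
    fun q hq hqd => Algebra.subset_adjoin ⟨q, hq, hqd, rfl⟩
  have hkey : ∀ (q r s : k[X]) (hq : q ≠ 0) (hr : r ≠ 0) (hs : s ≠ 0) (hqd : q.natDegree ≤ d)
      (hrd : r.natDegree ≤ d) (hsd : s.natDegree ≤ d), π.1 ∣ q * r - s →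
      lam ⟨psym p k s, hmem s hs hsd⟩ =
        lam ⟨psym p k q, hmem q hq hqd⟩ + lam ⟨psym p k r, hmem r hr hrd⟩ := by
    intro q r s hq hr hs hqd hrd hsd h
    have h2 := key_rel p h1 d π q r s hq hr hs hqd hrd hsd h
    have h3 : lam (⟨psym p k q, hmem q hq hqd⟩ + ⟨psym p k r, hmem r hr hrd⟩ -
        ⟨psym p k s, hmem s hs hsd⟩) = 0 := by
      rw [hlam]
      exact KERB_pow _ 2 _ h2
    rw [map_sub, map_add, sub_eq_zero] at h3
    exact h3.symm
  -- representatives
  have hrep : ∀ u : (AdjoinRoot π.1)ˣ, ∃ q : k[X], q ≠ 0 ∧ q.natDegree ≤ d ∧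
      AdjoinRoot.mk π.1 q = (u : AdjoinRoot π.1) := fun u => KERB_unit π _ u.ne_zero
  choose rep hr1 hr2 hr3 using hrep
  obtain ⟨ψ, hψ⟩ := exists_lift p (X := E)
    (fun u : (AdjoinRoot π.1)ˣ => lam ⟨psym p k (rep u), hmem _ (hr1 u) (hr2 u)⟩) (by
      intro a b
      refine hkey _ _ _ (hr1 _) (hr1 _) (hr1 _) (hr2 _) (hr2 _) (hr2 _) ?_
      rw [← AdjoinRoot.mk_eq_zero, map_sub, map_mul, hr3, hr3, hr3, Units.val_mul, sub_self])
  have hψ2 : ∀ (q : k[X]) (hq : q ≠ 0) (hqd : q.natDegree ≤ d),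
      ψ (rcls p π q) = lam ⟨psym p k q, hmem q hq hqd⟩ := by
    intro q hq hqd
    have h2 := KERB_mk_ne π q hq hqd
    have h3 : rcls p π q = cls p (Units.mk0 _ h2) := by
      unfold rcls
      rw [dif_neg h2]
    rw [h3, hψ]
    have h4 : rep (Units.mk0 _ h2) = q := by
      have h5 : AdjoinRoot.mk π.1 (rep (Units.mk0 _ h2) - q) = 0 := by
        rw [map_sub, hr3, Units.val_mk0, sub_self]
      rw [AdjoinRoot.mk_eq_zero] at h5
      have h6 : (rep (Units.mk0 _ h2) - q).natDegree ≤ d :=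
        (Polynomial.natDegree_sub_le _ _).trans (max_le (hr2 _) hqd)
      have h7 := π.2.2.2
      exact sub_eq_zero.1 (Polynomial.eq_zero_of_dvd_of_natDegree_lt h5 (by omega))
    congr 1
    apply Subtype.ext
    show psym p k (rep (Units.mk0 _ h2)) = psym p k q
    rw [h4]
  have hsq : ∀ x, ψ x * ψ x = 0 := by
    intro x
    obtain ⟨u, rfl⟩ := cls_surj p x
    rw [hψ, ← map_mul]
    have h2 : (⟨psym p k (rep u), hmem _ (hr1 u) (hr2 u)⟩ *
        ⟨psym p k (rep u), hmem _ (hr1 u) (hr2 u)⟩ :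
        Algebra.adjoin (ZMod p) {x | ∃ q : k[X], q ≠ 0 ∧ q.natDegree ≤ d ∧ x = psym p k q}) = 0 := by
      apply Subtype.ext
      exact hA.1 _ (psym_mem p k _)
    rw [h2, map_zero]
  let Φ : ExteriorAlgebra (ZMod p) (PW p (AdjoinRoot π.1)) →ₐ[ZMod p] E :=
    ExteriorAlgebra.lift (ZMod p) ⟨ψ, hsq⟩
  have hΦ : ∀ (b : KM p (RatFunc k)) (hb : b ∈
      Algebra.adjoin (ZMod p) {x | ∃ q : k[X], q ≠ 0 ∧ q.natDegree ≤ d ∧ x = psym p k q}),
      Φ (ev b) = lam ⟨b, hb⟩ := by
    intro b hb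
    induction hb using Algebra.adjoin_induction with
    | mem x hx =>
      obtain ⟨q, hq, hqd, rfl⟩ := hx
      rw [hev q hq hqd, ExteriorAlgebra.lift_ι_apply]
      exact hψ2 q hq hqd
    | algebraMap r =>
      rw [AlgHom.commutes, AlgHom.commutes]
      exact (lam.commutes r).symm
    | add x y hx' hy' hx hy =>
      rw [map_add, map_add, hx, hy, ← map_add]
      rfl
    | mul x y hx' hy' hx hy =>
      rw [map_mul, map_mul, hx, hy, ← map_mul]
      rfl
  have haB := KERB_pow _ n a ha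
  have h2 : lam ⟨a, haB⟩ = 0 := by
    rw [← hΦ a haB, h0, map_zero]
  rw [hlam] at h2
  have h3 := KERB_iSup _ _ h2
  apply mem_pow_of_iSup p k (VV p k d) (VV_le p k d) (n + 1) _ h3
  rw [KMn_pow, pow_succ']
  exact Submodule.mul_mem_mul he (pow_le_pow_left' (VV_le p k d) n ha)

end Pool.Agent.KRat
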