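import Pool.Agent.KRat.PSymB
import Pool.Agent.KRat.Cls

/-!
Row KERA: classes of residues, the key relation.
-/

set_option autoImplicit false

namespace Pool.Agent.KRat

open Finsupp Pool.Agent.KMil Polynomial

universe u

variable (p : ℕ) {k : Type u} [Field k]

theorem rcls_eq {d : ℕ} (π : Pl k d) (q : k[X]) (h : AdjoinRoot.mk π.1 q ≠ 0) :
    rcls p π q = cls p (Units.mk0 _ h) := by
  unfold rcls
  rw [dif_neg h]

theorem rcls_mul {d : ℕ} (π : Pl k d) (q r : k[X]) (hq : ¬ π.1 ∣ q) (hr : ¬ π.1 ∣ r) :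
    rcls p π (q * r) = rcls p π q + rcls p π r := by
  have h1 : AdjoinRoot.mk π.1 q ≠ 0 := fun h => hq (AdjoinRoot.mk_eq_zero.1 h)
  have h2 : AdjoinRoot.mk π.1 r ≠ 0 := fun h => hr (AdjoinRoot.mk_eq_zero.1 h)
  have h3 : AdjoinRoot.mk π.1 (q * r) ≠ 0 := by
    rw [map_mul]
    exact mul_ne_zero h1 h2
  rw [rcls_eq p π _ h1, rcls_eq p π _ h2, rcls_eq p π _ h3, ← cls_mul]
  congr 1
  apply Units.ext
  simp only [Units.val_mk0, Units.val_mul, map_mul]

/-- congruent polynomials have the same class -/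
theorem rcls_congr {d : ℕ} (π : Pl k d) (q r : k[X]) (h : π.1 ∣ q - r) :
    rcls p π q = rcls p π r := by
  have h1 : AdjoinRoot.mk π.1 q = AdjoinRoot.mk π.1 r := AdjoinRoot.mk_eq_mk.2 h
  unfold rcls
  simp only [h1]

/-- every class is the class of a polynomial of small degree -/
theorem rcls_surj {d : ℕ} (π : Pl k (d + 1)) (x : PW p (AdjoinRoot π.1)) :
    ∃ q : k[X], q ≠ 0 ∧ q.natDegree ≤ d ∧ rcls p π q = x := by
  obtain ⟨a, rfl⟩ := cls_surj p x
  obtain ⟨q0, hq0⟩ := AdjoinRoot.mk_surjective (a : AdjoinRoot π.1)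
  have hne1 : π.1 ≠ 1 := by
    intro h
    have := π.2.2.2
    rw [h, natDegree_one] at this
    omega
  have h1 : AdjoinRoot.mk π.1 (q0 %ₘ π.1) = (a : AdjoinRoot π.1) := by
    rw [← hq0]
    apply AdjoinRoot.mk_eq_mk.2
    rw [dvd_sub_comm]
    exact ⟨q0 /ₘ π.1, by rw [sub_eq_iff_eq_add, add_comm]; exact (modByMonic_add_div q0 π.1).symm⟩
  have h2 : AdjoinRoot.mk π.1 (q0 %ₘ π.1) ≠ 0 := by
    rw [h1]
    exact a.ne_zero
  refine ⟨q0 %ₘ π.1, ?_, ?_, ?_⟩
  · intro h
    apply h2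
    rw [h, map_zero]
  · have := natDegree_modByMonic_lt q0 π.2.1 hne1
    rw [π.2.2.2] at this
    omega
  · rw [rcls_eq p π _ h2]
    congr 1
    apply Units.ext
    rw [Units.val_mk0, h1]

theorem psym_anticomm {q r : k[X]} (hq : q ≠ 0) (hr : r ≠ 0) :
    psym p k q * psym p k r = -(psym p k r * psym p k q) := by
  have h1 : algebraMap k[X] (RatFunc k) q ≠ 0 :=
    (map_ne_zero_iff _ (IsFractionRing.injective k[X] (RatFunc k))).2 hq
  have h2 : algebraMap k[X] (RatFunc k) r ≠ 0 :=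
    (map_ne_zero_iff _ (IsFractionRing.injective k[X] (RatFunc k))).2 hr
  rw [psym_eq p k hq h1, psym_eq p k hr h2]
  exact eq_neg_of_add_eq_zero_left (sym_anticomm p _ _)

/-- the key relation: if `q r ≡ s` modulo `π`, all of degree at most `d < deg π`, then
`{π} ({q} + {r} - {s})` is in the algebra generated by `VV d` (in degree two) -/
theorem key_rel (h1 : ∃ c : k, c ^ p = -1) (d : ℕ) (π : Pl k (d + 1)) (q r s : k[X]) (hq : q ≠ 0)
    (hr : r ≠ 0) (hs : s ≠ 0) (hqd : q.natDegree ≤ d) (hrd : r.natDegree ≤ d)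
    (hsd : s.natDegree ≤ d) (h : π.1 ∣ q * r - s) :
    psym p k π.1 * (psym p k q + psym p k r - psym p k s) ∈ VV p k d ^ 2 := by
  obtain ⟨t, ht⟩ := h
  by_cases ht0 : t = 0
  · rw [ht0, mul_zero, sub_eq_zero] at ht
    rw [← psym_mul p k hq hr, ht, sub_self, mul_zero]
    exact Submodule.zero_mem _
  have hπ : π.1 ≠ 0 := π.2.2.1.ne_zero
  have htd : t.natDegree ≤ d := by
    have e1 : (π.1 * t).natDegree = (d + 1) + t.natDegree := by
      rw [natDegree_mul hπ ht0, π.2.2.2]
    have e2 : (q * r - s).natDegree ≤ 2 * d := by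
      refine (natDegree_sub_le _ _).trans (max_le ?_ ?_)
      · rw [natDegree_mul hq hr]
        omega
      · omega
    rw [ht, e1] at e2
    omega
  have e1 : (psym p k s - (psym p k q + psym p k r)) *
      ((psym p k t + psym p k π.1) - (psym p k q + psym p k r)) = 0 := by
    have h3 := psym_add p k hs (mul_ne_zero ht0 hπ) (mul_ne_zero hq hr)
      (by rw [mul_comm t, ← ht]; ring)
    rw [psym_mul p k ht0 hπ, psym_mul p k hq hr] at h3
    exact h3
  have e2 : psym p k π.1 * (psym p k q + psym p k r - psym p k s) =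
      -((psym p k q + psym p k r - psym p k s) * psym p k π.1) := by
    rw [mul_sub, mul_add, sub_mul, add_mul, psym_anticomm p hπ hq, psym_anticomm p hπ hr,
      psym_anticomm p hπ hs]
    abel
  have e3 : psym p k π.1 * (psym p k q + psym p k r - psym p k s) =
      (psym p k q + psym p k r - psym p k s) * (psym p k t - (psym p k q + psym p k r)) := by
    rw [e2, ← add_zero ((psym p k q + psym p k r - psym p k s) *
      (psym p k t - (psym p k q + psym p k r))), ← e1]
    noncomm_ring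
  have hm : ∀ x : k[X], x ≠ 0 → x.natDegree ≤ d → psym p k x ∈ VV p k d := fun x hx hxd =>
    Submodule.subset_span ⟨x, hx, hxd, rfl⟩
  rw [e3, pow_two]
  exact Submodule.mul_mem_mul
    (Submodule.sub_mem _ (Submodule.add_mem _ (hm q hq hqd) (hm r hr hrd)) (hm s hs hsd))
    (Submodule.sub_mem _ (hm t ht0 htd) (Submodule.add_mem _ (hm q hq hqd) (hm r hr hrd)))

end Pool.Agent.KRat
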