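import Pool.Agent.KRat.Union
import Pool.Agent.KRat.QuadB

/-!
Row UNIB: the union of a chain.
-/

set_option autoImplicit false

namespace Pool.Agent.KRat

open Finsupp Pool.Agent.KMil

universe u

private theorem unib_pw_mono {f : Type} [Field f] {A : Type u} [Ring A] [Algebra f A]
    {S T : Submodule f A} (h : S ≤ T) (n : ℕ) : S ^ n ≤ T ^ n := by
  induction n with
  | zero => simp
  | succ n ih =>
    rw [pow_succ, pow_succ]
    exact mul_le_mul' ih h

private theorem unib_mem_iSup {f : Type} [Field f] {A : Type u} [Ring A] [Algebra f A]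
    {V : ℕ → Submodule f A} (hV : Monotone V) {x : A} (hx : x ∈ ⨆ d, V d) : ∃ d, x ∈ V d :=
  (Submodule.mem_iSup_of_directed V hV.directed_le).1 hx

private theorem unib_mem_iSup_pow {f : Type} [Field f] {A : Type u} [Ring A] [Algebra f A]
    {V : ℕ → Submodule f A} (hV : Monotone V) (n : ℕ) :
    ∀ x ∈ (⨆ d, V d) ^ n, ∃ d, x ∈ V d ^ n := by
  induction n with
  | zero =>
    intro x hx
    exact ⟨0, by simpa using hx⟩
  | succ n ih =>
    intro x hx
    rw [pow_succ] at hx
    refine Submodule.mul_induction_on hx ?_ ?_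
    · intro a ha b hb
      obtain ⟨d, hd⟩ := ih a ha
      obtain ⟨e, he⟩ := unib_mem_iSup hV hb
      refine ⟨max d e, ?_⟩
      rw [pow_succ]
      exact Submodule.mul_mem_mul (unib_pw_mono (hV (le_max_left d e)) n hd)
        (hV (le_max_right d e) he)
    · rintro a b ⟨d, hd⟩ ⟨e, he⟩
      exact ⟨max d e, Submodule.add_mem _
        (unib_pw_mono (hV (le_max_left d e)) _ hd) (unib_pw_mono (hV (le_max_right d e)) _ he)⟩

private theorem unib_range {α β : Type*} (g : α → β) (w : List β)
    (h : ∀ b ∈ w, ∃ c, g c = b) : w ∈ Set.range (List.map g) := by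
  induction w with
  | nil => exact ⟨[], rfl⟩
  | cons b w ih =>
    obtain ⟨l, hl⟩ := ih (fun b hb => h b (List.mem_cons_of_mem _ hb))
    obtain ⟨c, hc⟩ := h b List.mem_cons_self
    exact ⟨c :: l, by rw [List.map_cons, hc, hl]⟩

section E

variable {f : Type} [Field f] {A : Type u} [Ring A] [Algebra f A] {I J : Type u} (ι : I → J)

/-- change of letters -/
private noncomputable def unibE : (List I →₀ A) →ₗ[f] (List J →₀ A) :=
  Finsupp.lmapDomain A f (List.map ι)

private theorem unibE_single (w : List I) (a : A) :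
    unibE (f := f) ι (single w a) = single (w.map ι) a := by
  simp [unibE, Finsupp.mapDomain_single]

private theorem unibE_apply (hι : Function.Injective ι) (y : List I →₀ A) (w : List I) :
    unibE (f := f) ι y (w.map ι) = y w := by
  simp only [unibE, Finsupp.lmapDomain_apply]
  exact Finsupp.mapDomain_apply (List.map_injective_iff.2 hι) y w

private theorem unibE_notin (y : List I →₀ A) (w : List J) (h : w ∉ Set.range (List.map ι)) :
    unibE (f := f) ι y w = 0 := by
  simp only [unibE, Finsupp.lmapDomain_apply]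
  exact Finsupp.mapDomain_of_notMem_range y w h

private theorem unibE_inj (hι : Function.Injective ι) :
    Function.Injective (unibE (f := f) (A := A) ι) := by
  intro x y h
  ext w
  rw [← unibE_apply (f := f) ι hι x w, h, unibE_apply (f := f) ι hι]

private theorem unibE_dR (v : J → A) (v' : I → A) (hv : ∀ i, v (ι i) = v' i) (y : List I →₀ A) :
    dR f v (unibE (f := f) ι y) = unibE (f := f) ι (dR f v' y) := by
  have : (dR f v) ∘ₗ (unibE (f := f) ι) = (unibE (f := f) ι) ∘ₗ (dR f v') := by
    apply lin_ext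
    intro w m
    simp only [LinearMap.comp_apply, unibE_single]
    cases w with
    | nil => simp [dR]
    | cons i w =>
      rw [List.map_cons, dR, dR, dif_cons, dif_cons, unibE_single, LinearMap.mulRight_apply,
        LinearMap.mulRight_apply, hv]
  exact LinearMap.congr_fun this y

private theorem unibE_quad (b : J → J → A →ₗ[f] A) (b' : I → I → A →ₗ[f] A)
    (hb : ∀ i j, b (ι i) (ι j) = b' i j) (y : List I →₀ A) :
    quad b (unibE (f := f) ι y) = unibE (f := f) ι (quad b' y) := by
  have : (quad b) ∘ₗ (unibE (f := f) ι) = (unibE (f := f) ι) ∘ₗ (quad b') := by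
    apply lin_ext
    intro w m
    simp only [LinearMap.comp_apply, unibE_single]
    rcases w with _ | ⟨i, _ | ⟨j, w⟩⟩
    · simp
    · simp
    · simp [unibE_single, hb]
  exact LinearMap.congr_fun this y

private theorem unibE_tls (hι : Function.Injective ι) (u : List I) (y : List I →₀ A) :
    tls f (u.map ι) (unibE (f := f) ι y) = unibE (f := f) ι (tls f u y) := by
  ext w
  rw [tls_apply]
  by_cases h : w ∈ Set.range (List.map ι)
  · obtain ⟨w, rfl⟩ := h
    rw [← List.map_append, unibE_apply (f := f) ι hι, unibE_apply (f := f) ι hι, tls_apply]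
  · rw [unibE_notin (f := f) ι _ w h, unibE_notin (f := f) ι]
    rintro ⟨l, hl⟩
    apply h
    rw [List.map_eq_append_iff] at hl
    obtain ⟨l₁, l₂, _, _, h2⟩ := hl
    exact ⟨l₂, h2⟩

private theorem unibE_C_of (hι : Function.Injective ι) (v : J → A) (v' : I → A)
    (hv : ∀ i, v (ι i) = v' i) {y : List I →₀ A}
    (hy : unibE (f := f) ι y ∈ C f (pr v) A) : y ∈ C f (pr v') A := by
  rw [mem_C] at hy ⊢
  intro μ u
  apply unibE_inj (f := f) ι hι
  rw [map_zero, ← hy μ (u.map ι), unibE_tls (f := f) ι hι]
  rw [unibE_quad (f := f) ι _ (fun i j => μ (pr v' i j) • (LinearMap.id : A →ₗ[f] A))]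
  intro i j
  simp [pr, hv]

private theorem unibE_C (hι : Function.Injective ι) (v : J → A) (v' : I → A)
    (hv : ∀ i, v (ι i) = v' i) {y : List I →₀ A}
    (hy : y ∈ C f (pr v') A) : unibE (f := f) ι y ∈ C f (pr v) A := by
  rw [mem_C] at hy ⊢
  intro μ u
  by_cases h : u ∈ Set.range (List.map ι)
  · obtain ⟨u, rfl⟩ := h
    rw [unibE_tls (f := f) ι hι,
      unibE_quad (f := f) ι _ (fun i j => μ (pr v' i j) • (LinearMap.id : A →ₗ[f] A)),
      hy μ u, map_zero]
    intro i j
    simp [pr, hv]
  · have : tls f u (unibE (f := f) ι y) = 0 := by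
      ext w
      rw [tls_apply, unibE_notin (f := f) ι]
      · rfl
      · rintro ⟨l, hl⟩
        apply h
        rw [List.map_eq_append_iff] at hl
        obtain ⟨l₁, l₂, _, h1, _⟩ := hl
        exact ⟨l₁, h1⟩
    rw [this, map_zero]

end E

theorem union {f : Type} [Field f] {A : Type u} [Ring A] [Algebra f A]
    (V : ℕ → Submodule f A) (hV : Monotone V)
    (hK : ∀ d, ∀ B : Set A, LinearIndependent f (Subtype.val : B → A) →
      Submodule.span f B = V d → Kos f (Subtype.val : B → A)) :
    ∃ B : Set A, LinearIndependent f (Subtype.val : B → A) ∧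
      Submodule.span f B = ⨆ d, V d ∧ Kos f (Subtype.val : B → A) := by
  classical
  obtain ⟨B, hB, hspan, had⟩ := exists_adapted V hV
  refine ⟨B, hB, hspan, ?_⟩
  intro j z hz hval hdR
  have hsp : sp f (Subtype.val : B → A) = ⨆ d, V d := by
    rw [sp, Subtype.range_coe]
    exact hspan
  rw [hsp] at hval
  -- all letters lie in one member of the chain
  have h1 : ∀ b : B, ∃ d, (b : A) ∈ V d := by
    intro b
    apply unib_mem_iSup hV
    rw [← hspan]
    exact Submodule.subset_span b.2
  choose D hD using h1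
  have h2 : ∀ w, ∃ d, z w ∈ V d ^ (j + 1) := fun w => unib_mem_iSup_pow hV (j + 1) _ (hval w)
  choose D' hD' using h2
  let d : ℕ := max (z.support.sup D') ((z.support.biUnion (fun w => w.toFinset)).sup D)
  have hlet : ∀ w ∈ z.support, ∀ b ∈ w, (b : A) ∈ V d := by
    intro w hw b hb
    refine hV ?_ (hD b)
    refine le_trans ?_ (le_max_right _ _)
    exact Finset.le_sup (f := D) (Finset.mem_biUnion.2 ⟨w, hw, List.mem_toFinset.2 hb⟩)
  have hvald : ∀ w, z w ∈ V d ^ (j + 1) := by
    intro w
    by_cases hw : w ∈ z.support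
    · refine unib_pw_mono (hV ?_) _ (hD' w)
      exact le_trans (Finset.le_sup (f := D') hw) (le_max_left _ _)
    · rw [Finsupp.notMem_support_iff.1 hw]
      exact Submodule.zero_mem _
  let Bd : Set A := B ∩ (V d : Set A)
  let ι : Bd → B := Set.inclusion Set.inter_subset_left
  have hι : Function.Injective ι := Set.inclusion_injective _
  have hv : ∀ i : Bd, (Subtype.val : B → A) (ι i) = (Subtype.val : Bd → A) i := fun i => rfl
  have hBd : LinearIndependent f (Subtype.val : Bd → A) := by
    have := hB.comp ι hι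
    exact this
  have hspd : Submodule.span f Bd = V d := had d
  have hKd := hK d Bd hBd hspd
  have hspd' : sp f (Subtype.val : Bd → A) = V d := by
    rw [sp, Subtype.range_coe]
    exact hspd
  have hinj : Function.Injective (List.map ι) := List.map_injective_iff.2 hι
  let zd : List Bd →₀ A := Finsupp.comapDomain (List.map ι) z hinj.injOn
  have hEz : unibE (f := f) ι zd = z := by
    simp only [unibE, Finsupp.lmapDomain_apply, zd]
    apply Finsupp.mapDomain_comapDomain _ hinj
    intro w hw
    have hw' : ∀ b ∈ w, ∃ c : Bd, ι c = b := by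
      intro b hb
      exact ⟨⟨(b : A), b.2, hlet w hw b hb⟩, rfl⟩
    exact unib_range ι w hw'
  obtain ⟨yd, hyC, hyv, hyd⟩ := hKd j zd
    (unibE_C_of (f := f) ι hι _ _ hv (by rw [hEz]; exact hz))
    (by
      intro w
      rw [hspd', ← unibE_apply (f := f) ι hι zd w, hEz]
      exact hvald _)
    (by
      apply unibE_inj (f := f) ι hι
      rw [← unibE_dR (f := f) ι _ _ hv, hEz, hdR, map_zero])
  refine ⟨unibE (f := f) ι yd, unibE_C (f := f) ι hι _ _ hv hyC, ?_, ?_⟩
  · intro w
    rw [hsp]
    by_cases h : w ∈ Set.range (List.map ι)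
    · obtain ⟨w, rfl⟩ := h
      rw [unibE_apply (f := f) ι hι]
      have := hyv w
      rw [hspd'] at this
      exact unib_pw_mono (le_iSup V d) _ this
    · rw [unibE_notin (f := f) ι _ w h]
      exact Submodule.zero_mem _
  · rw [unibE_dR (f := f) ι _ _ hv, hyd, hEz]

end Pool.Agent.KRat
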