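import Pool.Agent.KRat.SpecB

/-!
Row RESD: the residue data.
-/

set_option autoImplicit false

namespace Pool.Agent.KRat

open Finsupp Pool.Agent.KMil Polynomial

universe u

variable (p : ℕ) {k : Type u} [Field k]

/-- the specialisation and the residue at one place -/
theorem exists_ev_del [Fact p.Prime] (h1 : ∃ c : k, c ^ p = -1) {d : ℕ} (π : Pl k (d + 1))
    (hE : ExtF p (AdjoinRoot π.1)) :
    ∃ (ev : KM p (RatFunc k) →ₐ[ZMod p] ExteriorAlgebra (ZMod p) (PW p (AdjoinRoot π.1)))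
      (del : KM p (RatFunc k) →ₗ[ZMod p] ExteriorAlgebra (ZMod p) (PW p (AdjoinRoot π.1))),
      (∀ q : k[X], ¬ π.1 ∣ q → ev (psym p k q) = ExteriorAlgebra.ι (ZMod p) (rcls p π q)) ∧
      del 1 = 0 ∧
      (∀ q : k[X], ¬ π.1 ∣ q → ∀ a, del (psym p k q * a) = -(ev (psym p k q) * del a)) ∧
      (∀ a, del (psym p k π.1 * a) = ev a) := by
  obtain ⟨S, hS1, hS2⟩ := exists_spec p h1 π hE
  have hd : ∀ a, ctr (sndZ p (AdjoinRoot π.1)) (ExteriorAlgebra.ι (ZMod p) (xiZ p (AdjoinRoot π.1)) * a)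
      = a - ExteriorAlgebra.ι (ZMod p) (xiZ p (AdjoinRoot π.1)) *
          ctr (sndZ p (AdjoinRoot π.1)) a := by
    intro a
    have h2 : sndZ p (AdjoinRoot π.1) (xiZ p (AdjoinRoot π.1)) = 1 := rfl
    rw [ctr_ι_mul, h2, one_smul]
  have hd' : ∀ x a, ctr (sndZ p (AdjoinRoot π.1))
      (ExteriorAlgebra.ι (ZMod p) (inlZ p (AdjoinRoot π.1) x) * a)
      = -(ExteriorAlgebra.ι (ZMod p) (inlZ p (AdjoinRoot π.1) x) *
          ctr (sndZ p (AdjoinRoot π.1)) a) := by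
    intro x a
    have h2 : sndZ p (AdjoinRoot π.1) (inlZ p (AdjoinRoot π.1) x) = 0 := rfl
    rw [ctr_ι_mul, h2, zero_smul, zero_sub]
  refine ⟨(ExteriorAlgebra.map (fstZ p (AdjoinRoot π.1))).comp S,
    (ExteriorAlgebra.map (fstZ p (AdjoinRoot π.1))).toLinearMap ∘ₗ
      ctr (sndZ p (AdjoinRoot π.1)) ∘ₗ S.toLinearMap, ?_, ?_, ?_, ?_⟩
  · intro q hq
    rw [AlgHom.comp_apply, hS2 q hq, ExteriorAlgebra.map_apply_ι]
    rfl
  · rw [LinearMap.comp_apply, LinearMap.comp_apply, AlgHom.toLinearMap_apply,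
      AlgHom.toLinearMap_apply, map_one S, ctr_one, map_zero]
  · intro q hq a
    rw [LinearMap.comp_apply, LinearMap.comp_apply, LinearMap.comp_apply, LinearMap.comp_apply,
      AlgHom.toLinearMap_apply, AlgHom.toLinearMap_apply, AlgHom.toLinearMap_apply,
      AlgHom.toLinearMap_apply, AlgHom.comp_apply, map_mul, hS2 q hq, hd', map_neg, map_mul]
  · intro a
    rw [LinearMap.comp_apply, LinearMap.comp_apply, AlgHom.toLinearMap_apply,
      AlgHom.toLinearMap_apply, AlgHom.comp_apply, map_mul, hS1, hd, map_sub, map_mul,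
      ExteriorAlgebra.map_apply_ι]
    have h2 : fstZ p (AdjoinRoot π.1) (xiZ p (AdjoinRoot π.1)) = 0 := rfl
    rw [h2, map_zero, zero_mul, sub_zero]

end Pool.Agent.KRat
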