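import Pool.Agent.KRat.Zero
import Pool.Agent.KRat.Base
import Pool.Agent.KRat.ResD

/-!
Row ZEROB: the bottom of the filtration.
-/

set_option autoImplicit false

namespace Pool.Agent.KRat

open Finsupp Pool.Agent.KMil Polynomial

universe u

variable (p : ℕ) {k : Type u} [Field k]

theorem kos_zero [Fact p.Prime] (h1 : ∃ c : k, c ^ p = -1)
    (hE : ∀ (d : ℕ) (π : Pl k d), ExtF p (AdjoinRoot π.1)) (B : Set (KM p (RatFunc k)))
    (hB : LinearIndependent (ZMod p) (Subtype.val : B → KM p (RatFunc k)))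
    (hs : Submodule.span (ZMod p) B = VV p k 0) :
    Kos (ZMod p) (Subtype.val : B → KM p (RatFunc k)) := by
  classical
  let π : Pl k 1 := ⟨X, monic_X, irreducible_X, natDegree_X⟩
  obtain ⟨ev, -, hev, -⟩ := exists_ev_del p h1 (d := 0) π (hE 1 π)
  have hsp : sp (ZMod p) (Subtype.val : B → KM p (RatFunc k)) = VV p k 0 := by
    unfold sp
    rw [Subtype.range_coe, hs]
  have hdvd : ∀ q : k[X], q ≠ 0 → q.natDegree ≤ 0 → ¬ π.1 ∣ q := by
    intro q hq hqd hdiv
    have h2 : q.coeff 0 = 0 := X_dvd_iff.1 hdiv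
    apply hq
    rw [eq_C_of_natDegree_le_zero hqd, h2, C_0]
  have hev0 : ∀ q : k[X], q ≠ 0 → q.natDegree ≤ 0 →
      ev (psym p k q) = ExteriorAlgebra.ι (ZMod p) (rcls p π q) := fun q hq hqd =>
    hev q (hdvd q hq hqd)
  have hmem : ∀ x ∈ VV p k 0, ∃ w, ev x = ExteriorAlgebra.ι (ZMod p) w := by
    intro x hx
    unfold VV at hx
    induction hx using Submodule.span_induction with
    | mem x hx =>
      obtain ⟨q, hq, hqd, rfl⟩ := hx
      exact ⟨_, hev0 q hq hqd⟩
    | zero => exact ⟨0, by rw [map_zero, map_zero]⟩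
    | add x y _ _ ihx ihy =>
      obtain ⟨w, hw⟩ := ihx
      obtain ⟨w', hw'⟩ := ihy
      exact ⟨w + w', by rw [map_add, map_add, hw, hw']⟩
    | smul c x _ ih =>
      obtain ⟨w, hw⟩ := ih
      exact ⟨c • w, by rw [map_smul, map_smul, hw]⟩
  have hω : ∀ i : B, ∃ w, ev (i : KM p (RatFunc k)) = ExteriorAlgebra.ι (ZMod p) w := fun i =>
    hmem _ (by rw [← hs]; exact Submodule.subset_span i.2)
  choose ω hω' using hω
  refine base (f := ZMod p) (Subtype.val : B → KM p (RatFunc k)) ?_ ev ω hω' ?_ ?_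
  · rw [hsp]
    have h3 := anti_KM p k h1
    have h4 := VV_le p k 0
    exact ⟨fun x hx => h3.1 x (h4 hx), fun x hx y hy => h3.2 x (h4 hx) y (h4 hy)⟩
  · intro w
    obtain ⟨q, hq, hqd, rfl⟩ := rcls_surj p (d := 0) π w
    have h5 : psym p k q ∈ Submodule.span (ZMod p) (Set.range (Subtype.val : B → _)) := by
      rw [Subtype.range_coe, hs]
      exact Submodule.subset_span ⟨q, hq, hqd, rfl⟩
    obtain ⟨c, hc⟩ := Finsupp.mem_span_range_iff_exists_finsupp.1 h5
    refine ⟨c, ?_⟩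
    have h6 := hev0 q hq hqd
    rw [← hc] at h6
    apply (ExteriorAlgebra.ι_inj (R := ZMod p) _ _).1
    rw [← h6]
    simp only [Finsupp.sum, map_sum, map_smul, hω']
  · intro n a ha h0
    rw [hsp] at ha
    exact zero_inj p h1 π ev hev0 n a ha h0

end Pool.Agent.KRat
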