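import Pool.Agent.KRat.QuadB
import Pool.Agent.KRat.LinSec

/-!
Row ZIG1: the zigzag.
-/

set_option autoImplicit false

namespace Pool.Agent.KRat

open Finsupp Pool.Agent.KMil

universe u

variable {f : Type} [Field f] {I I' : Type*} {A : Type*} [Ring A] [Algebra f A]

/-- exchange of the two words -/
noncomputable def zsw {α β M : Type*} [Zero M] (u : α →₀ β →₀ M) : β →₀ α →₀ M :=
  Finsupp.curry (Finsupp.equivMapDomain (Equiv.prodComm α β) (Finsupp.uncurry u))

theorem zsw_apply {α β M : Type*} [Zero M] (u : α →₀ β →₀ M) (b : β) (a : α) :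
    zsw u b a = u a b := rfl

/-- the Koszul tensors with values of degree `n` -/
def Zs (f : Type) [Field f] {I A : Type*} [Ring A] [Algebra f A] (v : I → A)
    (V : Submodule f A) (n : ℕ) : Submodule f (List I →₀ A) where
  carrier := {x | x ∈ C f (pr v) A ∧ ∀ w, x w ∈ V ^ n}
  zero_mem' := ⟨Submodule.zero_mem _, fun _ => Submodule.zero_mem _⟩
  add_mem' := fun ha hb => ⟨Submodule.add_mem _ ha.1 hb.1,
    fun w => Submodule.add_mem _ (ha.2 w) (hb.2 w)⟩
  smul_mem' := fun c _ ha => ⟨Submodule.smul_mem _ c ha.1,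
    fun w => Submodule.smul_mem _ c (ha.2 w)⟩

theorem mem_Zs {I A : Type*} [Ring A] [Algebra f A] {v : I → A}
    {V : Submodule f A} {n : ℕ} {x : List I →₀ A} :
    x ∈ Zs f v V n ↔ x ∈ C f (pr v) A ∧ ∀ w, x w ∈ V ^ n := Iff.rfl

/-- Koszul tensors with coefficients in functions, pointwise -/
theorem C_pt {Q J M : Type*} [AddCommGroup Q] [Module f Q] [AddCommGroup M] [Module f M]
    (P : I → I → Q) (z : List I →₀ (J →₀ M)) :
    z ∈ C f P (J →₀ M) ↔ ∀ b : J, mp (Finsupp.lapply b : (J →₀ M) →ₗ[f] M) z ∈ C f P M := by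
  constructor
  · intro h b
    exact C_mp P _ h
  · intro h
    rw [mem_C]
    intro μ u
    ext w b
    have h1 := (mem_C P).1 (h b) μ u
    rw [tls_mp, quad_mp] at h1
    have h3 : (quad (fun i j => μ (P i j) • (LinearMap.id : (J →₀ M) →ₗ[f] (J →₀ M)))
        (tls f u z)) w b = (mp (Finsupp.lapply b : (J →₀ M) →ₗ[f] M) (quad (fun i j => μ (P i j) •
          (LinearMap.id : (J →₀ M) →ₗ[f] (J →₀ M))) (tls f u z))) w := by
      rw [mp_apply]; rfl
    rw [h3, mp_quad]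
    have h4 : (fun i j => (Finsupp.lapply b : (J →₀ M) →ₗ[f] M) ∘ₗ
        (μ (P i j) • (LinearMap.id : (J →₀ M) →ₗ[f] (J →₀ M)))) =
        fun i j => (μ (P i j) • (LinearMap.id : M →ₗ[f] M)) ∘ₗ
          (Finsupp.lapply b : (J →₀ M) →ₗ[f] M) := by
      funext i j
      refine LinearMap.ext fun m => ?_
      simp
    rw [h4, h1]
    rfl

/-- the outer differential -/
noncomputable def zV (f : Type) [Field f] {I I' A : Type*} [Ring A] [Algebra f A] (v' : I' → A) :
    (List I' →₀ (List I →₀ A)) →ₗ[f] (List I' →₀ (List I →₀ A)) :=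
  dif (fun i => mp (LinearMap.mulRight f (v' i)))

/-- the inner differential -/
noncomputable def zH (f : Type) [Field f] {I I' A : Type*} [Ring A] [Algebra f A] (v : I → A) :
    (List I' →₀ (List I →₀ A)) →ₗ[f] (List I' →₀ (List I →₀ A)) :=
  mp (dL f v)

theorem zV_pt (v' : I' → A) (u : List I' →₀ (List I →₀ A)) (w : List I) :
    mp (Finsupp.lapply w : (List I →₀ A) →ₗ[f] A) (zV f v' u) =
      dR f v' (mp (Finsupp.lapply w : (List I →₀ A) →ₗ[f] A) u) := by
  rw [zV, mp_dif, dR, dif_mp]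
  rfl

theorem zH_zV (v : I → A) (v' : I' → A) (u : List I' →₀ (List I →₀ A)) :
    zH f v (zV f v' u) = zV f v' (zH f v u) := by
  rw [zH, zV, mp_dif, dif_mp]
  congr 2
  funext i
  ext x w
  simp only [LinearMap.comp_apply]
  rw [dL, dif_mp, mp_dif]
  congr 3
  funext j
  ext a
  simp [mul_assoc]

/-- good elements of degree `n` -/
def zG (f : Type) [Field f] {I I' A : Type*} [Ring A] [Algebra f A] (v : I → A) (v' : I' → A)
    (V : Submodule f A) (n : ℕ) (u : List I' →₀ (List I →₀ A)) : Prop :=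
  u ∈ C f (pr v') (List I →₀ A) ∧ ∀ w', u w' ∈ Zs f v V n

theorem Zs_mulRight {v : I → A} {V : Submodule f A} {n : ℕ} {x : List I →₀ A}
    (hx : x ∈ Zs f v V n) {a : A} (ha : a ∈ V) :
    mp (LinearMap.mulRight f a) x ∈ Zs f v V (n + 1) := by
  refine ⟨C_mp _ _ hx.1, fun w => ?_⟩
  rw [mp_apply, pow_succ]
  exact Submodule.mul_mem_mul (hx.2 w) ha

theorem zV_val {v : I → A} {v' : I' → A} {V : Submodule f A} (hv' : ∀ i, v' i ∈ V) {n : ℕ}
    {u : List I' →₀ (List I →₀ A)} (hu : zG f v v' V n u) : zG f v v' V (n + 1) (zV f v' u) := by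
  classical
  refine ⟨C_dif _ _ hu.1, fun w' => ?_⟩
  have hs : ∃ s : Finset I', ∀ i, u (i :: w') ≠ 0 → i ∈ s := by
    refine ⟨u.support.biUnion (fun w => w.toFinset), fun i hi => ?_⟩
    rw [Finset.mem_biUnion]
    exact ⟨i :: w', Finsupp.mem_support_iff.2 hi, by simp⟩
  obtain ⟨s, hs⟩ := hs
  rw [zV, dif_apply _ _ _ s hs]
  exact Submodule.sum_mem _ fun i _ => Zs_mulRight (hu.2 _) (hv' i)

theorem zV_zV {v' : I' → A} {u : List I' →₀ (List I →₀ A)}
    (hu : u ∈ C f (pr v') (List I →₀ A)) : zV f v' (zV f v' u) = 0 := by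
  ext w' w
  have h1 : (zV f v' (zV f v' u)) w' w = (mp (Finsupp.lapply w : (List I →₀ A) →ₗ[f] A)
      (zV f v' (zV f v' u))) w' := by
    rw [mp_apply]; rfl
  rw [h1, zV_pt, zV_pt, dR_dR v' (C_mp _ _ hu)]
  rfl

theorem zH_val {v : I → A} {v' : I' → A} {V : Submodule f A} (hv : ∀ i, v i ∈ V) {n : ℕ}
    {u : List I' →₀ (List I →₀ A)} (hu : zG f v v' V n u) : zG f v v' V (n + 1) (zH f v u) := by
  refine ⟨C_mp _ _ hu.1, fun w' => ?_⟩
  rw [zH, mp_apply]
  exact ⟨C_dif _ _ (hu.2 w').1, dL_mem v hv n (hu.2 w').2⟩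

theorem zH_zH {v : I → A} {v' : I' → A} {V : Submodule f A}
    (h2 : ∀ i j, v i * v j + v j * v i = 0) {n : ℕ}
    {u : List I' →₀ (List I →₀ A)} (hu : zG f v v' V n u) : zH f v (zH f v u) = 0 := by
  ext1 w'
  rw [zH, mp_apply, mp_apply, dL_dL v h2 (hu.2 w').1]
  rfl

theorem zV_exact {v : I → A} {v' : I' → A} {j : ℕ} (hj : KosAt f v' j)
    {u : List I' →₀ (List I →₀ A)} (hu : zG f v v' (sp f v') (j + 1) u) (h0 : zV f v' u = 0) :
    ∃ y, zG f v v' (sp f v') j y ∧ zV f v' y = u := by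
  obtain ⟨τ, hτ⟩ := exists_lin (dR f v') (Zs f v' (sp f v') j)
    (Zs f v' (sp f v') (j + 1) ⊓ LinearMap.ker (dR f v')) (by
      rintro z ⟨hz1, hz2⟩
      obtain ⟨y, hy1, hy2, hy3⟩ := hj z hz1.1 hz1.2 hz2
      exact ⟨y, ⟨hy1, hy2⟩, hy3⟩)
  have hin : ∀ w : List I, zsw u w ∈ Zs f v' (sp f v') (j + 1) ⊓ LinearMap.ker (dR f v') := by
    intro w
    have e : zsw u w = mp (Finsupp.lapply w : (List I →₀ A) →ₗ[f] A) u := by
      ext w'
      rw [mp_apply]
      rfl
    refine ⟨⟨?_, fun w' => (hu.2 w').2 w⟩, ?_⟩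
    · rw [e]
      exact C_mp _ _ hu.1
    · show dR f v' (zsw u w) = 0
      rw [e, ← zV_pt, h0, map_zero]
  have hsw : zsw u ∈ C f (pr v) (List I' →₀ A) := by
    rw [C_pt]
    intro w'
    have e : mp (Finsupp.lapply w' : (List I' →₀ A) →ₗ[f] A) (zsw u) = u w' := by
      ext w
      rw [mp_apply]
      rfl
    rw [e]
    exact (hu.2 w').1
  refine ⟨zsw (mp τ (zsw u)), ⟨?_, fun w' => ⟨?_, fun w => ?_⟩⟩, ?_⟩
  · rw [C_pt]
    intro w
    have e : mp (Finsupp.lapply w : (List I →₀ A) →ₗ[f] A) (zsw (mp τ (zsw u))) =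
        τ (zsw u w) := by
      ext w'
      rw [mp_apply]
      show (mp τ (zsw u)) w w' = _
      rw [mp_apply]
    rw [e]
    exact (hτ _ (hin w)).1.1
  · have e : zsw (mp τ (zsw u)) w' =
        mp (Finsupp.lapply w' : (List I' →₀ A) →ₗ[f] A) (mp τ (zsw u)) := by
      ext w
      rw [mp_apply]
      rfl
    rw [e]
    exact C_mp _ _ (C_mp _ _ hsw)
  · show (mp τ (zsw u)) w w' ∈ _
    rw [mp_apply]
    exact (hτ _ (hin w)).1.2 w'
  · ext w' w
    have h1 : (zV f v' (zsw (mp τ (zsw u)))) w' w =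
        (mp (Finsupp.lapply w : (List I →₀ A) →ₗ[f] A) (zV f v' (zsw (mp τ (zsw u))))) w' := by
      rw [mp_apply]; rfl
    have e : mp (Finsupp.lapply w : (List I →₀ A) →ₗ[f] A) (zsw (mp τ (zsw u))) =
        τ (zsw u w) := by
      ext w'
      rw [mp_apply]
      show (mp τ (zsw u)) w w' = _
      rw [mp_apply]
    rw [h1, zV_pt, e, (hτ _ (hin w)).2]
    rfl

theorem zH_exact {v : I → A} {v' : I' → A} {V : Submodule f A} {j : ℕ} (hcol : ColAt f v V j)
    {x : List I' →₀ (List I →₀ A)} (hx : zG f v v' V (j + 2) x) (h0 : zH f v x = 0) :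
    ∃ y, zG f v v' V (j + 1) y ∧ zH f v y = x ∧ ∀ w', x w' = 0 → y w' = 0 := by
  obtain ⟨τ, hτ⟩ := exists_lin (dL f v) (Zs f v V (j + 1))
    (Zs f v V (j + 2) ⊓ LinearMap.ker (dL f v)) (by
      rintro z ⟨hz1, hz2⟩
      obtain ⟨y, hy1, hy2, hy3⟩ := hcol z hz1.1 hz1.2 hz2
      exact ⟨y, ⟨hy1, hy2⟩, hy3⟩)
  have hin : ∀ w', x w' ∈ Zs f v V (j + 2) ⊓ LinearMap.ker (dL f v) := by
    intro w'
    refine ⟨hx.2 w', ?_⟩
    have := congrArg (fun z => z w') h0
    simp only [zH, mp_apply] at this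
    exact this
  refine ⟨mp τ x, ⟨C_mp _ _ hx.1, fun w' => ?_⟩, ?_, fun w' h => ?_⟩
  · rw [mp_apply]
    exact (hτ _ (hin w')).1
  · ext1 w'
    rw [zH, mp_apply, mp_apply]
    exact (hτ _ (hin w')).2
  · rw [mp_apply, h, map_zero]

/-- the induction on the length of the outer words -/
theorem zig_step {v : I → A} {v' : I' → A} (hvv : ∀ i, v i ∈ sp f v')
    (h2 : ∀ i j, v i * v j + v j * v i = 0) {j : ℕ} (hcol : ColAt f v (sp f v') j)
    (hj : KosAt f v' j) (N : ℕ) : ∀ x : List I' →₀ (List I →₀ A),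
      zG f v v' (sp f v') (j + 2) x → (∀ w', N ≤ w'.length → x w' = 0) → zH f v x = 0 →
      zV f v' x = 0 → ∃ y, zG f v v' (sp f v') (j + 1) y ∧ zH f v y = 0 ∧ zV f v' y = x := by
  have hv' : ∀ i, v' i ∈ sp f v' := fun i => Submodule.subset_span ⟨i, rfl⟩
  induction N with
  | zero =>
    intro x _ hN _ _
    have hx : x = 0 := by
      ext1 w'
      exact hN w' (Nat.zero_le _)
    subst hx
    exact ⟨0, ⟨Submodule.zero_mem _, fun _ => Submodule.zero_mem _⟩, map_zero _, map_zero _⟩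
  | succ N ih =>
    intro x hx hN hH hV
    obtain ⟨u, hu, huH, hu0⟩ := zH_exact hcol hx hH
    have hx1 := zV_val hv' hu
    obtain ⟨y', hy', hyH, hyV⟩ := ih (zV f v' u) hx1 (by
      classical
      intro w' hw'
      rw [zV, dif_apply _ _ _ ∅]
      · rfl
      · intro i hi
        exact absurd (hu0 _ (hN (i :: w') (by simp; omega))) hi) (by
      rw [zH_zV, huH, hV]) (zV_zV hu.1)
    have hd : zG f v v' (sp f v') (j + 1) (u - y') :=
      ⟨Submodule.sub_mem _ hu.1 hy'.1, fun w' => Submodule.sub_mem _ (hu.2 w') (hy'.2 w')⟩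
    obtain ⟨y, hy, hyu⟩ := zV_exact hj hd ((map_sub (zV f v') u y').trans (by rw [hyV, sub_self]))
    refine ⟨zH f v y, zH_val hvv hy, zH_zH h2 hy, ?_⟩
    rw [← zH_zV, hyu]
    exact (map_sub (zH f v) u y').trans (by rw [hyH, huH]; exact sub_zero x)

theorem kosAt_succ (v : I → A) (v' : I' → A) (hv' : LinearIndependent f v')
    (hvv : ∀ i, v i ∈ sp f v') (h2 : ∀ i j, v i * v j + v j * v i = 0) (j : ℕ)
    (hcol : ColAt f v (sp f v') j) (hj : KosAt f v' j) : KosAt f v' (j + 1) := by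
  intro z hz hz1 hd
  let z0 : List I' →₀ (List I →₀ A) :=
    mp (Finsupp.lsingle ([] : List I) : A →ₗ[f] (List I →₀ A)) z
  have hz0 : ∀ w', z0 w' = single [] (z w') := fun w' => by
    show (mp (Finsupp.lsingle ([] : List I) : A →ₗ[f] (List I →₀ A)) z) w' = _
    rw [mp_apply]; rfl
  obtain ⟨N, hN⟩ : ∃ N : ℕ, ∀ w', N ≤ w'.length → z0 w' = 0 := by
    refine ⟨(z.support.sup List.length) + 1, fun w' hw' => ?_⟩
    rw [hz0]
    have : z w' = 0 := by
      by_contra h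
      have := Finset.le_sup (f := List.length) (Finsupp.mem_support_iff.2 h)
      omega
    rw [this, single_zero]
  obtain ⟨y, hy, _, hyV⟩ := zig_step hvv h2 hcol hj N z0
    ⟨C_mp _ _ hz, fun w' => by
      rw [hz0]
      refine ⟨C_nil _ _, fun w => ?_⟩
      classical
      rw [single_apply]
      split_ifs
      · exact hz1 w'
      · exact Submodule.zero_mem _⟩ hN
    (by
      ext1 w'
      rw [zH, mp_apply, hz0, dL, dif_nil]
      rfl)
    (by
      have h1 : zV f v' z0 =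
          mp (Finsupp.lsingle ([] : List I) : A →ₗ[f] (List I →₀ A)) (dR f v' z) := by
        show dif _ (mp _ z) = _
        rw [dif_mp, dR, mp_dif]
        congr 2
        funext i
        ext a
        simp
      rw [h1, hd, map_zero])
  refine ⟨mp (Finsupp.lapply ([] : List I) : (List I →₀ A) →ₗ[f] A) y, C_mp _ _ hy.1, fun w => ?_, ?_⟩
  · rw [mp_apply]
    exact (hy.2 w).2 []
  · rw [← zV_pt, hyV]
    ext w'
    rw [mp_apply, hz0]
    simp

end Pool.Agent.KRat
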