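import Pool.Agent.KRat.Zig
import Pool.Agent.KRat.Zig1

/-!
The zigzag argument, assembled.
-/

set_option autoImplicit false

namespace Pool.Agent.KRat

open Finsupp Pool.Agent.KMil

universe u

variable {f : Type} [Field f] {I I' : Type*} {A : Type*} [Ring A] [Algebra f A]

theorem zigzag (v : I → A) (v' : I' → A) (hv' : LinearIndependent f v')
    (hvv : ∀ i, v i ∈ sp f v') (h2 : ∀ i j, v i * v j + v j * v i = 0)
    (hcol : ∀ j, ColAt f v (sp f v') j) : Kos f v' := by
  intro j
  induction j with
  | zero => exact kosAt_zero v' hv'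
  | succ j ih => exact kosAt_succ v v' hv' hvv h2 j (hcol j) ih

end Pool.Agent.KRat
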