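import Pool.Agent.KRat.ResDB
import Pool.Agent.KRat.ZeroB
import Pool.Agent.KRat.ZigF
import Pool.Agent.KRat.Col
import Pool.Agent.KRat.UnionB
import Pool.Agent.KRat.Fin

/-!
Row MAIN: the theorem.
-/

set_option autoImplicit false

namespace Pool.Agent.KRat

open Finsupp Pool.Agent.KMil Polynomial

universe u

variable (p : ℕ) {k : Type u} [Field k]

theorem exists_basis_set {f : Type} [Field f] {A : Type u} [Ring A] [Algebra f A]
    (V : Submodule f A) : ∃ B : Set A, B ⊆ (V : Set A) ∧ Submodule.span f B = V ∧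
      LinearIndependent f (Subtype.val : B → A) := by
  obtain ⟨B, hB, hs, hl⟩ := exists_linearIndependent f (V : Set A)
  rw [Submodule.span_eq] at hs
  exact ⟨B, hB, hs, hl⟩

theorem kos_all [Fact p.Prime] (h1 : ∃ c : k, c ^ p = -1)
    (hE : ∀ (d : ℕ) (π : Pl k d), ExtF p (AdjoinRoot π.1)) (d : ℕ) :
    ∀ B : Set (KM p (RatFunc k)), LinearIndependent (ZMod p) (Subtype.val : B → KM p (RatFunc k)) →
      Submodule.span (ZMod p) B = VV p k d → Kos (ZMod p) (Subtype.val : B → KM p (RatFunc k)) := by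
  induction d with
  | zero =>
    intro B hB hs
    exact kos_zero p h1 hE B hB hs
  | succ d ih =>
    intro B hB hs
    obtain ⟨B0, hB0, hs0, hl0⟩ := exists_basis_set (VV p k d)
    have hK := ih B0 hl0 hs0
    have e0 : sp (ZMod p) (Subtype.val : B0 → KM p (RatFunc k)) = VV p k d := by
      rw [sp, Subtype.range_coe, hs0]
    have e1 : sp (ZMod p) (Subtype.val : B → KM p (RatFunc k)) = VV p k (d + 1) := by
      rw [sp, Subtype.range_coe, hs]
    have hA := anti_KM p k h1
    have hle : ∀ i : B0, (i : KM p (RatFunc k)) ∈ KMn p (RatFunc k) 1 :=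
      fun i => VV_le p k d (hB0 i.2)
    refine zigzag (f := ZMod p) (Subtype.val : B0 → KM p (RatFunc k)) Subtype.val hB ?_ ?_ ?_
    · intro i
      rw [e1]
      exact VV_mono p k (Nat.le_succ d) (hB0 i.2)
    · intro i j
      exact hA.2 _ (hle i) _ (hle j)
    · intro j
      obtain ⟨R⟩ := exists_res p h1 hE d
      rw [← e0, ← e1] at R
      refine columns (f := ZMod p) _ _ R ⟨fun x hx => hA.1 x ?_, fun x hx y hy => hA.2 x ?_ y ?_⟩ hK j
      · rw [e1] at hx
        exact VV_le p k _ hx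
      · rw [e1] at hx
        exact VV_le p k _ hx
      · rw [e1] at hy
        exact VV_le p k _ hy

theorem koszul_ratFunc [Fact p.Prime] (h1 : ∃ c : k, c ^ p = -1)
    (hE : ∀ (E : Type u) [Field E] [Algebra k E] [FiniteDimensional k E] (a : E), a ≠ 0 → a ≠ 1 →
      ∃ i j : ℕ, ¬ (p ∣ i ∧ p ∣ j) ∧ ∃ c : E, a ^ i * (1 - a) ^ j = c ^ p) :
    IsKoszul (KMn p (RatFunc k)) := by
  have hE' : ∀ (d : ℕ) (π : Pl k d), ExtF p (AdjoinRoot π.1) := by
    intro d π
    have : FiniteDimensional k (AdjoinRoot π.1) :=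
      (AdjoinRoot.powerBasis π.2.2.1.ne_zero).finite
    exact hE (AdjoinRoot π.1)
  obtain ⟨B, hB, hs, hK⟩ := union (VV p k) (VV_mono p k) (kos_all p h1 hE')
  rw [iSup_VV] at hs
  refine koszul_of_kos ⟨one_ne p, KM_zero p, fun m n x hx y hy => SetLike.GradedMul.mul_mem hx hy,
    DirectSum.Decomposition.isInternal _⟩ (KMn_pow p k) B hB hs hK

end Pool.Agent.KRat
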