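import Pool.Agent.KRat.Defs2

/-!
Row PSYM: symbols of polynomials.
-/

set_option autoImplicit false

namespace Pool.Agent.KRat

open Finsupp Pool.Agent.KMil Polynomial

universe u

variable (p : ℕ) (k : Type u) [Field k]

theorem psym_eq {q : k[X]} (hq : q ≠ 0) (h : algebraMap k[X] (RatFunc k) q ≠ 0) :
    psym p k q = sym p (Units.mk0 _ h) := by
  unfold psym
  rw [dif_neg h]

theorem psym_mul {q r : k[X]} (hq : q ≠ 0) (hr : r ≠ 0) :
    psym p k (q * r) = psym p k q + psym p k r := by
  have h1 : algebraMap k[X] (RatFunc k) q ≠ 0 := RatFunc.algebraMap_ne_zero hq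
  have h2 : algebraMap k[X] (RatFunc k) r ≠ 0 := RatFunc.algebraMap_ne_zero hr
  have h3 : algebraMap k[X] (RatFunc k) (q * r) ≠ 0 := RatFunc.algebraMap_ne_zero (mul_ne_zero hq hr)
  rw [psym_eq p k hq h1, psym_eq p k hr h2, psym_eq p k (mul_ne_zero hq hr) h3, ← sym_mul]
  congr 1
  apply Units.ext
  simp

theorem psym_mem (q : k[X]) : psym p k q ∈ KMn p (RatFunc k) 1 := by
  unfold psym
  split_ifs with h
  · exact zero_mem _
  · exact sym_mem p _

private theorem PSym_div {K : Type u} [Field K] (a b : Kˣ) : sym p (a * b⁻¹) = sym p a - sym p b := by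
  rw [sym_mul, sym_inv, sub_eq_add_neg]

theorem psym_add {a b c : k[X]} (ha : a ≠ 0) (hb : b ≠ 0) (hc : c ≠ 0) (h : a + b = c) :
    (psym p k a - psym p k c) * (psym p k b - psym p k c) = 0 := by
  have h1 : algebraMap k[X] (RatFunc k) a ≠ 0 := RatFunc.algebraMap_ne_zero ha
  have h2 : algebraMap k[X] (RatFunc k) b ≠ 0 := RatFunc.algebraMap_ne_zero hb
  have h3 : algebraMap k[X] (RatFunc k) c ≠ 0 := RatFunc.algebraMap_ne_zero hc
  rw [psym_eq p k ha h1, psym_eq p k hb h2, psym_eq p k hc h3, ← PSym_div, ← PSym_div]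
  apply sym_steinberg
  simp only [Units.val_mul, Units.val_mk0, Units.val_inv_eq_inv_val]
  rw [← add_mul, ← map_add, h, mul_inv_cancel₀ h3]

theorem sym_eq_psym (u : (RatFunc k)ˣ) :
    ∃ q r : k[X], q ≠ 0 ∧ r ≠ 0 ∧ sym p u = psym p k q - psym p k r := by
  have hq : RatFunc.num (u : RatFunc k) ≠ 0 := RatFunc.num_ne_zero u.ne_zero
  have hr : RatFunc.denom (u : RatFunc k) ≠ 0 := RatFunc.denom_ne_zero _
  have h1 : algebraMap k[X] (RatFunc k) (RatFunc.num (u : RatFunc k)) ≠ 0 :=
    RatFunc.algebraMap_ne_zero hq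
  have h2 : algebraMap k[X] (RatFunc k) (RatFunc.denom (u : RatFunc k)) ≠ 0 :=
    RatFunc.algebraMap_ne_zero hr
  refine ⟨_, _, hq, hr, ?_⟩
  rw [psym_eq p k hq h1, psym_eq p k hr h2, ← PSym_div]
  congr 1
  apply Units.ext
  simp only [Units.val_mul, Units.val_mk0, Units.val_inv_eq_inv_val]
  rw [← div_eq_mul_inv, RatFunc.num_div_denom]

private theorem PSym_pow {K : Type u} [Field K] (a : Kˣ) (n : ℕ) :
    sym p (a ^ n) = (n : ZMod p) • sym p a := by
  induction n with
  | zero => rw [pow_zero, sym_one, Nat.cast_zero, zero_smul]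
  | succ n ih => rw [pow_succ, sym_mul, ih, Nat.cast_succ, add_smul, one_smul]

private theorem PSym_neg_one (h1 : ∃ c : k, c ^ p = -1) : sym p (-1 : (RatFunc k)ˣ) = 0 := by
  obtain ⟨c, hc⟩ := h1
  by_cases hp : p = 0
  · have h2 : (-1 : (RatFunc k)ˣ) = 1 := by
      apply Units.ext
      have h3 : algebraMap k (RatFunc k) (-1) = algebraMap k (RatFunc k) 1 := by
        rw [← hc, hp, pow_zero]
      rw [map_neg, map_one] at h3
      rw [Units.val_neg, Units.val_one]
      exact h3
    rw [h2, sym_one]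
  · have hc0 : c ≠ 0 := by
      rintro rfl
      rw [zero_pow hp] at hc
      exact one_ne_zero (neg_eq_zero.1 hc.symm)
    have h2 : algebraMap k (RatFunc k) c ≠ 0 :=
      (map_ne_zero (algebraMap k (RatFunc k))).2 hc0
    have h3 : (-1 : (RatFunc k)ˣ) = (Units.mk0 _ h2) ^ p := by
      apply Units.ext
      rw [Units.val_pow_eq_pow_val, Units.val_mk0, ← map_pow, hc, map_neg, map_one, Units.val_neg,
        Units.val_one]
    rw [h3, PSym_pow, ZMod.natCast_self, zero_smul]

private theorem PSym_neg (h1 : ∃ c : k, c ^ p = -1) (a : (RatFunc k)ˣ) :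
    sym p (-a) = sym p a := by
  rw [← neg_one_mul, sym_mul, PSym_neg_one p k h1, zero_add]

private theorem PSym_span {x : KM p (RatFunc k)} (hx : x ∈ KMn p (RatFunc k) 1) :
    x ∈ Submodule.span (ZMod p) (Set.range (sym p : (RatFunc k)ˣ → KM p (RatFunc k))) := by
  refine (Submodule.span_le.2 ?_ : KMn p (RatFunc k) 1 ≤ _) hx
  rintro y ⟨l, hl, rfl⟩
  rw [List.length_eq_one_iff] at hl
  obtain ⟨a, rfl⟩ := hl
  refine Submodule.subset_span ⟨a, ?_⟩
  simp

/-- all symbols anticommute and have square zero if `-1` is a `p`-th power -/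
theorem anti_KM [Fact p.Prime] (h1 : ∃ c : k, c ^ p = -1) :
    Anti ((KMn p (RatFunc k) 1 : Submodule (ZMod p) _) : Set (KM p (RatFunc k))) := by
  have hxy : ∀ x ∈ Submodule.span (ZMod p) (Set.range (sym p : (RatFunc k)ˣ → KM p (RatFunc k))),
      ∀ y ∈ Submodule.span (ZMod p) (Set.range (sym p : (RatFunc k)ˣ → KM p (RatFunc k))),
      x * y + y * x = 0 := by
    intro x hx y hy
    induction hx using Submodule.span_induction with
    | mem x hx =>
      obtain ⟨a, rfl⟩ := hx
      induction hy using Submodule.span_induction with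
      | mem y hy =>
        obtain ⟨b, rfl⟩ := hy
        exact sym_anticomm p a b
      | zero => rw [mul_zero, zero_mul, add_zero]
      | add y z _ _ h2 h3 =>
        rw [mul_add, add_mul]
        have : sym p a * y + sym p a * z + (y * sym p a + z * sym p a)
            = (sym p a * y + y * sym p a) + (sym p a * z + z * sym p a) := by abel
        rw [this, h2, h3, add_zero]
      | smul c y _ h2 => rw [mul_smul_comm, smul_mul_assoc, ← smul_add, h2, smul_zero]
    | zero => rw [mul_zero, zero_mul, add_zero]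
    | add x z _ _ h2 h3 =>
      rw [mul_add, add_mul]
      have : x * y + z * y + (y * x + y * z) = (x * y + y * x) + (z * y + y * z) := by abel
      rw [this, h2, h3, add_zero]
    | smul c x _ h2 => rw [mul_smul_comm, smul_mul_assoc, ← smul_add, h2, smul_zero]
  refine ⟨fun x hx => ?_, fun x hx y hy => hxy x (PSym_span p k hx) y (PSym_span p k hy)⟩
  have hx' := PSym_span p k hx
  clear hx
  induction hx' using Submodule.span_induction with
  | mem x hx =>
    obtain ⟨a, rfl⟩ := hx
    have h2 := sym_neg_self p a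
    rw [PSym_neg p k h1] at h2
    exact h2
  | zero => rw [mul_zero]
  | add x y hx hy h2 h3 =>
    have : (x + y) * (x + y) = x * x + y * y + (x * y + y * x) := by
      rw [mul_add, add_mul, add_mul]; abel
    rw [this, h2, h3, hxy x hx y hy, add_zero, add_zero]
  | smul c x _ h2 => rw [mul_smul_comm, smul_mul_assoc, h2, smul_zero, smul_zero]

theorem psym_neg (h1 : ∃ c : k, c ^ p = -1) (q : k[X]) : psym p k (-q) = psym p k q := by
  by_cases hq : q = 0
  · rw [hq, neg_zero]
  · have h2 : algebraMap k[X] (RatFunc k) q ≠ 0 := RatFunc.algebraMap_ne_zero hq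
    have h3 : algebraMap k[X] (RatFunc k) (-q) ≠ 0 :=
      RatFunc.algebraMap_ne_zero (neg_ne_zero.2 hq)
    rw [psym_eq p k hq h2, psym_eq p k (neg_ne_zero.2 hq) h3, ← PSym_neg p k h1]
    congr 1
    apply Units.ext
    rw [Units.val_neg, Units.val_mk0, Units.val_mk0, map_neg, neg_neg]

end Pool.Agent.KRat
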