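import Pool.Agent.KRat.PSym

/-!
Row PSYMB: the spans of symbols of polynomials of bounded degree.
-/

set_option autoImplicit false

namespace Pool.Agent.KRat

open Finsupp Pool.Agent.KMil Polynomial

universe u

variable (p : ℕ) (k : Type u) [Field k]

theorem VV_mono : Monotone (VV p k) := by
  intro d d' h
  unfold VV
  apply Submodule.span_mono
  rintro x ⟨q, hq, hd, rfl⟩
  exact ⟨q, hq, hd.trans h, rfl⟩

theorem VV_le (d : ℕ) : VV p k d ≤ KMn p (RatFunc k) 1 := by
  unfold VV
  rw [Submodule.span_le]
  rintro x ⟨q, hq, hd, rfl⟩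
  exact psym_mem p k q

theorem iSup_VV : ⨆ d, VV p k d = KMn p (RatFunc k) 1 := by
  apply le_antisymm (iSup_le fun d => VV_le p k d)
  unfold KMn
  rw [Submodule.span_le]
  rintro x ⟨l, hl, rfl⟩
  obtain ⟨u, rfl⟩ := List.length_eq_one_iff.1 hl
  obtain ⟨q, r, hq, hr, h⟩ := sym_eq_psym p k u
  have h1 : psym p k q ∈ ⨆ d, VV p k d :=
    Submodule.mem_iSup_of_mem q.natDegree (Submodule.subset_span ⟨q, hq, le_rfl, rfl⟩)
  have h2 : psym p k r ∈ ⨆ d, VV p k d :=
    Submodule.mem_iSup_of_mem r.natDegree (Submodule.subset_span ⟨r, hr, le_rfl, rfl⟩)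
  have h3 : (List.map (sym p) [u]).prod = psym p k q - psym p k r := by
    rw [← h]
    simp
  rw [SetLike.mem_coe, h3]
  exact Submodule.sub_mem _ h1 h2

theorem KMn_pow (n : ℕ) : KMn p (RatFunc k) n = KMn p (RatFunc k) 1 ^ n := by
  apply le_antisymm
  · conv_lhs => unfold KMn
    rw [Submodule.span_le]
    rintro x ⟨l, hl, rfl⟩
    subst hl
    induction l with
    | nil =>
      rw [List.map_nil, List.prod_nil, List.length_nil, pow_zero]
      exact Submodule.one_le.1 le_rfl
    | cons a l ih =>
      rw [List.map_cons, List.prod_cons, List.length_cons, pow_succ']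
      exact Submodule.mul_mem_mul (sym_mem p a) ih
  · induction n with
    | zero =>
      rw [pow_zero, KM_zero, Submodule.one_eq_span]
    | succ n ih =>
      rw [pow_succ]
      refine (mul_le_mul_left ih _).trans ?_
      rw [Submodule.mul_le]
      intro x hx y hy
      exact SetLike.mul_mem_graded hx hy

/-- the homogeneous elements of the algebra generated by a space of degree one -/
theorem mem_pow_of_iSup (V : Submodule (ZMod p) (KM p (RatFunc k))) (hV : V ≤ KMn p (RatFunc k) 1)
    (n : ℕ) {x : KM p (RatFunc k)} (hx : x ∈ KMn p (RatFunc k) n) (hx' : x ∈ ⨆ m : ℕ, V ^ m) :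
    x ∈ V ^ n := by
  have hle : ∀ m : ℕ, V ^ m ≤ KMn p (RatFunc k) m := by
    intro m
    rw [KMn_pow p k m]
    exact pow_le_pow_left' hV m
  have key : ∀ y ∈ ⨆ m : ℕ, V ^ m,
      ((DirectSum.decompose (KMn p (RatFunc k)) y n : KMn p (RatFunc k) n) : KM p (RatFunc k))
        ∈ V ^ n := by
    intro y hy
    induction hy using Submodule.iSup_induction' with
    | mem m y hy =>
      by_cases h : m = n
      · subst h
        rw [DirectSum.decompose_of_mem_same (KMn p (RatFunc k)) (hle m hy)]
        exact hy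
      · rw [DirectSum.decompose_of_mem_ne (KMn p (RatFunc k)) (hle m hy) h]
        exact zero_mem _
    | zero =>
      rw [DirectSum.decompose_zero]
      exact zero_mem _
    | add y z _ _ hy hz =>
      rw [DirectSum.decompose_add, DirectSum.add_apply, Submodule.coe_add]
      exact add_mem hy hz
  have h := key x hx'
  rwa [DirectSum.decompose_of_mem_same (KMn p (RatFunc k)) hx] at h

end Pool.Agent.KRat
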