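import Pool.Agent.KRat.Defs2

/-!
Row QUAD: quadratic operators vanish on the Koszul tensors; squares of differentials.
-/

set_option autoImplicit false

namespace Pool.Agent.KRat

open Finsupp Pool.Agent.KMil

universe u

section

variable {f : Type} [Field f] {I : Type*} {M N : Type*} [AddCommGroup M] [Module f M]
  [AddCommGroup N] [Module f N] {Q : Type*} [AddCommGroup Q] [Module f Q]

/-- a tensor killed by all functionals of the first factor is zero -/
private theorem Quad_tensor (t : TensorProduct f Q M)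
    (h : ∀ μ : Q →ₗ[f] f,
      TensorProduct.lift (LinearMap.lsmul f M ∘ₗ μ : Q →ₗ[f] M →ₗ[f] M) t = 0) : t = 0 := by
  classical
  let b := Module.Basis.ofVectorSpace f Q
  apply (TensorProduct.equivFinsuppOfBasisLeft (N := M) b).injective
  rw [map_zero]
  ext i
  have h1 := h (b.coord i)
  have h2 : (Finsupp.lapply i) ∘ₗ
      (TensorProduct.equivFinsuppOfBasisLeft (N := M) b).toLinearMap =
      TensorProduct.lift (LinearMap.lsmul f M ∘ₗ (b.coord i) : Q →ₗ[f] M →ₗ[f] M) := by
    ext q m
    simp
  have h3 := LinearMap.congr_fun h2 t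
  rw [h1] at h3
  exact h3

/-- membership in C says that all functionals of the products vanish on , so every bilinear
expression in the products vanishes -/
theorem quad_eq_zero (P : I → I → Q) (B : Q →ₗ[f] M →ₗ[f] N) {z : List I →₀ M}
    (hz : z ∈ C f P M) : quad (fun i j => B (P i j)) z = 0 := by
  have h0 : quad (fun i j => TensorProduct.mk f Q M (P i j)) z = 0 := by
    ext w
    apply Quad_tensor
    intro μ
    have h1 := (mem_C P).1 hz μ []
    have h2 := mp_quad (fun i j => TensorProduct.mk f Q M (P i j))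
      (TensorProduct.lift (LinearMap.lsmul f M ∘ₗ μ : Q →ₗ[f] M →ₗ[f] M)) z
    have h3 : (fun i j => (TensorProduct.lift
        (LinearMap.lsmul f M ∘ₗ μ : Q →ₗ[f] M →ₗ[f] M)) ∘ₗ TensorProduct.mk f Q M (P i j)) =
        (fun i j => μ (P i j) • (LinearMap.id : M →ₗ[f] M)) := by
      funext i j
      ext m
      simp
    rw [h3] at h2
    have h4 : quad (fun i j => μ (P i j) • (LinearMap.id : M →ₗ[f] M)) z = 0 := h1
    rw [h4] at h2
    rw [← mp_apply, h2]
    rfl
  have h5 := mp_quad (fun i j => TensorProduct.mk f Q M (P i j)) (TensorProduct.lift B) z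
  rw [h0, map_zero] at h5
  have h6 : (fun i j => (TensorProduct.lift B) ∘ₗ TensorProduct.mk f Q M (P i j)) =
      (fun i j => B (P i j)) := by
    funext i j
    ext m
    simp
  rw [h6] at h5
  exact h5.symm

theorem C_dif (P : I → I → Q) (g : I → M →ₗ[f] N) {z : List I →₀ M} (hz : z ∈ C f P M) :
    dif g z ∈ C f P N := by
  classical
  let S : Finset I := z.support.biUnion (fun w' => w'.toFinset)
  have h : dif g z = ∑ i ∈ S, mp (g i) (tl f i z) := by
    ext w
    rw [dif_apply g z w S ?_, Finsupp.finsetSum_apply]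
    · refine Finset.sum_congr rfl fun i _ => ?_
      rw [mp_apply, tl_apply]
    · intro i hi
      refine Finset.mem_biUnion.2 ⟨i :: w, Finsupp.mem_support_iff.2 hi, ?_⟩
      simp
  rw [h]
  exact Submodule.sum_mem _ fun i _ => C_mp P (g i) (C_tl P i hz)

theorem C_con (P : I → I → Q) (y : I → f) {z : List I →₀ M} (hz : z ∈ C f P M) :
    con y z ∈ C f P M := C_dif P _ hz

theorem C_of_map {Q' : Type*} [AddCommGroup Q'] [Module f Q'] (P : I → I → Q) (θ : Q →ₗ[f] Q') :
    C f P M ≤ C f (fun i j => θ (P i j)) M := by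
  intro z hz
  rw [mem_C] at hz ⊢
  intro μ u
  exact hz (μ ∘ₗ θ) u

end

end Pool.Agent.KRat
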