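import Pool.Agent.KRat.ResD
import Pool.Agent.KRat.Gen
import Pool.Agent.KRat.Ker

/-!
Row RESDB: the residue data.
-/

set_option autoImplicit false

namespace Pool.Agent.KRat

open Finsupp Pool.Agent.KMil Polynomial

universe u

variable (p : ℕ) {k : Type u} [Field k]

/-- a polynomial of small degree is prime to the place -/
theorem ResDB_not_dvd {d : ℕ} (π : Pl k (d + 1)) {q : k[X]} (hq : q ≠ 0) (hd : q.natDegree ≤ d) :
    ¬ π.1 ∣ q := by
  intro h
  have h1 := Polynomial.natDegree_le_of_dvd h hq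
  rw [π.2.2.2] at h1
  omega

/-- different places are prime to each other -/
theorem ResDB_not_dvd_pl {d : ℕ} (π ρ : Pl k d) (h : π ≠ ρ) : ¬ ρ.1 ∣ π.1 := by
  intro h1
  apply h
  have h2 : Associated ρ.1 π.1 := ρ.2.2.1.associated_of_dvd π.2.2.1 h1
  exact Subtype.ext (Polynomial.eq_of_monic_of_associated ρ.2.1 π.2.1 h2).symm

theorem exists_res [Fact p.Prime] (h1 : ∃ c : k, c ^ p = -1)
    (hE : ∀ (d : ℕ) (π : Pl k d), ExtF p (AdjoinRoot π.1)) (d : ℕ) :
    Nonempty (Res (VV p k d) (VV p k (d + 1)) (Pl k (d + 1))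
      (fun π => PW p (AdjoinRoot π.1))) := by
  choose ev del hev hdel1 hdel2 hdel3 using
    fun π : Pl k (d + 1) => exists_ev_del p h1 π (hE (d + 1) π)
  have hdm : ∀ π, ∀ v ∈ VV p k d, ∀ a, del π (v * a) = -(ev π v * del π a) := by
    intro π v hv a
    unfold VV at hv
    induction hv using Submodule.span_induction with
    | mem x hx =>
      obtain ⟨q, hq, hqd, rfl⟩ := hx
      exact hdel2 π q (ResDB_not_dvd π hq hqd) a
    | zero => simp
    | add x y _ _ hx hy =>
      rw [add_mul, map_add, map_add, hx, hy, add_mul]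
      abel
    | smul c x _ hx =>
      rw [smul_mul_assoc, map_smul, map_smul, hx, smul_mul_assoc, smul_neg]
  have hdz : ∀ π, ∀ n, ∀ a ∈ VV p k d ^ n, del π a = 0 := by
    intro π n
    induction n with
    | zero =>
      intro a ha
      rw [pow_zero, Submodule.mem_one] at ha
      obtain ⟨c, rfl⟩ := ha
      rw [Algebra.algebraMap_eq_smul_one, map_smul, hdel1, smul_zero]
    | succ n ih =>
      intro a ha
      rw [pow_succ'] at ha
      induction ha using Submodule.mul_induction_on' with
      | mem_mul_mem v hv b hb => rw [hdm π v hv, ih b hb, mul_zero, neg_zero]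
      | add x _ y _ hx hy => rw [map_add, hx, hy, add_zero]
  refine ⟨{
    ev := ev
    del := del
    e := fun π => psym p k π.1
    le := VV_mono p k (Nat.le_succ d)
    e_mem := fun π => psym_pl_mem p k d π
    del_mul := hdm
    del_one := hdel1
    del_e := fun π n a _ => hdel3 π a
    del_e_ne := ?_
    ev_mem := ?_
    ev_surj := ?_
    dec := fun n x hx => dec p k h1 d n x hx
    ker := ?_ }⟩
  · intro π ρ hπρ n a ha
    rw [hdel2 ρ π.1 (ResDB_not_dvd_pl π ρ hπρ) a, hdz ρ n a ha, mul_zero, neg_zero]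
  · intro π v hv
    unfold VV at hv
    induction hv using Submodule.span_induction with
    | mem x hx =>
      obtain ⟨q, hq, hqd, rfl⟩ := hx
      exact ⟨_, hev π q (ResDB_not_dvd π hq hqd)⟩
    | zero => exact ⟨0, by rw [map_zero, map_zero]⟩
    | add x y _ _ hx hy =>
      obtain ⟨a, ha⟩ := hx
      obtain ⟨b, hb⟩ := hy
      exact ⟨a + b, by rw [map_add, map_add, ha, hb]⟩
    | smul c x _ hx =>
      obtain ⟨a, ha⟩ := hx
      exact ⟨c • a, by rw [map_smul, map_smul, ha]⟩
  · intro π w
    obtain ⟨q, hq, hqd, rfl⟩ := rcls_surj p π w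
    exact ⟨psym p k q, Submodule.subset_span ⟨q, hq, hqd, rfl⟩,
      hev π q (ResDB_not_dvd π hq hqd)⟩
  · intro π n a ha h0
    exact ker_ev p h1 d π (ev π) (fun q hq hqd => hev π q (ResDB_not_dvd π hq hqd)) n a ha h0

end Pool.Agent.KRat
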