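import Pool.Agent.KRat.Ins

/-!
Row SEC: the section `sec`.
-/

set_option autoImplicit false

namespace Pool.Agent.KRat

open Finsupp Pool.Agent.KMil

universe u

variable {f : Type} [Field f] {I : Type*} {M N : Type*} [AddCommGroup M] [Module f M]
  [AddCommGroup N] [Module f N] {Q : Type*} [AddCommGroup Q] [Module f Q]

theorem sec_apply (x : I →₀ f) (y : I → f) (N : ℕ) (z : List I →₀ M) :
    sec x y N z = ∑ k ∈ Finset.range N, ((-1 : f) ^ k) • ins x (k + 1) ((con y ^ k) z) := by
  unfold sec
  rw [LinearMap.sum_apply]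
  rfl

theorem con_short (y : I → f) (N : ℕ) {z : List I →₀ M} (hz : Short (N + 1) z) :
    Short N (con y z) := by
  intro w hw
  have h1 : ∃ i, z (i :: w) ≠ 0 := by
    by_contra h
    push Not at h
    apply hw
    have h2 := dif_apply (fun i => y i • (LinearMap.id : M →ₗ[f] M)) z w ∅
      (fun i hi => absurd (h i) hi)
    rw [Finset.sum_empty] at h2
    exact h2
  obtain ⟨i, hi⟩ := h1
  have h2 := hz _ hi
  rw [List.length_cons] at h2
  omega

theorem con_pow_short (y : I → f) (N : ℕ) {z : List I →₀ M} (hz : Short N z) :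
    (con y ^ N) z = 0 := by
  induction N generalizing z with
  | zero =>
    have h1 : z = 0 := by
      ext w
      by_contra h
      exact absurd (hz w h) (Nat.not_lt_zero _)
    rw [h1, map_zero]
  | succ N ih =>
    rw [pow_succ]
    exact ih (con_short y N hz)

theorem exists_short (z : List I →₀ M) : ∃ N, Short N z :=
  ⟨z.support.sup List.length + 1, fun _ hw => Nat.lt_succ_of_le
    (Finset.le_sup (f := List.length) (Finsupp.mem_support_iff.2 hw))⟩

theorem con_pow_mp (y : I → f) (k : ℕ) (φ : M →ₗ[f] N) (z : List I →₀ M) :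
    (con y ^ k) (mp φ z) = mp φ ((con y ^ k) z) := by
  induction k generalizing z with
  | zero => rfl
  | succ k ih =>
    rw [pow_succ, pow_succ]
    show (con y ^ k) (con y (mp φ z)) = mp φ ((con y ^ k) (con y z))
    rw [con_mp, ih]

theorem sec_mp (x : I →₀ f) (y : I → f) (n : ℕ) (φ : M →ₗ[f] N) (z : List I →₀ M) :
    sec x y n (mp φ z) = mp φ (sec x y n z) := by
  rw [sec_apply, sec_apply, map_sum]
  refine Finset.sum_congr rfl fun k _ => ?_
  rw [con_pow_mp, ins_mp, map_smul]

theorem con_pow_C (P : I → I → Q) (y : I → f) (k : ℕ) {z : List I →₀ M} (hz : z ∈ C f P M) :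
    (con y ^ k) z ∈ C f P M := by
  induction k generalizing z with
  | zero => exact hz
  | succ k ih =>
    rw [pow_succ]
    exact ih (C_con P y hz)

theorem sec_C (P : I → I → Q) (h1 : ∀ i, P i i = 0) (h2 : ∀ i j, P i j + P j i = 0)
    (x : I →₀ f) (y : I → f) (N : ℕ) {z : List I →₀ M} (hz : z ∈ C f P M) :
    sec x y N z ∈ C f P M := by
  rw [sec_apply]
  exact Submodule.sum_mem _ fun k _ => Submodule.smul_mem _ _
    (ins_C P h1 h2 x (k + 1) (con_pow_C P y k hz))

/-- the alternating sum of the insertions of the contractions -/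
theorem alt_sum (x : I →₀ f) (y : I → f) (N : ℕ) {z : List I →₀ M} (hz : Short N z) :
    ∑ k ∈ Finset.range N, ((-1 : f) ^ k) • ins x k ((con y ^ k) z) =
      z - sec x y N (con y z) := by
  have h1 := Finset.sum_range_succ (fun k => ((-1 : f) ^ k) • ins x k ((con y ^ k) z)) N
  have h2 := Finset.sum_range_succ' (fun k => ((-1 : f) ^ k) • ins x k ((con y ^ k) z)) N
  rw [con_pow_short y N hz, map_zero, smul_zero, add_zero] at h1
  rw [← h1, h2, sec_apply]
  have h3 : ∀ k, ((-1 : f) ^ (k + 1)) • ins x (k + 1) ((con y ^ (k + 1)) z) =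
      -(((-1 : f) ^ k) • ins x (k + 1) ((con y ^ k) (con y z))) := by
    intro k
    have e : (con y ^ (k + 1)) z = (con y ^ k) (con y z) := by
      rw [pow_succ]
      rfl
    rw [e, pow_succ, mul_neg_one, neg_smul]
  have h4 : ((-1 : f) ^ 0) • ins x 0 ((con y ^ 0) z) = z := by
    rw [pow_zero, one_smul, ins_zero]
    rfl
  rw [Finset.sum_congr rfl fun k _ => h3 k, h4, Finset.sum_neg_distrib]
  abel

end Pool.Agent.KRat
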