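import Pool.Agent.KRat.KerA

/-!
Row SPEC: the specialisation at a monic irreducible polynomial.
-/

set_option autoImplicit false

namespace Pool.Agent.KRat

open Finsupp Pool.Agent.KMil Polynomial

universe u

variable (p : ℕ) {k : Type u} [Field k]

private theorem spec_uniq {d : ℕ} (π : Pl k d) (m n : ℕ) (q r : k[X])
    (h : π.1 ^ m * q = π.1 ^ n * r) (hq : ¬ π.1 ∣ q) (hr : ¬ π.1 ∣ r) : m = n ∧ q = r := by
  have h0 : π.1 ≠ 0 := π.2.1.ne_zero
  induction m generalizing n with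
  | zero =>
    cases n with
    | zero => exact ⟨rfl, by simpa using h⟩
    | succ n =>
      exfalso
      apply hq
      refine ⟨π.1 ^ n * r, ?_⟩
      rw [pow_zero, one_mul] at h
      rw [h, pow_succ']
      ring
  | succ m ih =>
    cases n with
    | zero =>
      exfalso
      apply hr
      refine ⟨π.1 ^ m * q, ?_⟩
      rw [pow_zero, one_mul] at h
      rw [← h, pow_succ']
      ring
    | succ n =>
      have h' : π.1 ^ m * q = π.1 ^ n * r := by
        apply mul_left_cancel₀ h0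
        rw [← mul_assoc, ← mul_assoc, ← pow_succ', ← pow_succ']
        exact h
      obtain ⟨h1, h2⟩ := ih n h'
      exact ⟨by rw [h1], h2⟩

private theorem spec_ex {d : ℕ} (π : Pl k d) (q : k[X]) (hq : q ≠ 0) :
    ∃ x : ℕ × k[X], q = π.1 ^ x.1 * x.2 ∧ ¬ π.1 ∣ x.2 := by
  have hu : ¬ IsUnit π.1 := π.2.2.1.not_isUnit
  obtain ⟨n, c, hc, h⟩ := WfDvdMonoid.max_power_factor (a₀ := q) (x := π.1) hq π.2.2.1
  exact ⟨(n, c), h, hc⟩

private theorem spec_one {d : ℕ} (π : Pl k d) : ¬ π.1 ∣ (1 : k[X]) := by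
  intro h
  exact π.2.2.1.not_isUnit (isUnit_of_dvd_one h)

private theorem spec_grp {G : Type*} [AddCommGroup G] (x : G) (h : x = x + x) : x = 0 :=
  left_eq_add.mp h

private theorem rcls_one {d : ℕ} (π : Pl k d) : rcls p π (1 : k[X]) = 0 := by
  have h := rcls_mul p π 1 1 (spec_one π) (spec_one π)
  rw [one_mul] at h
  exact spec_grp _ h

open Classical in
private noncomputable def chi {d : ℕ} (π : Pl k d) (q : k[X]) : PZ p (AdjoinRoot π.1) :=
  if h : ∃ x : ℕ × k[X], q = π.1 ^ x.1 * x.2 ∧ ¬ π.1 ∣ x.2 then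
    inlZ p (AdjoinRoot π.1) (rcls p π h.choose.2) + h.choose.1 • xiZ p (AdjoinRoot π.1)
  else 0

private theorem chi_eq {d : ℕ} (π : Pl k d) (m : ℕ) (q : k[X]) (hq : ¬ π.1 ∣ q) :
    chi p π (π.1 ^ m * q) =
      inlZ p (AdjoinRoot π.1) (rcls p π q) + m • xiZ p (AdjoinRoot π.1) := by
  have h : ∃ x : ℕ × k[X], π.1 ^ m * q = π.1 ^ x.1 * x.2 ∧ ¬ π.1 ∣ x.2 := ⟨(m, q), rfl, hq⟩
  unfold chi
  rw [dif_pos h]
  obtain ⟨h1, h2⟩ := spec_uniq π m h.choose.1 q h.choose.2 h.choose_spec.1 hq h.choose_spec.2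
  rw [← h1, ← h2]

/-- the value of the specialisation on polynomials: unit part and multiplicity -/
theorem exists_chi {d : ℕ} (π : Pl k d) :
    ∃ χ : k[X] → PZ p (AdjoinRoot π.1),
      (∀ q r, q ≠ 0 → r ≠ 0 → χ (q * r) = χ q + χ r) ∧
      χ π.1 = xiZ p (AdjoinRoot π.1) ∧
      (∀ q, ¬ π.1 ∣ q → χ q = inlZ p (AdjoinRoot π.1) (rcls p π q)) := by
  refine ⟨chi p π, ?_, ?_, ?_⟩
  · intro q r hq hr
    obtain ⟨⟨m, q'⟩, h1, h2⟩ := spec_ex π q hq
    obtain ⟨⟨n, r'⟩, h3, h4⟩ := spec_ex π r hr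
    simp only at h1 h2 h3 h4
    have h5 : ¬ π.1 ∣ q' * r' := by
      intro h
      rcases π.2.2.1.prime.dvd_or_dvd h with h | h
      · exact h2 h
      · exact h4 h
    have h6 : q * r = π.1 ^ (m + n) * (q' * r') := by
      rw [h1, h3, pow_add]
      ring
    rw [h6, chi_eq p π _ _ h5, h1, chi_eq p π _ _ h2, h3, chi_eq p π _ _ h4,
      rcls_mul p π _ _ h2 h4, map_add, add_smul]
    abel
  · have h := chi_eq p π 1 1 (spec_one π)
    rw [pow_one, mul_one, rcls_one, map_zero, zero_add, one_smul] at h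
    exact h
  · intro q hq
    have h := chi_eq p π 0 q hq
    rw [pow_zero, one_mul, zero_smul, add_zero] at h
    exact h

end Pool.Agent.KRat
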