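import Pool.Agent.KRat.Spec

/-!
Row SPECB: the specialisation on the Milnor ring.
-/

set_option autoImplicit false

namespace Pool.Agent.KRat

open Finsupp Pool.Agent.KMil Polynomial

universe u

variable (p : ℕ) {k : Type u} [Field k]

section chi

variable {p} {X : Type*} [AddCommGroup X] {χ : k[X] → X}

theorem chi_one (hm : ∀ q r, q ≠ 0 → r ≠ 0 → χ (q * r) = χ q + χ r) : χ 1 = 0 := by
  have h := hm 1 1 one_ne_zero one_ne_zero
  rw [mul_one] at h
  exact left_eq_add.1 h

/-- the value on a unit of the rational function field -/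
noncomputable def chiU (χ : k[X] → X) (u : (RatFunc k)ˣ) : X :=
  χ (u : RatFunc k).num - χ (u : RatFunc k).denom

theorem chiU_eq (hm : ∀ q r, q ≠ 0 → r ≠ 0 → χ (q * r) = χ q + χ r) (u : (RatFunc k)ˣ)
    {q r : k[X]} (hq : q ≠ 0) (hr : r ≠ 0)
    (h : (u : RatFunc k) * algebraMap k[X] (RatFunc k) r = algebraMap k[X] (RatFunc k) q) :
    chiU χ u = χ q - χ r := by
  have hn : (u : RatFunc k).num ≠ 0 := RatFunc.num_ne_zero u.ne_zero
  have hd : (u : RatFunc k).denom ≠ 0 := RatFunc.denom_ne_zero _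
  have hd' : algebraMap k[X] (RatFunc k) (u : RatFunc k).denom ≠ 0 := by
    rw [Ne, map_eq_zero_iff _ (RatFunc.algebraMap_injective k)]
    exact hd
  have e : (u : RatFunc k).num * r = q * (u : RatFunc k).denom := by
    apply RatFunc.algebraMap_injective k
    rw [map_mul, map_mul, ← h]
    have h3 : algebraMap k[X] (RatFunc k) (u : RatFunc k).num =
        (u : RatFunc k) * algebraMap k[X] (RatFunc k) (u : RatFunc k).denom :=
      (div_eq_iff hd').1 (RatFunc.num_div_denom (u : RatFunc k))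
    rw [h3]
    ring
  have h1 := hm _ _ hn hr
  have h2 := hm _ _ hq hd
  rw [e, h2] at h1
  unfold chiU
  rw [sub_eq_sub_iff_add_eq_add]
  rw [← h1]

theorem exists_frac (u : (RatFunc k)ˣ) : ∃ q r : k[X], q ≠ 0 ∧ r ≠ 0 ∧
    (u : RatFunc k) * algebraMap k[X] (RatFunc k) r = algebraMap k[X] (RatFunc k) q := by
  refine ⟨(u : RatFunc k).num, (u : RatFunc k).denom, RatFunc.num_ne_zero u.ne_zero,
    RatFunc.denom_ne_zero _, ?_⟩
  have hd' : algebraMap k[X] (RatFunc k) (u : RatFunc k).denom ≠ 0 := by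
    rw [Ne, map_eq_zero_iff _ (RatFunc.algebraMap_injective k)]
    exact RatFunc.denom_ne_zero _
  exact ((div_eq_iff hd').1 (RatFunc.num_div_denom (u : RatFunc k))).symm

theorem chiU_mul (hm : ∀ q r, q ≠ 0 → r ≠ 0 → χ (q * r) = χ q + χ r) (u v : (RatFunc k)ˣ) :
    chiU χ (u * v) = chiU χ u + chiU χ v := by
  obtain ⟨q, r, hq, hr, h⟩ := exists_frac u
  obtain ⟨q', r', hq', hr', h'⟩ := exists_frac v
  rw [chiU_eq hm u hq hr h, chiU_eq hm v hq' hr' h',
    chiU_eq hm (u * v) (mul_ne_zero hq hq') (mul_ne_zero hr hr') (by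
      rw [map_mul, map_mul, ← h, ← h', Units.val_mul]
      ring), hm _ _ hq hq', hm _ _ hr hr']
  abel

end chi

theorem rcls_neg_one (h1 : ∃ c : k, c ^ p = -1) {d : ℕ} (π : Pl k d) :
    rcls p π (-1) = 0 := by
  have hne : AdjoinRoot.mk π.1 (-1 : k[X]) ≠ 0 := by
    rw [map_neg, map_one]
    exact neg_ne_zero.2 one_ne_zero
  unfold rcls
  rw [dif_neg hne]
  obtain ⟨c, hc⟩ := h1
  have e : Units.mk0 _ hne = (-1 : (AdjoinRoot π.1)ˣ) := by
    apply Units.ext
    rw [Units.val_mk0, Units.val_neg, Units.val_one, map_neg, map_one]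
  rw [e]
  apply cls_neg_one
  refine ⟨algebraMap k (AdjoinRoot π.1) c, ?_⟩
  rw [← map_pow, hc, map_neg, map_one]

theorem not_dvd_mk {d : ℕ} (π : Pl k d) {q : k[X]} (h : ¬ π.1 ∣ q) :
    AdjoinRoot.mk π.1 q ≠ 0 := by
  rw [Ne, AdjoinRoot.mk_eq_zero]
  exact h

theorem rcls_of_not_dvd {d : ℕ} (π : Pl k d) {q : k[X]} (h : ¬ π.1 ∣ q) :
    rcls p π q = cls p (Units.mk0 _ (not_dvd_mk π h)) := by
  unfold rcls
  rw [dif_neg (not_dvd_mk π h)]

theorem spec_aux [Fact p.Prime] (h1 : ∃ c : k, c ^ p = -1) {d : ℕ} (π : Pl k d)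
    (hE : ExtF p (AdjoinRoot π.1)) {χ : k[X] → PZ p (AdjoinRoot π.1)}
    (hu : ∀ q, ¬ π.1 ∣ q → χ q = inlZ p (AdjoinRoot π.1) (rcls p π q))
    (a b c : k[X]) (h : a + b = c) (hn : ¬ (π.1 ∣ a ∧ π.1 ∣ b)) :
    ExteriorAlgebra.ι (ZMod p) (χ a - χ c) * ExteriorAlgebra.ι (ZMod p) (χ b - χ c) = 0 := by
  by_cases ha : π.1 ∣ a
  · have hb : ¬ π.1 ∣ b := fun hb => hn ⟨ha, hb⟩
    have hc : ¬ π.1 ∣ c := by
      intro hc
      apply hb
      have e : b = c - a := by rw [← h]; ring
      rw [e]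
      exact dvd_sub hc ha
    have e : χ b = χ c := by
      rw [hu b hb, hu c hc, rcls_congr p π b c]
      have e' : b - c = -a := by rw [← h]; ring
      rw [e']
      exact (dvd_neg).2 ha
    rw [e, sub_self, map_zero, mul_zero]
  · by_cases hb : π.1 ∣ b
    · have hc : ¬ π.1 ∣ c := by
        intro hc
        apply ha
        have e : a = c - b := by rw [← h]; ring
        rw [e]
        exact dvd_sub hc hb
      have e : χ a = χ c := by
        rw [hu a ha, hu c hc, rcls_congr p π a c]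
        have e' : a - c = -b := by rw [← h]; ring
        rw [e']
        exact (dvd_neg).2 hb
      rw [e, sub_self, map_zero, zero_mul]
    · by_cases hc : π.1 ∣ c
      · have e : χ a = χ b := by
          have hone : ¬ π.1 ∣ (-1 : k[X]) := by
            rw [dvd_neg]
            intro h'
            exact π.2.2.1.not_isUnit (isUnit_of_dvd_one h')
          have e2 : rcls p π (-1 * b) = rcls p π b := by
            rw [rcls_mul p π (-1) b hone hb, rcls_neg_one p h1 π]
            exact zero_add (rcls p π b)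
          rw [hu a ha, hu b hb, rcls_congr p π a (-1 * b), e2]
          have e' : a - (-1) * b = c := by rw [← h]; ring
          rw [e']
          exact hc
        rw [e]
        exact ExteriorAlgebra.ι_sq_zero _
      · rw [hu a ha, hu b hb, hu c hc, rcls_of_not_dvd p π ha, rcls_of_not_dvd p π hb,
          rcls_of_not_dvd p π hc]
        set ua := Units.mk0 _ (not_dvd_mk π ha) with hua
        set ub := Units.mk0 _ (not_dvd_mk π hb) with hub
        set uc := Units.mk0 _ (not_dvd_mk π hc) with huc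
        have hw := wedge_zero p hE (inlZ p (AdjoinRoot π.1)) (ua * uc⁻¹) (ub * uc⁻¹) (by
          rw [Units.val_mul, Units.val_mul, ← add_mul, hua, hub, Units.val_mk0, Units.val_mk0,
            ← map_add, h, huc, Units.val_inv_eq_inv_val, Units.val_mk0]
          exact mul_inv_cancel₀ (not_dvd_mk π hc))
        have e1 : ∀ u : (AdjoinRoot π.1)ˣ, inlZ p (AdjoinRoot π.1) (cls p (u * uc⁻¹)) =
            inlZ p (AdjoinRoot π.1) (cls p u) - inlZ p (AdjoinRoot π.1) (cls p uc) := by
          intro u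
          rw [cls_mul, cls_inv, ← sub_eq_add_neg, map_sub]
        rw [e1, e1] at hw
        exact hw

theorem spec_steinberg [Fact p.Prime] (h1 : ∃ c : k, c ^ p = -1) {d : ℕ} (π : Pl k d)
    (hE : ExtF p (AdjoinRoot π.1)) {χ : k[X] → PZ p (AdjoinRoot π.1)}
    (hm : ∀ q r, q ≠ 0 → r ≠ 0 → χ (q * r) = χ q + χ r)
    (hu : ∀ q, ¬ π.1 ∣ q → χ q = inlZ p (AdjoinRoot π.1) (rcls p π q)) :
    ∀ (n : ℕ) (a b c : k[X]), a.natDegree ≤ n → a ≠ 0 → b ≠ 0 → c ≠ 0 → a + b = c →
      ExteriorAlgebra.ι (ZMod p) (χ a - χ c) * ExteriorAlgebra.ι (ZMod p) (χ b - χ c) = 0 := by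
  have hdeg : 0 < π.1.natDegree := π.2.2.1.natDegree_pos
  have hπ0 : π.1 ≠ 0 := π.2.2.1.ne_zero
  intro n
  induction n with
  | zero =>
    intro a b c han ha hb hc h
    refine spec_aux p h1 π hE hu a b c h ?_
    rintro ⟨hd, -⟩
    have := Polynomial.natDegree_le_of_dvd hd ha
    omega
  | succ n ih =>
    intro a b c han ha hb hc h
    by_cases hn : π.1 ∣ a ∧ π.1 ∣ b
    · obtain ⟨⟨a', rfl⟩, ⟨b', rfl⟩⟩ := hn
      have hc' : c = π.1 * (a' + b') := by rw [← h]; ring
      subst hc'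
      have ha' : a' ≠ 0 := right_ne_zero_of_mul ha
      have hb' : b' ≠ 0 := right_ne_zero_of_mul hb
      have hab : a' + b' ≠ 0 := right_ne_zero_of_mul hc
      rw [hm _ _ hπ0 ha', hm _ _ hπ0 hb', hm _ _ hπ0 hab, add_sub_add_left_eq_sub,
        add_sub_add_left_eq_sub]
      refine ih a' b' (a' + b') ?_ ha' hb' hab rfl
      rw [Polynomial.natDegree_mul hπ0 ha'] at han
      omega
    · exact spec_aux p h1 π hE hu a b c h hn

theorem exists_spec [Fact p.Prime] (h1 : ∃ c : k, c ^ p = -1) {d : ℕ} (π : Pl k d)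
    (hE : ExtF p (AdjoinRoot π.1)) :
    ∃ S : KM p (RatFunc k) →ₐ[ZMod p] ExteriorAlgebra (ZMod p) (PZ p (AdjoinRoot π.1)),
      S (psym p k π.1) = ExteriorAlgebra.ι (ZMod p) (xiZ p (AdjoinRoot π.1)) ∧
      ∀ q : k[X], ¬ π.1 ∣ q →
        S (psym p k q) = ExteriorAlgebra.ι (ZMod p) (inlZ p (AdjoinRoot π.1) (rcls p π q)) := by
  obtain ⟨χ, hm, hπ, hu⟩ := exists_chi p π
  have hrel : ∀ x y, MRel p (RatFunc k) x y →
      FreeAlgebra.lift (ZMod p) (fun u : (RatFunc k)ˣ => ExteriorAlgebra.ι (ZMod p) (chiU χ u)) x =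
      FreeAlgebra.lift (ZMod p)
        (fun u : (RatFunc k)ˣ => ExteriorAlgebra.ι (ZMod p) (chiU χ u)) y := by
    intro x y hxy
    cases hxy with
    | mul u v =>
      rw [map_add, FreeAlgebra.lift_ι_apply, FreeAlgebra.lift_ι_apply, FreeAlgebra.lift_ι_apply,
        chiU_mul hm, map_add]
    | steinberg u v h =>
      rw [map_mul, FreeAlgebra.lift_ι_apply, FreeAlgebra.lift_ι_apply, map_zero]
      obtain ⟨q, r, hq, hr, h2⟩ := exists_frac u
      obtain ⟨q', r', hq', hr', h3⟩ := exists_frac v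
      have hab : q * r' + q' * r = r * r' := by
        apply RatFunc.algebraMap_injective k
        rw [map_add, map_mul, map_mul, map_mul, ← h2, ← h3]
        calc (u : RatFunc k) * algebraMap k[X] (RatFunc k) r * algebraMap k[X] (RatFunc k) r' +
              (v : RatFunc k) * algebraMap k[X] (RatFunc k) r' * algebraMap k[X] (RatFunc k) r
            = ((u : RatFunc k) + (v : RatFunc k)) * (algebraMap k[X] (RatFunc k) r *
              algebraMap k[X] (RatFunc k) r') := by ring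
          _ = _ := by rw [h, one_mul]
      rw [chiU_eq hm u (mul_ne_zero hq hr') (mul_ne_zero hr hr') (by
          rw [map_mul, map_mul, ← h2]; ring),
        chiU_eq hm v (mul_ne_zero hq' hr) (mul_ne_zero hr hr') (by
          rw [map_mul, map_mul, ← h3]; ring)]
      exact spec_steinberg p h1 π hE hm hu _ _ _ _ le_rfl (mul_ne_zero hq hr')
        (mul_ne_zero hq' hr) (mul_ne_zero hr hr') hab
  have key : ∀ q : k[X], q ≠ 0 → liftKM (FreeAlgebra.lift (ZMod p)
      (fun u : (RatFunc k)ˣ => ExteriorAlgebra.ι (ZMod p) (chiU χ u))) hrel (psym p k q) =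
      ExteriorAlgebra.ι (ZMod p) (χ q) := by
    intro q hq
    have hq' : algebraMap k[X] (RatFunc k) q ≠ 0 := by
      rw [Ne, map_eq_zero_iff _ (RatFunc.algebraMap_injective k)]
      exact hq
    rw [psym_eq p k hq hq']
    unfold sym
    rw [liftKM_quo, FreeAlgebra.lift_ι_apply, chiU_eq hm _ hq one_ne_zero (by
      rw [Units.val_mk0, map_one, mul_one]), chi_one hm, sub_zero]
  refine ⟨liftKM _ hrel, ?_, ?_⟩
  · rw [key _ π.2.2.1.ne_zero, hπ]
  · intro q hq
    have hq0 : q ≠ 0 := by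
      rintro rfl
      exact hq (dvd_zero _)
    rw [key q hq0, hu q hq]

end Pool.Agent.KRat
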