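import Pool.Agent.KRat.Defs2

/-!
Row UNION: the union of a chain.
-/

set_option autoImplicit false

namespace Pool.Agent.KRat

open Finsupp Pool.Agent.KMil

universe u

private theorem ad_step {f : Type} [Field f] {A : Type u} [AddCommGroup A] [Module f A]
    (V : ℕ → Submodule f A) (hV : Monotone V) (d : ℕ) (s : Set A)
    (hs : LinearIndepOn f id s) (hsV : s ⊆ V d) :
    ∃ b : Set A, LinearIndepOn f id b ∧ s ⊆ b ∧ Submodule.span f b = V (d + 1) := by
  obtain ⟨b, hb1, hb2, hb3, hb4⟩ := exists_linearIndepOn_id_extension (K := f) (s := s)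
    (t := (V (d + 1) : Set A)) hs (hsV.trans (hV (Nat.le_succ d)))
  refine ⟨b, hb4, hb2, le_antisymm (Submodule.span_le.mpr hb1) hb3⟩

/-- a basis adapted to a chain of subspaces -/
theorem exists_adapted {f : Type} [Field f] {A : Type u} [AddCommGroup A] [Module f A]
    (V : ℕ → Submodule f A) (hV : Monotone V) :
    ∃ B : Set A, LinearIndependent f (Subtype.val : B → A) ∧
      Submodule.span f B = ⨆ d, V d ∧ ∀ d, Submodule.span f (B ∩ (V d : Set A)) = V d := by
  classical
  let St (d : ℕ) : Type u := {s : Set A // LinearIndepOn f id s ∧ Submodule.span f s = V d}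
  have h0 : Nonempty (St 0) := by
    obtain ⟨b, hb1, hb2, hb3, hb4⟩ := exists_linearIndepOn_id_extension (K := f) (s := (∅ : Set A))
      (t := (V 0 : Set A)) (linearIndepOn_empty f id) (Set.empty_subset _)
    exact ⟨⟨b, hb4, le_antisymm (Submodule.span_le.mpr hb1) hb3⟩⟩
  have hstep : ∀ d (s : St d), ∃ b : St (d + 1), s.1 ⊆ b.1 := by
    intro d s
    obtain ⟨b, hb1, hb2, hb3⟩ := ad_step V hV d s.1 s.2.1
      (fun x hx => by
        have h1 : x ∈ Submodule.span f s.1 := Submodule.subset_span hx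
        rwa [s.2.2] at h1)
    exact ⟨⟨b, hb1, hb3⟩, hb2⟩
  choose nx hnx using hstep
  let F : ∀ d, St d := fun d => Nat.rec h0.some (fun d s => nx d s) d
  have hF : ∀ d, (F d).1 ⊆ (F (d + 1)).1 := fun d => hnx d (F d)
  have hmono : Monotone (fun d => (F d).1) := monotone_nat_of_le_succ hF
  refine ⟨⋃ d, (F d).1, ?_, ?_, ?_⟩
  · have h1 : LinearIndepOn f id (⋃ d, (F d).1) :=
      linearIndepOn_iUnion_of_directed hmono.directed_le (fun d => (F d).2.1)
    exact h1
  · rw [Submodule.span_iUnion]
    exact iSup_congr (fun d => (F d).2.2)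
  · intro d
    refine le_antisymm (Submodule.span_le.mpr Set.inter_subset_right) ?_
    rw [← (F d).2.2]
    refine Submodule.span_mono ?_
    intro x hx
    exact ⟨Set.mem_iUnion.mpr ⟨d, hx⟩, Submodule.subset_span hx⟩

end Pool.Agent.KRat
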