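import Pool.Agent.KRat.KerA
import Pool.Agent.KRat.QuadB

/-!
Row ZERO: the constants.
-/

set_option autoImplicit false

namespace Pool.Agent.KRat

open Finsupp Pool.Agent.KMil Polynomial

universe u

variable (p : ℕ) {k : Type u} [Field k]

/-- the residue field of a place of degree one is the ground field -/
private theorem zero_bij (π : Pl k 1) : Function.Bijective (AdjoinRoot.of π.1) := by
  refine ⟨(AdjoinRoot.of π.1).injective, ?_⟩
  intro x
  obtain ⟨q, rfl⟩ := AdjoinRoot.mk_surjective x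
  have hm : π.1.Monic := π.2.1
  have h1 : (q %ₘ π.1).natDegree < π.1.natDegree :=
    natDegree_modByMonic_lt q hm (by
      intro h
      have := π.2.2.2
      rw [h, natDegree_one] at this
      exact absurd this (by norm_num))
  rw [π.2.2.2, Nat.lt_one_iff] at h1
  obtain ⟨c, hc⟩ := natDegree_eq_zero.1 h1
  refine ⟨c, ?_⟩
  have h2 : AdjoinRoot.mk π.1 q = AdjoinRoot.mk π.1 (q %ₘ π.1) := by
    rw [AdjoinRoot.mk_eq_mk]
    refine ⟨q /ₘ π.1, ?_⟩
    have h3 := modByMonic_add_div q π.1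
    rw [sub_eq_iff_eq_add, add_comm]
    exact h3.symm
  rw [h2, ← hc, AdjoinRoot.mk_C]

/-- additive maps on units with values in an algebra extend to the quotient -/
private theorem zero_lift {E : Type*} [Field E] {A : Type*} [Ring A] [Algebra (ZMod p) A]
    (φ : Eˣ → A) (h : ∀ a b, φ (a * b) = φ a + φ b) :
    ∃ ψ : PW p E →ₗ[ZMod p] A, ∀ a, ψ (cls p a) = φ a := exists_lift p φ h

/-- the algebra generated by the constants is an exterior algebra -/
theorem zero_inj [Fact p.Prime] (h1 : ∃ c : k, c ^ p = -1) (π : Pl k 1)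
    (ev : KM p (RatFunc k) →ₐ[ZMod p] ExteriorAlgebra (ZMod p) (PW p (AdjoinRoot π.1)))
    (hev : ∀ q : k[X], q ≠ 0 → q.natDegree ≤ 0 →
      ev (psym p k q) = ExteriorAlgebra.ι (ZMod p) (rcls p π q))
    (n : ℕ) (a : KM p (RatFunc k)) (ha : a ∈ VV p k 0 ^ n) (h0 : ev a = 0) : a = 0 := by
  classical
  let e : k ≃+* AdjoinRoot π.1 := RingEquiv.ofBijective (AdjoinRoot.of π.1) (zero_bij π)
  have he : ∀ c : k, e.symm (AdjoinRoot.of π.1 c) = c := fun c => e.symm_apply_apply c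
  have hC : ∀ c : k, c ≠ 0 → (Polynomial.C c : k[X]) ≠ 0 := fun c hc => C_ne_zero.2 hc
  have hu : ∀ u : (AdjoinRoot π.1)ˣ, e.symm (u : AdjoinRoot π.1) ≠ 0 := fun u h =>
    u.ne_zero ((map_eq_zero_iff e.symm e.symm.injective).1 h)
  obtain ⟨ψ, hψ⟩ := zero_lift p (E := AdjoinRoot π.1) (A := KM p (RatFunc k))
    (fun u => psym p k (Polynomial.C (e.symm (u : AdjoinRoot π.1)))) (fun u v => by
      rw [Units.val_mul, map_mul, C_mul]
      exact psym_mul p k (hC _ (hu u)) (hC _ (hu v)))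
  have hsq : ∀ x : PW p (AdjoinRoot π.1), ψ x * ψ x = 0 := by
    intro x
    apply (anti_KM p k h1).1
    obtain ⟨u, rfl⟩ := cls_surj p x
    rw [hψ]
    exact psym_mem p k _
  let Ψ : ExteriorAlgebra (ZMod p) (PW p (AdjoinRoot π.1)) →ₐ[ZMod p] KM p (RatFunc k) :=
    ExteriorAlgebra.lift (ZMod p) ⟨ψ, hsq⟩
  have hΨ : ∀ x, Ψ (ExteriorAlgebra.ι (ZMod p) x) = ψ x := fun x =>
    ExteriorAlgebra.lift_ι_apply (ZMod p) ψ hsq x
  have hV : VV p k 0 ≤ Subalgebra.toSubmodule (AlgHom.equalizer (Ψ.comp ev) (AlgHom.id _ _)) := by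
    unfold VV
    rw [Submodule.span_le]
    rintro _ ⟨q, hq, hqd, rfl⟩
    show (Ψ.comp ev) (psym p k q) = psym p k q
    rw [AlgHom.comp_apply, hev q hq hqd, hΨ]
    obtain ⟨c, rfl⟩ := natDegree_eq_zero.1 (Nat.le_zero.1 hqd)
    have hc : c ≠ 0 := fun h => hq (by rw [h, C_0])
    have h2 : AdjoinRoot.mk π.1 (Polynomial.C c) ≠ 0 := by
      rw [AdjoinRoot.mk_C]
      exact (_root_.map_ne_zero _).2 hc
    rw [rcls, dif_neg h2, hψ, Units.val_mk0, AdjoinRoot.mk_C, he]
  have hmem : a ∈ Subalgebra.toSubmodule (AlgHom.equalizer (Ψ.comp ev) (AlgHom.id _ _)) := by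
    have h3 : VV p k 0 ^ n ≤
        Subalgebra.toSubmodule (AlgHom.equalizer (Ψ.comp ev) (AlgHom.id _ _)) := by
      clear ha
      induction n with
      | zero =>
        rw [pow_zero, Submodule.one_le]
        exact Subalgebra.one_mem _
      | succ n ih =>
        rw [pow_succ, Submodule.mul_le]
        intro x hx y hy
        exact Subalgebra.mul_mem _ (ih hx) (hV hy)
    exact h3 ha
  have h4 : Ψ (ev a) = a := hmem
  rw [← h4, h0, map_zero]

end Pool.Agent.KRat
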