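import Pool.Agent.KRat.Quad

/-!
Row ZIG0: degree one.
-/

set_option autoImplicit false

namespace Pool.Agent.KRat

open Finsupp Pool.Agent.KMil

universe u

variable {f : Type} [Field f] {I : Type*} {A : Type*} [Ring A] [Algebra f A]

/-- degree one is automatic -/
theorem kosAt_zero (v : I → A) (hv : LinearIndependent f v) : KosAt f v 0 := by
  classical
  intro z hz hz1 hd
  -- coordinates on the span, extended to the whole space
  obtain ⟨κ, hκ⟩ := LinearMap.exists_extend (p := sp f v)
    (hv.repr : sp f v →ₗ[f] (I →₀ f))
  have hκ' : ∀ a ∈ sp f v, (κ a).sum (fun i c => c • v i) = a := by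
    intro a ha
    have h1 : κ a = hv.repr ⟨a, ha⟩ := LinearMap.congr_fun hκ ⟨a, ha⟩
    rw [h1]
    have h2 := hv.linearCombination_repr ⟨a, ha⟩
    rw [Finsupp.linearCombination_apply] at h2
    exact h2
  let φ : I → A →ₗ[f] A := fun i =>
    (LinearMap.toSpanSingleton f A 1) ∘ₗ (Finsupp.lapply i) ∘ₗ κ
  let Y : (List I →₀ A) →ₗ[f] (List I →₀ A) :=
    Finsupp.lsum f (fun w => (Finsupp.lsum f (fun i =>
      (Finsupp.lsingle (i :: w)) ∘ₗ (LinearMap.toSpanSingleton f A 1))) ∘ₗ κ)
  have hY : ∀ w a, Y (single w a) = (κ a).sum (fun i c => single (i :: w) (c • (1 : A))) := by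
    intro w a
    simp only [Y, Finsupp.lsum_apply, Finsupp.sum_single_index, map_zero]
    rfl
  have htl : ∀ i, tl f i (Y z) = mp (φ i) z := by
    intro i
    have : (tl f i) ∘ₗ Y = mp (φ i) := by
      apply lin_ext
      intro w a
      rw [LinearMap.comp_apply, hY, mp_single, Finsupp.sum, map_sum]
      have h3 : ∀ j ∈ (κ a).support, tl f i (single (j :: w) ((κ a) j • (1 : A))) =
          if j = i then single w ((κ a) j • (1 : A)) else 0 := by
        intro j _
        ext w1
        rw [tl_apply]
        by_cases h : j = i
        · subst h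
          rw [if_pos rfl, Finsupp.single_apply, Finsupp.single_apply]
          by_cases h' : w = w1
          · rw [if_pos (by rw [h']), if_pos h']
          · rw [if_neg (fun h'' => h' (List.cons.inj h'').2), if_neg h']
        · rw [if_neg h, Finsupp.single_apply, if_neg (fun h'' => h (List.cons.inj h'').1)]
          rfl
      rw [Finset.sum_congr rfl h3, Finset.sum_ite_eq' (κ a).support i]
      by_cases h : i ∈ (κ a).support
      · rw [if_pos h]; rfl
      · rw [if_neg h]
        have : κ a i = 0 := by simpa using h
        show 0 = single w ((κ a i) • (1 : A))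
        rw [this, zero_smul, single_zero]
    exact LinearMap.congr_fun this z
  have hdR : dR f v (Y z) = z := by
    -- on words with values in the span
    have h1 : ∀ w a, a ∈ sp f v → dR f v (Y (single w a)) = single w a := by
      intro w a ha
      rw [hY, Finsupp.sum, map_sum]
      have h3 : ∀ j ∈ (κ a).support, dR f v (single (j :: w) ((κ a) j • (1 : A))) =
          single w ((κ a) j • v j) := by
        intro j _
        rw [dR, dif_cons]
        simp
      rw [Finset.sum_congr rfl h3, ← Finsupp.single_finsetSum]
      congr 1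
      exact hκ' a ha
    have h2 : z = ∑ w ∈ z.support, single w (z w) := by
      conv_lhs => rw [← Finsupp.sum_single z]
      rfl
    rw [h2, map_sum, map_sum]
    refine Finset.sum_congr rfl fun w _ => h1 w _ ?_
    have := hz1 w
    rwa [zero_add, pow_one] at this
  refine ⟨Y z, ?_, ?_, hdR⟩
  · rw [C_iff]
    refine ⟨fun μ => ?_, fun i => by rw [htl]; exact C_mp _ _ hz⟩
    -- `quad μ (Y z)` is `μ` of `dR z`
    have key : quad (fun i j => μ (pr v i j) • (LinearMap.id : A →ₗ[f] A)) (Y z) =
        mp ((LinearMap.toSpanSingleton f A 1) ∘ₗ μ) (dR f v (dR f v (Y z))) := by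
      have h5 : ∀ z : List I →₀ A,
          quad (fun i j => μ (pr v i j) • (LinearMap.id : A →ₗ[f] A)) (Y z) =
          mp ((LinearMap.toSpanSingleton f A 1) ∘ₗ μ) (dR f v (dR f v (Y z))) := by
        intro z
        have : (quad (fun i j => μ (pr v i j) • (LinearMap.id : A →ₗ[f] A))) ∘ₗ Y =
            (mp ((LinearMap.toSpanSingleton f A 1) ∘ₗ μ)) ∘ₗ (dR f v) ∘ₗ (dR f v) ∘ₗ Y := by
          apply lin_ext
          intro w a
          simp only [LinearMap.comp_apply]
          rw [hY, Finsupp.sum, map_sum, map_sum, map_sum, map_sum]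
          refine Finset.sum_congr rfl fun i _ => ?_
          cases w with
          | nil => simp [dR]
          | cons j w =>
            simp [dR, pr, smul_smul, mul_comm]
        exact LinearMap.congr_fun this z
      exact h5 z
    rw [key, hdR, hd, map_zero]
  · intro w
    rw [pow_zero]
    cases w with
    | nil =>
      have h1 : (Y z) [] = 0 := by
        have : (Finsupp.lapply ([] : List I)) ∘ₗ Y = 0 := by
          apply lin_ext
          intro w a
          rw [LinearMap.comp_apply, hY, Finsupp.sum, map_sum]
          refine Finset.sum_eq_zero fun i _ => ?_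
          simp
        exact LinearMap.congr_fun this z
      rw [h1]
      exact Submodule.zero_mem _
    | cons i w =>
      have h1 : (Y z) (i :: w) = (tl f i (Y z)) w := rfl
      rw [h1, htl, mp_apply]
      exact Submodule.mem_one.2 ⟨κ (z w) i, by
        show _ = (κ (z w) i) • (1 : A)
        rw [Algebra.algebraMap_eq_smul_one]⟩

end Pool.Agent.KRat
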